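import Pool.Agent.Work.MP_c07f0d_lc.LS.Walsh

/-!
# Block restrictions: exactly one coordinate in every block stays alive
-/

set_option linter.unusedSectionVars false

namespace LineSize

open Finset

variable {E : Type} [Fintype E] [DecidableEq E] {J : ℕ}

/-- The point obtained from `z` by adding `y e` to the alive coordinate `(e, σ e)`. -/
def res (σ : E → Fin J) (z : E × Fin J → Bool) (y : E → Bool) : E × Fin J → Bool :=
  fun p => if p.2 = σ p.1 then xor (z p) (y p.1) else z p

/-- The blocks whose alive coordinate is in `U`. -/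
def alive (σ : E → Fin J) (U : Finset (E × Fin J)) : Finset E :=
  Finset.univ.filter fun e => (e, σ e) ∈ U

lemma chi_res (σ : E → Fin J) (z : E × Fin J → Bool) (y : E → Bool) (U : Finset (E × Fin J)) :
    chi U (res σ z y) = chi U z * chi (alive σ U) y := by
  have h1 : ∀ p : E × Fin J, sg (res σ z y p)
      = sg (z p) * (if p.2 = σ p.1 then sg (y p.1) else 1) := by
    intro p
    unfold res
    split_ifs with h
    · rw [sg_xor]
    · simp
  unfold chi
  simp only [h1, Finset.prod_mul_distrib]
  congr 1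
  rw [← Finset.prod_filter]
  symm
  refine Finset.prod_nbij' (fun e => (e, σ e)) (fun p => p.1) ?_ ?_ ?_ ?_ ?_
  · intro e he
    simpa [alive] using he
  · intro p hp
    simp only [Finset.mem_filter] at hp
    simp only [alive, Finset.mem_filter, Finset.mem_univ, true_and]
    rw [← hp.2]
    exact hp.1
  · intro e _
    rfl
  · intro p hp
    simp only [Finset.mem_filter] at hp
    ext
    · rfl
    · simp [hp.2]
  · intro e _
    rfl

lemma fc_res (f : (E × Fin J → Bool) → ℝ) (σ : E → Fin J) (z : E × Fin J → Bool)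
    (S : Finset E) :
    fc (fun y => f (res σ z y)) S
      = ∑ U, (if alive σ U = S then fc f U else 0) * chi U z := by
  have h : (fun y => f (res σ z y))
      = fun y => ∑ U, (fc f U * chi U z) * chi (alive σ U) y := by
    funext y
    rw [← walsh f (res σ z y)]
    refine Finset.sum_congr rfl fun U _ => ?_
    rw [chi_res]
    ring
  rw [h, fc_sum]
  refine Finset.sum_congr rfl fun U _ => ?_
  rw [fc_const_mul]
  have : fc (fun x => chi (alive σ U) x) S = if S = alive σ U then 1 else 0 := fc_chi _ _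
  rw [this]
  by_cases h : S = alive σ U
  · rw [if_pos h, if_pos h.symm]
    ring
  · rw [if_neg h, if_neg (fun h' => h h'.symm)]
    ring

lemma sum_res (f : (E × Fin J → Bool) → ℝ) (σ : E → Fin J) (c : ℝ) :
    ∑ z, ∑ S, c ^ S.card * fc (fun y => f (res σ z y)) S ^ 2
      = 2 ^ Fintype.card (E × Fin J) * ∑ U, c ^ (alive σ U).card * fc f U ^ 2 := by
  rw [Finset.sum_comm]
  have h1 : ∀ S : Finset E, ∑ z, c ^ S.card * fc (fun y => f (res σ z y)) S ^ 2
      = 2 ^ Fintype.card (E × Fin J) *
        ∑ U, (if alive σ U = S then c ^ (alive σ U).card * fc f U ^ 2 else 0) := by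
    intro S
    rw [← Finset.mul_sum]
    simp only [fc_res]
    rw [parseval_expand, mul_left_comm, Finset.mul_sum]
    congr 1
    refine Finset.sum_congr rfl fun U _ => ?_
    by_cases h : alive σ U = S
    · rw [if_pos h, if_pos h, h]
    · rw [if_neg h, if_neg h]
      ring
  simp only [h1, ← Finset.mul_sum]
  congr 1
  rw [Finset.sum_comm]
  refine Finset.sum_congr rfl fun U _ => ?_
  simp

lemma sum_alive (U : Finset (E × Fin J)) (hJ : 0 < J) {c : ℝ} (hc : 1 ≤ c) :
    ∑ σ : E → Fin J, c ^ (alive σ U).card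
      ≤ (J : ℝ) ^ Fintype.card E * (1 + (c - 1) / J) ^ U.card := by
  classical
  have hJ' : (0 : ℝ) < J := by exact_mod_cast hJ
  have h1 : ∀ σ : E → Fin J, c ^ (alive σ U).card
      = ∏ e, (if (e, σ e) ∈ U then c else 1) := by
    intro σ
    rw [alive, ← Finset.prod_const, Finset.prod_filter]
  simp only [h1]
  have h2 : ∑ σ : E → Fin J, ∏ e, (if (e, σ e) ∈ U then c else 1)
      = ∏ e, ∑ j : Fin J, (if (e, j) ∈ U then c else 1) := by
    rw [Finset.prod_univ_sum, Fintype.piFinset_univ]
  rw [h2]
  let u : E → ℕ := fun e => (Finset.univ.filter fun j : Fin J => (e, j) ∈ U).card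
  have h3 : ∀ e, ∑ j : Fin J, (if (e, j) ∈ U then c else 1)
      ≤ J * (1 + (c - 1) / J) ^ u e := by
    intro e
    have h4 : ∑ j : Fin J, (if (e, j) ∈ U then c else 1) = J + u e * (c - 1) := by
      have : ∀ j : Fin J, (if (e, j) ∈ U then c else 1)
          = 1 + (if (e, j) ∈ U then (c - 1) else 0) := by
        intro j
        split_ifs <;> ring
      simp only [this, Finset.sum_add_distrib, ← Finset.sum_filter, Finset.sum_const]
      simp [u]
    rw [h4]
    have h5 := one_add_mul_le_pow (a := (c - 1) / J)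
      (by have : 0 ≤ (c - 1) / J := div_nonneg (by linarith) hJ'.le
          linarith) (u e)
    calc (J : ℝ) + u e * (c - 1) = J * (1 + u e * ((c - 1) / J)) := by
          field_simp
      _ ≤ J * (1 + (c - 1) / J) ^ u e := by
          exact mul_le_mul_of_nonneg_left h5 hJ'.le
  have hsum : ∑ e, u e = U.card := by
    simp only [u, Finset.card_filter]
    rw [← Fintype.sum_prod_type (f := fun p : E × Fin J => if p ∈ U then 1 else 0)]
    simp
  calc ∏ e, ∑ j : Fin J, (if (e, j) ∈ U then c else 1)
      ≤ ∏ e, (J * (1 + (c - 1) / J) ^ u e) := by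
        refine Finset.prod_le_prod (fun e _ => ?_) (fun e _ => h3 e)
        refine Finset.sum_nonneg fun j _ => ?_
        split_ifs <;> linarith
    _ = (J : ℝ) ^ Fintype.card E * (1 + (c - 1) / J) ^ U.card := by
        rw [Finset.prod_mul_distrib, Finset.prod_pow_eq_pow_sum, hsum]
        simp

/-- The number of bad restrictions. -/
theorem card_bad (f : (E × Fin J → Bool) → ℝ) (hZ : ∀ x, ∃ z : ℤ, f x = z) (hJ : 0 < J)
    {θ G a : ℝ} (hG : ∑ U, θ ^ U.card * fc f U ^ 2 ≤ G) (ha : 1 ≤ a)
    (hθ : 1 + (4 * a - 1) / J ≤ θ) (k₀ : ℕ) [DecidablePred fun p : (E → Fin J) × (E × Fin J → Bool) =>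
      ¬ LowDeg k₀ (fun y => f (res p.1 p.2 y))] :
    ((Finset.univ.filter fun p : (E → Fin J) × (E × Fin J → Bool) =>
      ¬ LowDeg k₀ (fun y => f (res p.1 p.2 y))).card : ℝ) * a ^ (k₀ + 1)
      ≤ G * ((J : ℝ) ^ Fintype.card E * 2 ^ Fintype.card (E × Fin J)) := by
  classical
  have hJ' : (0 : ℝ) < J := by exact_mod_cast hJ
  set Bad := Finset.univ.filter fun p : (E → Fin J) × (E × Fin J → Bool) =>
      ¬ LowDeg k₀ (fun y => f (res p.1 p.2 y)) with hBad
  have h1 : (Bad.card : ℝ) * a ^ (k₀ + 1)
      ≤ ∑ p : (E → Fin J) × (E × Fin J → Bool),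
        ∑ S, (4 * a) ^ S.card * fc (fun y => f (res p.1 p.2 y)) S ^ 2 := by
    calc (Bad.card : ℝ) * a ^ (k₀ + 1) = ∑ p ∈ Bad, a ^ (k₀ + 1) := by
          rw [Finset.sum_const, nsmul_eq_mul]
      _ ≤ ∑ p ∈ Bad, ∑ S, (4 * a) ^ S.card * fc (fun y => f (res p.1 p.2 y)) S ^ 2 := by
          refine Finset.sum_le_sum fun p hp => ?_
          rw [hBad, Finset.mem_filter] at hp
          exact one_le_of_not_lowDeg (fun x => hZ _) hp.2 ha
      _ ≤ _ := by
          refine Finset.sum_le_sum_of_subset_of_nonneg (Finset.subset_univ _) fun p _ _ => ?_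
          refine Finset.sum_nonneg fun S _ => ?_
          positivity
  refine h1.trans ?_
  rw [Fintype.sum_prod_type]
  simp only [sum_res]
  rw [← Finset.mul_sum, Finset.sum_comm]
  have h2 : ∑ U, ∑ σ : E → Fin J, (4 * a) ^ (alive σ U).card * fc f U ^ 2
      ≤ (J : ℝ) ^ Fintype.card E * G := by
    calc ∑ U, ∑ σ : E → Fin J, (4 * a) ^ (alive σ U).card * fc f U ^ 2
        ≤ ∑ U : Finset (E × Fin J), (J : ℝ) ^ Fintype.card E * (θ ^ U.card * fc f U ^ 2) := by
          refine Finset.sum_le_sum fun U _ => ?_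
          rw [← Finset.sum_mul, ← mul_assoc]
          refine mul_le_mul_of_nonneg_right ?_ (sq_nonneg _)
          refine (sum_alive U hJ (by linarith)).trans ?_
          refine mul_le_mul_of_nonneg_left ?_ (by positivity)
          refine pow_le_pow_left₀ ?_ hθ _
          have : 0 ≤ (4 * a - 1) / J := div_nonneg (by linarith) hJ'.le
          linarith
      _ = (J : ℝ) ^ Fintype.card E * ∑ U : Finset (E × Fin J), θ ^ U.card * fc f U ^ 2 := by
          rw [Finset.mul_sum]
      _ ≤ _ := mul_le_mul_of_nonneg_left hG (by positivity)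
  calc (2 : ℝ) ^ Fintype.card (E × Fin J) *
        ∑ U, ∑ σ : E → Fin J, (4 * a) ^ (alive σ U).card * fc f U ^ 2
      ≤ 2 ^ Fintype.card (E × Fin J) * ((J : ℝ) ^ Fintype.card E * G) :=
        mul_le_mul_of_nonneg_left h2 (by positivity)
    _ = _ := by ring

/-- The parity of a block. -/
def par (z : E × Fin J → Bool) (e : E) : Bool :=
  decide (Odd (Finset.univ.filter fun j : Fin J => z (e, j) = true).card)

lemma prod_sg {κ : Type*} (s : Finset κ) (b : κ → Bool) :
    ∏ j ∈ s, sg (b j) = sg (decide (Odd (s.filter fun j => b j = true).card)) := by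
  classical
  have h : ∏ j ∈ s, sg (b j) = (-1) ^ (s.filter fun j => b j = true).card := by
    unfold sg
    rw [← Finset.prod_filter, Finset.prod_const]
  rw [h]
  by_cases ho : Odd (s.filter fun j => b j = true).card
  · rw [ho.neg_one_pow]
    simp [sg, ho]
  · rw [(Nat.not_odd_iff_even.mp ho).neg_one_pow]
    simp [sg, ho]

lemma sg_par (z : E × Fin J → Bool) (e : E) : sg (par z e) = ∏ j, sg (z (e, j)) := by
  rw [prod_sg]
  rfl

/-- The restricted point, normalised so that the parity of block `e` is `y e`. -/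
def rho (σ : E → Fin J) (z : E × Fin J → Bool) (y : E → Bool) : E × Fin J → Bool :=
  res σ z (fun e => xor (y e) (par z e))

lemma prod_rho (σ : E → Fin J) (z : E × Fin J → Bool) (y : E → Bool) (e : E) :
    ∏ j, sg (rho σ z y (e, j)) = sg (y e) := by
  have h1 : ∀ j : Fin J, sg (rho σ z y (e, j))
      = sg (z (e, j)) * (if j = σ e then sg (y e) * sg (par z e) else 1) := by
    intro j
    unfold rho res
    split_ifs with h
    · rw [sg_xor, sg_xor]
    · simp
  simp only [h1, Finset.prod_mul_distrib, ← sg_par]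
  simp only [Finset.prod_ite_eq', Finset.mem_univ, if_true]
  linear_combination sg (y e) * sg_mul_self (par z e)

lemma lowDeg_rho {d : ℕ} (f : (E × Fin J → Bool) → ℝ) (σ : E → Fin J) (z : E × Fin J → Bool)
    (h : LowDeg d (fun y => f (res σ z y))) : LowDeg d (fun y => f (rho σ z y)) :=
  h.translate (par z)

end LineSize
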