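import Pool.Agent.Work.MP_c07f0d_lc.LS.Upper2

/-!
# Short Frege refutations with lines of quadratic size, III
-/

set_option linter.unusedSectionVars false

namespace LineSize

open FregeEF Finset

/-- The tree of a vertex constraint. -/
def vTree (d J : ℕ) (u : Fin d → Bool) : XT (TVar d J) :=
  XT.ofList (Nat.clog 2 ((star d J u).map Fm.var).length) ((star d J u).map fun p => .leaf (some p))

lemma vTree_fm (d J : ℕ) (u : Fin d → Bool) :
    (vTree d J u).fm = parity ((star d J u).map Fm.var) := by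
  unfold vTree parity
  rw [XT.fm_ofList, List.map_map]
  rfl

lemma vertexAx_eq (d J : ℕ) (u : Fin d → Bool) :
    vertexAx d J u = litF (charge u) (vTree d J u).fm := by
  unfold vertexAx litF charge
  rw [vTree_fm]
  by_cases h : u = fun _ => false
  · rw [if_pos h, if_pos (by simpa using h)]
  · rw [if_neg h, if_neg (by simpa using h)]

lemma length_star (d J : ℕ) (u : Fin d → Bool) : (star d J u).length = d * (J * 2) := by
  unfold star
  rw [List.length_flatMap]
  simp [List.length_flatMap, List.map_const', List.sum_replicate]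

lemma two_pow_clog_le {m : ℕ} (hm : 1 ≤ m) : 2 ^ Nat.clog 2 m ≤ 2 * m := by
  rcases Nat.eq_zero_or_pos (Nat.clog 2 m) with h | h
  · rw [h]
    omega
  · have hm2 : 1 < m := by
      by_contra hcon
      have : m = 1 := by omega
      rw [this] at h
      simp at h
    have h1 := Nat.pow_pred_clog_lt_self (b := 2) (by norm_num) hm2
    have h2 : Nat.clog 2 m = (Nat.clog 2 m).pred + 1 := by
      simp only [Nat.pred_eq_sub_one]
      omega
    rw [h2, pow_succ]
    omega

lemma four_pow (k : ℕ) : 4 ^ k = (2 ^ k) ^ 2 := by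
  rw [← pow_mul, mul_comm, pow_mul]
  norm_num

lemma size_vTree {d J : ℕ} (hd : 1 ≤ d) (hJ : 1 ≤ J) (u : Fin d → Bool) :
    (vTree d J u).fm.size + 2 ≤ 48 * (d * J) ^ 2 := by
  rw [vTree_fm]
  unfold parity
  have h1 := size_xorList 1 le_rfl (Nat.clog 2 ((star d J u).map Fm.var).length)
    ((star d J u).map Fm.var) (by
      intro φ hφ
      obtain ⟨p, _, rfl⟩ := List.mem_map.mp hφ
      simp [Fm.size])
  refine h1.trans ?_
  rw [List.length_map, length_star]
  have hdJ : 1 ≤ d * (J * 2) := by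
    have := Nat.mul_pos hd hJ
    nlinarith
  have h2 := two_pow_clog_le hdJ
  have h3 : 4 ^ Nat.clog 2 (d * (J * 2)) = (2 ^ Nat.clog 2 (d * (J * 2))) ^ 2 :=
    four_pow _
  rw [h3]
  have h4 : (2 ^ Nat.clog 2 (d * (J * 2))) ^ 2 ≤ (2 * (d * (J * 2))) ^ 2 :=
    Nat.pow_le_pow_left h2 2
  nlinarith

lemma size_vertexAx {d J : ℕ} (hd : 1 ≤ d) (hJ : 1 ≤ J) (u : Fin d → Bool) :
    (vertexAx d J u).size ≤ 48 * (d * J) ^ 2 := by
  rw [vertexAx_eq]
  have h := size_vTree hd hJ u
  unfold litF
  split_ifs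
  · omega
  · simp only [Fm.size]
    omega

/-- The tree of all constraints. -/
noncomputable def bigTree (d J : ℕ) : XT (TVar d J) :=
  XT.ofList d ((Finset.univ : Finset (Fin d → Bool)).toList.map (vTree d J))

lemma size_bigTree {d J : ℕ} (hd : 1 ≤ d) (hJ : 1 ≤ J) :
    (bigTree d J).fm.size ≤ 80 * (2 ^ d * d * J) ^ 2 := by
  unfold bigTree
  rw [XT.fm_ofList]
  have hdJ : 1 ≤ d * J := Nat.mul_pos hd hJ
  have h1 := size_xorList (48 * (d * J) ^ 2) (by nlinarith) d
    (((Finset.univ : Finset (Fin d → Bool)).toList.map (vTree d J)).map XT.fm) (by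
      intro φ hφ
      obtain ⟨T, hT, rfl⟩ := List.mem_map.mp hφ
      obtain ⟨u, _, rfl⟩ := List.mem_map.mp hT
      have := size_vTree hd hJ u
      omega)
  have h2 : 4 ^ d * (48 * (d * J) ^ 2 + 2) ≤ 80 * (2 ^ d * d * J) ^ 2 := by
    have e : (2 ^ d * d * J) ^ 2 = 4 ^ d * (d * J) ^ 2 := by
      have : (4 : ℕ) ^ d = (2 ^ d) ^ 2 := by
        rw [← pow_mul, mul_comm, pow_mul]
        norm_num
      rw [this]
      ring
    rw [e]
    have h3 : 1 ≤ (d * J) ^ 2 := Nat.one_le_pow _ _ hdJ
    have h4 : 48 * (d * J) ^ 2 + 2 ≤ 80 * (d * J) ^ 2 := by omega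
    calc 4 ^ d * (48 * (d * J) ^ 2 + 2) ≤ 4 ^ d * (80 * (d * J) ^ 2) := Nat.mul_le_mul_left _ h4
      _ = 80 * (4 ^ d * (d * J) ^ 2) := by ring
  omega

lemma sv_bigTree {d J : ℕ} (v : TVar d J → Bool) : sv v (bigTree d J).fm = 1 := by
  unfold bigTree
  rw [XT.fm_ofList, sv_xorList v d _ (by simp), List.map_map, List.map_map]
  have h1 : (sv v ∘ XT.fm) ∘ vTree d J = fun u => ∏ i : Fin d,
      (∏ j : Fin J, sg (v ((u, i), j))) * ∏ j : Fin J, sg (v ((flip u i, i), j)) := by
    funext u
    simp only [Function.comp]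
    rw [vTree_fm, sv_parity, List.map_map]
    have h2 : (sv v ∘ Fm.var) = fun p => sg (v p) := by
      funext p
      exact sv_var _ p
    rw [h2, star_prod]
  rw [h1, Finset.prod_map_toList, Finset.prod_comm]
  refine Finset.prod_eq_one fun i _ => ?_
  rw [Finset.prod_mul_distrib]
  have h3 : ∏ u : Fin d → Bool, ∏ j : Fin J, sg (v ((flip u i, i), j))
      = ∏ u : Fin d → Bool, ∏ j : Fin J, sg (v ((u, i), j)) := by
    refine Finset.prod_nbij' (fun u => flip u i) (fun u => flip u i) (by simp) (by simp) ?_ ?_ ?_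
    · intro u _
      exact flip_flip u i
    · intro u _
      exact flip_flip u i
    · intro u _
      rfl
  rw [h3, ← Finset.prod_mul_distrib]
  refine Finset.prod_eq_one fun u _ => ?_
  rw [← Finset.prod_mul_distrib]
  exact Finset.prod_eq_one fun j _ => sg_mul_self _

lemma par_bigTree {d J : ℕ} (x : TVar d J) : (bigTree d J).par x = false := by
  have h := XT.sv_flip (fun _ : TVar d J => false) x (bigTree d J)
  rw [sv_bigTree, sv_bigTree] at h
  by_contra hcon
  have hcon' : (bigTree d J).par x = true := by simpa using hcon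
  rw [hcon'] at h
  norm_num at h

lemma valB_eq {V : Type} [DecidableEq V] (z : V) (l : List V) (hl : l.Nodup) :
    valB (fun u => decide (u = z)) l = decide (z ∈ l) := by
  induction l with
  | nil => simp [valB]
  | cons u l ih =>
    rw [List.nodup_cons] at hl
    have ih' := ih hl.2
    unfold valB at ih' ⊢
    rw [List.foldr_cons, ih']
    by_cases h : u = z
    · subst h
      simp [hl.1]
    · have h' : ¬ z = u := fun h2 => h h2.symm
      simp [h, h']

lemma deriv_hyps {α : Type} (R : List Rule) (Γ : List (Fm α)) :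
    ∀ L : List (Fm α), (∀ φ ∈ L, φ ∈ Γ) → IsDeriv R Γ L := by
  intro L
  induction L with
  | nil => exact fun _ => .nil
  | cons φ L ih =>
    intro h
    exact (ih fun ψ hψ => h ψ (List.mem_cons_of_mem _ hψ)).hyp (h φ List.mem_cons_self)

/-- Short refutations with lines of quadratic size. -/
theorem upper (F : FregeSystem) {d J : ℕ} (hd : 1 ≤ d) (hJ : 1 ≤ J) :
    ∃ L : List (Fm (TVar d J)), IsDeriv F.rules (cubeAxioms d J) L ∧ Fm.bot ∈ L ∧
      L.length ≤ 250 * F.K * (2 ^ d * d * J) ^ 3 ∧
      ∀ φ ∈ L, φ.size ≤ 250 * F.K * (2 ^ d * d * J) ^ 2 := by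
  classical
  set n := 2 ^ d * d * J with hn
  have hK := F.K_pos
  have hn2 : 2 ^ d ≤ n := by
    rw [hn, mul_assoc]
    exact Nat.le_mul_of_pos_right _ (Nat.mul_pos hd hJ)
  have hn1 : 1 ≤ n := (Nat.one_le_two_pow).trans hn2
  set M := 80 * n ^ 2 with hM
  have hM1 : 1 ≤ M := by
    have : 1 ≤ n ^ 2 := Nat.one_le_pow _ _ hn1
    omega
  have hbig : (bigTree d J).fm.size ≤ M := size_bigTree hd hJ
  set us := (Finset.univ : Finset (Fin d → Bool)).toList with hus
  have huslen : us.length = 2 ^ d := by simp [hus]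
  have hax : cubeAxioms d J = us.map fun u => litF (charge u) (vTree d J u).fm := by
    unfold cubeAxioms
    exact List.map_congr_left fun u _ => vertexAx_eq d J u
  -- the axioms
  have hL0 : IsDeriv F.rules (cubeAxioms d J) (cubeAxioms d J) :=
    deriv_hyps _ _ _ fun _ h => h
  have hs0 : ∀ ψ ∈ cubeAxioms d J, ψ.size ≤ F.K * M := by
    intro ψ hψ
    obtain ⟨u, _, rfl⟩ := List.mem_map.mp hψ
    have h1 := size_vertexAx hd hJ u
    have h2 : 48 * (d * J) ^ 2 ≤ M := by
      rw [hM, hn]
      have h3 : d * J ≤ 2 ^ d * d * J := by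
        rw [mul_assoc]
        exact Nat.le_mul_of_pos_left _ (by positivity)
      have h4 := Nat.pow_le_pow_left h3 2
      omega
    have h5 : M ≤ F.K * M := Nat.le_mul_of_pos_left _ hK
    omega
  -- the conjunction of the constraints
  have e1 := ext_ofList (F := F) (Γ := cubeAxioms d J) hM1 (vTree d J) charge d us
    (by rw [huslen]) hbig
  rw [← hax] at e1
  obtain ⟨L1, a1, b1, c1, d1, f1⟩ := e1 _ hL0 hs0 fun _ h => h
  have hval : valB charge us = true := by
    have h1 := valB_eq (fun _ : Fin d => false) us (Finset.nodup_toList _)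
    have h2 : valB charge us = valB (fun u => decide (u = fun _ => false)) us := rfl
    rw [h2, h1, decide_eq_true_iff]
    exact Finset.mem_toList.mpr (Finset.mem_univ _)
  rw [hval] at d1
  -- kill all the variables
  set xs := (Finset.univ : Finset (TVar d J)).toList with hxs
  have hxslen : xs.length = n := by
    simp [hxs, hn]
  have e2 := ext_killAll (F := F) (Γ := cubeAxioms d J) hM1 xs (bigTree d J) hbig par_bigTree
  obtain ⟨L2, a2, b2, c2, d2, f2⟩ := e2 L1 a1 b1 (by
    intro ψ hψ
    exact d1 ψ hψ)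
  have hsz : (killAll xs (bigTree d J)).fm.size ≤ M := by
    have : ∀ (ys : List (TVar d J)) (t : XT (TVar d J)), (killAll ys t).fm.size = t.fm.size := by
      intro ys
      induction ys with
      | nil => exact fun t => rfl
      | cons y ys ih =>
        intro t
        have := ih (t.kill y)
        rw [XT.size_kill] at this
        exact this
    rw [this]
    exact hbig
  have e3 := ext_neg (F := F) (Γ := cubeAxioms d J) hM1 (killAll xs (bigTree d J)) hsz (by
    intro x hx
    exact occ_killAll xs (bigTree d J) x hx (Finset.mem_toList.mpr (Finset.mem_univ _)))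
  obtain ⟨L3, a3, b3, c3, d3, f3⟩ := e3 L2 a2 b2 (by simp)
  have e4 := Ext.rule (F := F) (Γ := cubeAxioms d J) hM1 [.var 0, .neg (.var 0)] .bot
    [(killAll xs (bigTree d J)).fm] (by decide) (by
      intro v h
      simp only [List.mem_cons, List.not_mem_nil, or_false, forall_eq_or_imp, forall_eq,
        Fm.eval] at h
      exact absurd h.1 h.2) (by simpa using hsz)
  obtain ⟨L4, a4, b4, c4, d4, f4⟩ := e4 L3 a3 b3 (by
    intro ψ hψ
    simp only [List.map_cons, List.map_nil, List.mem_cons, List.not_mem_nil, or_false] at hψ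
    rcases hψ with rfl | rfl
    · exact c3 _ (d2 _ (by simp [sub, Fm.subst]))
    · exact d3 _ (by simp [sub, Fm.subst]))
  refine ⟨L4, a4, d4 _ (by simp [Fm.subst]), ?_, ?_⟩
  · have hL0len : (cubeAxioms d J).length = 2 ^ d := by
      unfold cubeAxioms
      simp
    have hnodes := (XT.nodes_le (killAll xs (bigTree d J))).trans hsz
    have g1 : F.K * (2 ^ (d + 1) - 1) ≤ 2 * (F.K * n) := by
      have : 2 ^ (d + 1) - 1 ≤ 2 * n := by
        rw [pow_succ]
        omega
      calc F.K * (2 ^ (d + 1) - 1) ≤ F.K * (2 * n) := Nat.mul_le_mul_left _ this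
        _ = 2 * (F.K * n) := by ring
    have g3 : F.K * (killAll xs (bigTree d J)).nodes ≤ F.K * M := Nat.mul_le_mul_left _ hnodes
    rw [hxslen] at f2
    have g2 : n * (2 * F.K * M + F.K) = 160 * (F.K * n ^ 3) + F.K * n := by
      rw [hM]
      ring
    have g4 : F.K * M = 80 * (F.K * n ^ 2) := by
      rw [hM]
      ring
    have k1 : F.K ≤ F.K * n ^ 3 := Nat.le_mul_of_pos_right _ (by positivity)
    have k2 : F.K * n ≤ F.K * n ^ 3 := Nat.mul_le_mul_left _ (by
      calc n = n ^ 1 := (pow_one n).symm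
        _ ≤ n ^ 3 := Nat.pow_le_pow_right hn1 (by norm_num))
    have k3 : F.K * n ^ 2 ≤ F.K * n ^ 3 := Nat.mul_le_mul_left _
      (Nat.pow_le_pow_right hn1 (by norm_num))
    have k4 : n ≤ F.K * n := Nat.le_mul_of_pos_left _ hK
    have k5 : 250 * F.K * n ^ 3 = 250 * (F.K * n ^ 3) := by ring
    rw [k5]
    omega
  · intro φ hφ
    have h1 := b4 φ hφ
    have h2 : F.K * M ≤ 250 * F.K * n ^ 2 := by
      have : F.K * M = 80 * (F.K * n ^ 2) := by
        rw [hM]
        ring
      have k5 : 250 * F.K * n ^ 2 = 250 * (F.K * n ^ 2) := by ring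
      omega
    omega

end LineSize
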