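import Mathlib

/-!
# Walsh analysis on the discrete cube
-/

set_option linter.unusedSectionVars false

namespace LineSize

open Finset

variable {ι : Type} [Fintype ι] [DecidableEq ι]

/-- The sign of a bit. -/
def sg (b : Bool) : ℝ := if b then -1 else 1

lemma sg_mul_self (b : Bool) : sg b * sg b = 1 := by
  cases b <;> simp [sg]

lemma sg_xor (a b : Bool) : sg (xor a b) = sg a * sg b := by
  cases a <;> cases b <;> simp [sg]

/-- The Walsh character of a set of coordinates. -/
def chi (S : Finset ι) (x : ι → Bool) : ℝ := ∏ i ∈ S, sg (x i)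

/-- The Walsh coefficient. -/
noncomputable def fc (f : (ι → Bool) → ℝ) (S : Finset ι) : ℝ :=
  (∑ x, f x * chi S x) / 2 ^ Fintype.card ι

lemma chi_eq (S : Finset ι) (x : ι → Bool) :
    chi S x = ∏ i, (if i ∈ S then sg (x i) else 1) := by
  unfold chi
  rw [Finset.prod_ite_mem]
  simp

@[simp] lemma chi_empty (x : ι → Bool) : chi (∅ : Finset ι) x = 1 := by simp [chi]

lemma chi_mul (S T : Finset ι) (x : ι → Bool) : chi S x * chi T x = chi (symmDiff S T) x := by
  rw [chi_eq, chi_eq, chi_eq, ← Finset.prod_mul_distrib]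
  refine Finset.prod_congr rfl fun i _ => ?_
  by_cases h1 : i ∈ S <;> by_cases h2 : i ∈ T <;>
    simp [h1, h2, Finset.mem_symmDiff, sg_mul_self]

lemma chi_sq (S : Finset ι) (x : ι → Bool) : chi S x * chi S x = 1 := by
  rw [chi_mul]; simp

lemma sum_chi (S : Finset ι) :
    ∑ x : ι → Bool, chi S x = if S = ∅ then (2 : ℝ) ^ Fintype.card ι else 0 := by
  have h : ∑ x : ι → Bool, chi S x
      = ∏ i, ∑ b : Bool, (if i ∈ S then sg b else 1) := by
    rw [Finset.prod_univ_sum, Fintype.piFinset_univ]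
    exact Finset.sum_congr rfl fun x _ => chi_eq S x
  rw [h]
  by_cases hS : S = ∅
  · subst hS
    simp
  · obtain ⟨i, hi⟩ := Finset.nonempty_iff_ne_empty.mpr hS
    rw [if_neg hS]
    apply Finset.prod_eq_zero (Finset.mem_univ i)
    simp [hi, sg]

lemma sum_chi_dual (x y : ι → Bool) :
    ∑ S : Finset ι, chi S x * chi S y = if x = y then (2 : ℝ) ^ Fintype.card ι else 0 := by
  have h : ∑ S : Finset ι, chi S x * chi S y = ∏ i, (sg (x i) * sg (y i) + 1) := by
    rw [Finset.prod_add_one, Finset.powerset_univ]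
    refine Finset.sum_congr rfl fun S _ => ?_
    simp [chi, Finset.prod_mul_distrib]
  rw [h]
  by_cases hxy : x = y
  · subst hxy
    simp only [sg_mul_self, if_true]
    norm_num
  · rw [if_neg hxy]
    obtain ⟨i, hi⟩ := Function.ne_iff.mp hxy
    apply Finset.prod_eq_zero (Finset.mem_univ i)
    cases h1 : x i <;> cases h2 : y i <;> simp_all [sg]

lemma two_pow_ne : (2 : ℝ) ^ Fintype.card ι ≠ 0 := by positivity

/-- Walsh expansion. -/
lemma walsh (f : (ι → Bool) → ℝ) (x : ι → Bool) : ∑ S, fc f S * chi S x = f x := by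
  have h : ∑ S, fc f S * chi S x
      = (∑ y, f y * ∑ S : Finset ι, chi S y * chi S x) / 2 ^ Fintype.card ι := by
    simp only [fc, Finset.sum_div, Finset.mul_sum]
    simp only [div_eq_mul_inv, Finset.sum_mul]
    rw [Finset.sum_comm]
    refine Finset.sum_congr rfl fun y _ => Finset.sum_congr rfl fun S _ => ?_
    ring
  rw [h]
  simp only [sum_chi_dual]
  simp

/-- Parseval's identity. -/
lemma parseval (f : (ι → Bool) → ℝ) :
    ∑ S, fc f S ^ 2 = (∑ x, f x ^ 2) / 2 ^ Fintype.card ι := by
  have h1 : ∀ S : Finset ι, fc f S ^ 2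
      = ∑ x, f x * (fc f S * chi S x) / 2 ^ Fintype.card ι := by
    intro S
    have : ∑ x, f x * (fc f S * chi S x) / 2 ^ Fintype.card ι
        = fc f S * ((∑ x, f x * chi S x) / 2 ^ Fintype.card ι) := by
      rw [Finset.sum_div, Finset.mul_sum]
      exact Finset.sum_congr rfl fun x _ => by ring
    rw [this, pow_two]
    rfl
  simp only [h1]
  rw [Finset.sum_comm, Finset.sum_div]
  refine Finset.sum_congr rfl fun x _ => ?_
  rw [← Finset.sum_div, ← Finset.mul_sum, walsh, pow_two]

lemma fc_add (f g : (ι → Bool) → ℝ) (S : Finset ι) :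
    fc (fun x => f x + g x) S = fc f S + fc g S := by
  simp only [fc, add_mul, Finset.sum_add_distrib, add_div]

lemma fc_sub (f g : (ι → Bool) → ℝ) (S : Finset ι) :
    fc (fun x => f x - g x) S = fc f S - fc g S := by
  simp only [fc, sub_mul, Finset.sum_sub_distrib, sub_div]

lemma fc_const_mul (c : ℝ) (f : (ι → Bool) → ℝ) (S : Finset ι) :
    fc (fun x => c * f x) S = c * fc f S := by
  simp only [fc, mul_assoc, ← Finset.mul_sum, mul_div_assoc]

lemma fc_sum {κ : Type*} (s : Finset κ) (f : κ → (ι → Bool) → ℝ) (S : Finset ι) :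
    fc (fun x => ∑ k ∈ s, f k x) S = ∑ k ∈ s, fc (f k) S := by
  simp only [fc, Finset.sum_mul, ← Finset.sum_div]
  rw [Finset.sum_comm]

lemma fc_chi (T S : Finset ι) : fc (chi T) S = if S = T then 1 else 0 := by
  simp only [fc, chi_mul, sum_chi]
  by_cases h : S = T
  · subst h
    simp
  · have : symmDiff T S ≠ ∅ := by
      intro h'
      exact h (symmDiff_eq_bot.mp h').symm
    simp [h, this]

lemma fc_const (c : ℝ) (S : Finset ι) :
    fc (fun _ : ι → Bool => c) S = if S = ∅ then c else 0 := by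
  have h : fc (fun _ : ι → Bool => c) S = c * fc (chi (∅ : Finset ι)) S := by
    rw [← fc_const_mul]
    simp
  rw [h, fc_chi]
  by_cases hS : S = ∅ <;> simp [hS]

/-- The coefficients of an explicitly given expansion. -/
lemma fc_expand (c : Finset ι → ℝ) (S : Finset ι) :
    fc (fun x => ∑ T, c T * chi T x) S = c S := by
  rw [fc_sum]
  simp only [fc_const_mul]
  have : ∀ T : Finset ι, fc (fun x => chi T x) S = if S = T then 1 else 0 := fc_chi (S := S)
  simp [this]

/-- Parseval for an explicitly given expansion. -/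
lemma parseval_expand (c : Finset ι → ℝ) :
    ∑ x, (∑ T, c T * chi T x) ^ 2 = 2 ^ Fintype.card ι * ∑ T, c T ^ 2 := by
  have h := parseval (fun x => ∑ T, c T * chi T x)
  simp only [fc_expand] at h
  rw [h]
  field_simp

lemma fc_mul_chi (f : (ι → Bool) → ℝ) (T S : Finset ι) :
    fc (fun x => f x * chi T x) S = fc f (symmDiff S T) := by
  simp only [fc, mul_assoc, chi_mul]
  rw [symmDiff_comm]

lemma fc_mul (f g : (ι → Bool) → ℝ) (S : Finset ι) :
    fc (fun x => f x * g x) S = ∑ T, fc f T * fc g (symmDiff S T) := by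
  have h : (fun x => f x * g x) = fun x => ∑ T, fc f T * (g x * chi T x) := by
    funext x
    rw [← walsh f x, Finset.sum_mul]
    refine Finset.sum_congr rfl fun T _ => ?_
    ring
  rw [h, fc_sum]
  simp only [fc_const_mul, fc_mul_chi]

/-- Functions of degree at most `d`. -/
def LowDeg (d : ℕ) (f : (ι → Bool) → ℝ) : Prop := ∀ S : Finset ι, d < S.card → fc f S = 0

lemma LowDeg.mono {a b : ℕ} (hab : a ≤ b) {f : (ι → Bool) → ℝ} (h : LowDeg a f) :
    LowDeg b f := fun S hS => h S (lt_of_le_of_lt hab hS)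

lemma LowDeg.add {d : ℕ} {f g : (ι → Bool) → ℝ} (hf : LowDeg d f) (hg : LowDeg d g) :
    LowDeg d (fun x => f x + g x) := fun S hS => by rw [fc_add, hf S hS, hg S hS, add_zero]

lemma LowDeg.sub {d : ℕ} {f g : (ι → Bool) → ℝ} (hf : LowDeg d f) (hg : LowDeg d g) :
    LowDeg d (fun x => f x - g x) := fun S hS => by rw [fc_sub, hf S hS, hg S hS, sub_zero]

lemma LowDeg.const_mul {d : ℕ} (c : ℝ) {f : (ι → Bool) → ℝ} (hf : LowDeg d f) :
    LowDeg d (fun x => c * f x) := fun S hS => by rw [fc_const_mul, hf S hS, mul_zero]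

lemma LowDeg.const (d : ℕ) (c : ℝ) : LowDeg d (fun _ : ι → Bool => c) := by
  intro S hS
  rw [fc_const, if_neg]
  rintro rfl
  simp at hS

lemma LowDeg.sum {κ : Type*} {s : Finset κ} {d : ℕ} {f : κ → (ι → Bool) → ℝ}
    (h : ∀ k ∈ s, LowDeg d (f k)) : LowDeg d (fun x => ∑ k ∈ s, f k x) := by
  intro S hS
  rw [fc_sum]
  exact Finset.sum_eq_zero fun k hk => h k hk S hS

lemma card_le_symmDiff (S T : Finset ι) : S.card ≤ (symmDiff S T).card + T.card := by
  have : S ⊆ symmDiff S T ∪ T := by
    intro i hi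
    simp only [Finset.mem_union, Finset.mem_symmDiff]
    tauto
  exact (Finset.card_le_card this).trans (Finset.card_union_le _ _)

lemma card_symmDiff_le (S T : Finset ι) : (symmDiff S T).card ≤ S.card + T.card := by
  have : symmDiff S T ⊆ S ∪ T := by
    intro i hi
    simp only [Finset.mem_union, Finset.mem_symmDiff] at *
    tauto
  exact (Finset.card_le_card this).trans (Finset.card_union_le _ _)

lemma LowDeg.mul {a b : ℕ} {f g : (ι → Bool) → ℝ} (hf : LowDeg a f) (hg : LowDeg b g) :
    LowDeg (a + b) (fun x => f x * g x) := by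
  intro S hS
  rw [fc_mul]
  refine Finset.sum_eq_zero fun T _ => ?_
  by_cases hT : a < T.card
  · rw [hf T hT, zero_mul]
  · have h1 := card_le_symmDiff S T
    rw [hg _ (by omega), mul_zero]

lemma LowDeg.prod {κ : Type*} [DecidableEq κ] {s : Finset κ} {d : κ → ℕ}
    {f : κ → (ι → Bool) → ℝ} (h : ∀ k ∈ s, LowDeg (d k) (f k)) :
    LowDeg (∑ k ∈ s, d k) (fun x => ∏ k ∈ s, f k x) := by
  induction s using Finset.induction_on with
  | empty => simpa using LowDeg.const 0 1
  | insert k s hk ih =>
    simp only [Finset.prod_insert hk, Finset.sum_insert hk]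
    exact (h k (Finset.mem_insert_self _ _)).mul
      (ih fun j hj => h j (Finset.mem_insert_of_mem hj))

lemma LowDeg.pow {d : ℕ} {f : (ι → Bool) → ℝ} (h : LowDeg d f) (k : ℕ) :
    LowDeg (k * d) (fun x => f x ^ k) := by
  induction k with
  | zero => simpa using LowDeg.const 0 1
  | succ k ih =>
    simp only [pow_succ, Nat.succ_mul]
    exact ih.mul h

lemma LowDeg.chi (T : Finset ι) : LowDeg T.card (chi T) := by
  intro S hS
  rw [fc_chi, if_neg]
  rintro rfl
  omega

/-- translation -/
lemma fc_translate (f : (ι → Bool) → ℝ) (t : ι → Bool) (S : Finset ι) :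
    fc (fun y => f (fun i => xor (y i) (t i))) S = chi S t * fc f S := by
  unfold fc
  rw [← mul_div_assoc, Finset.mul_sum]
  congr 1
  refine Finset.sum_nbij' (fun y i => xor (y i) (t i)) (fun y i => xor (y i) (t i))
    (by simp) (by simp) ?_ ?_ ?_
  · intro y _
    funext i
    simp
  · intro y _
    funext i
    simp
  · intro y _
    have : LineSize.chi S (fun i => xor (y i) (t i)) = LineSize.chi S y * LineSize.chi S t := by
      simp only [LineSize.chi, sg_xor, Finset.prod_mul_distrib]
    rw [this]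
    linear_combination (-(f fun i => xor (y i) (t i)) * LineSize.chi S y) * chi_sq S t

lemma LowDeg.translate {d : ℕ} {f : (ι → Bool) → ℝ} (h : LowDeg d f) (t : ι → Bool) :
    LowDeg d (fun y => f (fun i => xor (y i) (t i))) := by
  intro S hS
  rw [fc_translate, h S hS, mul_zero]

/-- The top coefficients of an integer valued function of degree `k` are integers divided
by `2 ^ k`. -/
lemma top_int {f : (ι → Bool) → ℝ} {k : ℕ} (hf : LowDeg k f) (hZ : ∀ x, ∃ z : ℤ, f x = z)
    (S : Finset ι) (hS : S.card = k) : ∃ z : ℤ, 2 ^ k * fc f S = z := by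
  classical
  let pt : Finset ι → (ι → Bool) := fun A i => decide (i ∈ A)
  have hchi : ∀ R A : Finset ι, chi R (pt A) = ∏ i ∈ A, (if i ∈ R then (-1 : ℝ) else 1) := by
    intro R A
    have h1 : chi R (pt A) = ∏ i, (if i ∈ R ∧ i ∈ A then (-1 : ℝ) else 1) := by
      rw [chi_eq]
      refine Finset.prod_congr rfl fun i _ => ?_
      by_cases h1 : i ∈ R <;> by_cases h2 : i ∈ A <;> simp [h1, h2, sg, pt]
    have h2 : ∏ i ∈ A, (if i ∈ R then (-1 : ℝ) else 1)
        = ∏ i, (if i ∈ R ∧ i ∈ A then (-1 : ℝ) else 1) := by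
      rw [← Finset.prod_ite_mem_eq A]
      refine Finset.prod_congr rfl fun i _ => ?_
      by_cases h1 : i ∈ R <;> by_cases h2 : i ∈ A <;> simp [h1, h2]
    rw [h1, h2]
  have hsum : ∀ R : Finset ι, ∑ A ∈ S.powerset, chi R (pt A)
      = if Disjoint S R then (2 : ℝ) ^ k else 0 := by
    intro R
    simp only [hchi]
    rw [← Finset.prod_add_one]
    by_cases hd : Disjoint S R
    · rw [if_pos hd, ← hS, ← Finset.prod_const]
      refine Finset.prod_congr rfl fun i hi => ?_
      rw [if_neg (Finset.disjoint_left.mp hd hi)]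
      norm_num
    · rw [if_neg hd]
      obtain ⟨i, hi1, hi2⟩ := Finset.not_disjoint_iff.mp hd
      apply Finset.prod_eq_zero hi1
      simp [hi2]
  have key : ∑ A ∈ S.powerset, f (pt A) * chi S (pt A) = 2 ^ k * fc f S := by
    have h1 : ∀ A : Finset ι, f (pt A) * chi S (pt A)
        = ∑ T, fc f T * chi (symmDiff T S) (pt A) := by
      intro A
      rw [← walsh f (pt A), Finset.sum_mul]
      refine Finset.sum_congr rfl fun T _ => ?_
      rw [mul_assoc, chi_mul]
    simp only [h1]
    rw [Finset.sum_comm]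
    simp only [← Finset.mul_sum, hsum]
    rw [Finset.sum_eq_single S]
    · rw [if_pos (by simp), mul_comm]
    · intro T _ hTS
      by_cases hd : Disjoint S (symmDiff T S)
      · have hsub : S ⊆ T := by
          intro i hi
          by_contra hiT
          exact Finset.disjoint_left.mp hd hi (Finset.mem_symmDiff.mpr (Or.inr ⟨hi, hiT⟩))
        have hlt : k < T.card := by
          rw [← hS]
          exact Finset.card_lt_card (Finset.ssubset_iff_subset_ne.mpr ⟨hsub, Ne.symm hTS⟩)
        rw [hf T hlt, zero_mul]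
      · rw [if_neg hd, mul_zero]
    · intro h
      exact absurd (Finset.mem_univ S) h
  rw [← key]
  have hint : ∀ A : Finset ι, ∃ z : ℤ, f (pt A) * chi S (pt A) = z := by
    intro A
    obtain ⟨z, hz⟩ := hZ (pt A)
    refine ⟨z * ∏ i ∈ A, (if i ∈ S then (-1 : ℤ) else 1), ?_⟩
    rw [hz, hchi]
    push_cast
    rfl
  choose z hz using hint
  refine ⟨∑ A ∈ S.powerset, z A, ?_⟩
  push_cast
  exact Finset.sum_congr rfl fun A _ => hz A

/-- A function with values in `{0,1}` which is not of degree at most `k₀` has a large weighted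
sum of squares of high coefficients. -/
lemma one_le_of_not_lowDeg {f : (ι → Bool) → ℝ} (hZ : ∀ x, ∃ z : ℤ, f x = z) {k₀ : ℕ}
    (hf : ¬ LowDeg k₀ f) {a : ℝ} (ha : 1 ≤ a) :
    a ^ (k₀ + 1) ≤ ∑ S, (4 * a) ^ S.card * fc f S ^ 2 := by
  classical
  unfold LowDeg at hf
  push Not at hf
  obtain ⟨S₀, hS₀, hne₀⟩ := hf
  obtain ⟨S, hS, hmax⟩ := Finset.exists_max_image
    (Finset.univ.filter fun S : Finset ι => fc f S ≠ 0) Finset.card ⟨S₀, by simp [hne₀]⟩
  simp only [Finset.mem_filter, Finset.mem_univ, true_and] at hS hmax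
  have hlow : LowDeg S.card f := by
    intro T hT
    by_contra hne
    exact absurd (hmax T hne) (by omega)
  obtain ⟨z, hz⟩ := top_int hlow hZ S rfl
  have hz1 : (1 : ℝ) ≤ (2 ^ S.card * fc f S) ^ 2 := by
    rw [hz]
    have hz0 : z ≠ 0 := by
      rintro rfl
      simp only [Int.cast_zero, mul_eq_zero] at hz
      rcases hz with hz | hz
      · exact absurd hz (by positivity)
      · exact hS hz
    have : (1 : ℤ) ≤ z ^ 2 := by
      have := Int.one_le_abs hz0
      nlinarith [abs_nonneg z, sq_abs z]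
    exact_mod_cast this
  have hcard : k₀ + 1 ≤ S.card := by
    have := hmax S₀ hne₀
    omega
  have h4 : (4 * a) ^ S.card * fc f S ^ 2 = a ^ S.card * (2 ^ S.card * fc f S) ^ 2 := by
    rw [mul_pow, mul_pow, ← pow_mul, mul_comm S.card 2, pow_mul]
    norm_num [mul_comm, mul_left_comm]
  calc a ^ (k₀ + 1) ≤ a ^ S.card := pow_le_pow_right₀ ha hcard
    _ ≤ a ^ S.card * (2 ^ S.card * fc f S) ^ 2 := by
        have : 0 ≤ a ^ S.card := by positivity
        nlinarith
    _ = (4 * a) ^ S.card * fc f S ^ 2 := h4.symm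
    _ ≤ ∑ S, (4 * a) ^ S.card * fc f S ^ 2 := by
        refine Finset.single_le_sum (f := fun S : Finset ι => (4 * a) ^ S.card * fc f S ^ 2)
          (fun T _ => ?_) (Finset.mem_univ S)
        positivity

end LineSize
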