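import Pool.Agent.Work.MP_c07f0d_lc.LS.Approx
import Pool.Agent.Work.MP_c07f0d_lc.LS.Restr

/-!
# Amplification, exponentially small tails, and restrictions of small formulas
-/

set_option linter.unusedSectionVars false

namespace LineSize

open Finset

/-- The majority polynomial of degree `2 q + 1`. -/
noncomputable def maj (q : ℕ) (y : ℝ) : ℝ :=
  ∑ j ∈ (Finset.range (2 * q + 2)).filter (fun j => q < j),
    ((2 * q + 1).choose j : ℝ) * (y ^ j * (1 - y) ^ (2 * q + 1 - j))

lemma term_bound {a b : ℕ} (hab : b ≤ a) {y : ℝ} (h0 : 0 ≤ y) (h1 : y ≤ 1 / 10) :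
    y ^ a * (1 - y) ^ b ≤ (3 / 10) ^ (a + b) := by
  obtain ⟨c, rfl⟩ := Nat.exists_eq_add_of_le hab
  have e1 : y ^ (b + c) * (1 - y) ^ b = y ^ c * (y * (1 - y)) ^ b := by
    rw [pow_add, mul_pow]
    ring
  have e2 : (3 / 10 : ℝ) ^ (b + c + b) = (3 / 10) ^ c * (9 / 100) ^ b := by
    have : (9 / 100 : ℝ) = (3 / 10) ^ 2 := by norm_num
    rw [this, ← pow_mul, ← pow_add]
    congr 1
    omega
  rw [e1, e2]
  have h2 : 0 ≤ y * (1 - y) := mul_nonneg h0 (by linarith)
  exact mul_le_mul (pow_le_pow_left₀ h0 (by linarith) _)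
    (pow_le_pow_left₀ h2 (by nlinarith) _) (pow_nonneg h2 _) (by positivity)

lemma sum_choose_bound (s : Finset ℕ) (q : ℕ) (hs : s ⊆ Finset.range (2 * q + 2)) (t : ℕ → ℝ)
    (ht : ∀ j ∈ s, t j ≤ (3 / 10) ^ (2 * q + 1)) :
    ∑ j ∈ s, ((2 * q + 1).choose j : ℝ) * t j ≤ (3 / 5) ^ (2 * q + 1) := by
  calc ∑ j ∈ s, ((2 * q + 1).choose j : ℝ) * t j
      ≤ ∑ j ∈ s, ((2 * q + 1).choose j : ℝ) * (3 / 10) ^ (2 * q + 1) :=
        Finset.sum_le_sum fun j hj => mul_le_mul_of_nonneg_left (ht j hj) (by positivity)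
    _ ≤ ∑ j ∈ Finset.range (2 * q + 2), ((2 * q + 1).choose j : ℝ) * (3 / 10) ^ (2 * q + 1) :=
        Finset.sum_le_sum_of_subset_of_nonneg hs fun _ _ _ => by positivity
    _ = (3 / 5) ^ (2 * q + 1) := by
        rw [← Finset.sum_mul]
        have h : ∑ j ∈ Finset.range (2 * q + 2), ((2 * q + 1).choose j : ℝ) = 2 ^ (2 * q + 1) := by
          exact_mod_cast Nat.sum_range_choose (2 * q + 1)
        rw [h, ← mul_pow]
        norm_num

lemma maj_low {q : ℕ} {y : ℝ} (h0 : 0 ≤ y) (h1 : y ≤ 1 / 10) :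
    |maj q y| ≤ (3 / 5) ^ (2 * q + 1) := by
  rw [abs_of_nonneg]
  · refine sum_choose_bound _ q (Finset.filter_subset _ _) _ fun j hj => ?_
    rw [Finset.mem_filter, Finset.mem_range] at hj
    refine (term_bound (by omega) h0 h1).trans (le_of_eq ?_)
    congr 1
    omega
  · refine Finset.sum_nonneg fun j _ => ?_
    have : 0 ≤ 1 - y := by linarith
    positivity

lemma maj_high {q : ℕ} {y : ℝ} (h0 : 9 / 10 ≤ y) (h1 : y ≤ 1) :
    |1 - maj q y| ≤ (3 / 5) ^ (2 * q + 1) := by
  have hone : (1 : ℝ) = ∑ j ∈ Finset.range (2 * q + 2),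
      ((2 * q + 1).choose j : ℝ) * (y ^ j * (1 - y) ^ (2 * q + 1 - j)) := by
    have h := add_pow y (1 - y) (2 * q + 1)
    rw [add_sub_cancel, one_pow] at h
    refine h.trans (Finset.sum_congr rfl fun j _ => ?_)
    ring
  have hsplit : 1 - maj q y = ∑ j ∈ (Finset.range (2 * q + 2)).filter (fun j => ¬ q < j),
      ((2 * q + 1).choose j : ℝ) * (y ^ j * (1 - y) ^ (2 * q + 1 - j)) := by
    refine Eq.trans (congrArg (· - maj q y) hone) ?_
    unfold maj
    rw [← Finset.sum_filter_add_sum_filter_not (Finset.range (2 * q + 2)) (fun j => q < j)]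
    ring
  rw [hsplit, abs_of_nonneg]
  · refine sum_choose_bound _ q (Finset.filter_subset _ _) _ fun j hj => ?_
    rw [Finset.mem_filter, Finset.mem_range] at hj
    have h2 := term_bound (a := 2 * q + 1 - j) (b := j) (by omega) (y := 1 - y) (by linarith)
      (by linarith)
    rw [sub_sub_cancel, mul_comm] at h2
    refine h2.trans (le_of_eq ?_)
    congr 1
    omega
  · refine Finset.sum_nonneg fun j _ => ?_
    have : 0 ≤ 1 - y := by linarith
    have : 0 ≤ y := by linarith
    positivity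

variable {ι : Type} [Fintype ι] [DecidableEq ι]

lemma lowDeg_maj {D : ℕ} {g : (ι → Bool) → ℝ} (hg : LowDeg D g) (q : ℕ) :
    LowDeg ((2 * q + 1) * D) (fun x => maj q (g x)) := by
  unfold maj
  refine LowDeg.sum fun j hj => LowDeg.const_mul _ ?_
  rw [Finset.mem_filter, Finset.mem_range] at hj
  have h1 : (2 * q + 1) * D = j * D + (2 * q + 1 - j) * D := by
    rw [← add_mul]
    congr 1
    omega
  rw [h1]
  exact (hg.pow j).mul (((LowDeg.const D 1).sub hg).pow _)

/-- The tails of the Walsh expansion of a formula. -/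
lemma tail (T : Tr ι) {k : ℕ} (hk : 45 * T.leaves ≤ 2 * (k + 1) ^ 2) (q : ℕ) :
    ∑ U ∈ Finset.univ.filter (fun U : Finset ι => (2 * q + 1) * (2 * k + 1) < U.card),
      fc (fun x => bv (T.ev x)) U ^ 2 ≤ (9 / 25) ^ (2 * q + 1) := by
  obtain ⟨g, hg, h1, h0⟩ := approx T k hk
  have hlow := lowDeg_maj hg q
  set d : (ι → Bool) → ℝ := fun x => bv (T.ev x) - maj q (g x) with hd
  have hcoef : ∀ U : Finset ι, (2 * q + 1) * (2 * k + 1) < U.card →
      fc (fun x => bv (T.ev x)) U = fc d U := by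
    intro U hU
    rw [hd, fc_sub, hlow U hU, sub_zero]
  have hbound : ∀ x, d x ^ 2 ≤ (9 / 25) ^ (2 * q + 1) := by
    intro x
    have habs : |d x| ≤ (3 / 5) ^ (2 * q + 1) := by
      cases hx : T.ev x with
      | true =>
        obtain ⟨ha, hb⟩ := h1 x hx
        simp only [hd, hx, bv, if_true]
        exact maj_high ha hb
      | false =>
        obtain ⟨ha, hb⟩ := h0 x hx
        simp only [hd, hx, bv]
        simp only [Bool.false_eq_true, if_false, zero_sub, abs_neg]
        exact maj_low ha hb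
    rw [← sq_abs]
    have e : (9 / 25 : ℝ) ^ (2 * q + 1) = ((3 / 5) ^ (2 * q + 1)) ^ 2 := by
      rw [← pow_mul, mul_comm (2 * q + 1) 2, pow_mul]
      norm_num
    rw [e]
    exact pow_le_pow_left₀ (abs_nonneg _) habs 2
  calc ∑ U ∈ Finset.univ.filter (fun U : Finset ι => (2 * q + 1) * (2 * k + 1) < U.card),
        fc (fun x => bv (T.ev x)) U ^ 2
      = ∑ U ∈ Finset.univ.filter (fun U : Finset ι => (2 * q + 1) * (2 * k + 1) < U.card),
        fc d U ^ 2 := by
        refine Finset.sum_congr rfl fun U hU => ?_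
        rw [hcoef U (Finset.mem_filter.mp hU).2]
    _ ≤ ∑ U, fc d U ^ 2 :=
        Finset.sum_le_sum_of_subset_of_nonneg (Finset.subset_univ _) fun _ _ _ => sq_nonneg _
    _ = (∑ x, d x ^ 2) / 2 ^ Fintype.card ι := parseval d
    _ ≤ (∑ _x : ι → Bool, (9 / 25 : ℝ) ^ (2 * q + 1)) / 2 ^ Fintype.card ι := by
        exact div_le_div_of_nonneg_right (Finset.sum_le_sum fun x _ => hbound x) (by positivity)
    _ = (9 / 25) ^ (2 * q + 1) := by
        rw [Finset.sum_const, Finset.card_univ]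
        simp

lemma theta_pow (D : ℕ) (hD : 0 < D) : (1 + 1 / (4 * (D : ℝ))) ^ D ≤ 4 / 3 := by
  have hD' : (0 : ℝ) < D := by exact_mod_cast hD
  have hD1 : (1 : ℝ) ≤ D := by exact_mod_cast hD
  set y : ℝ := 1 / (4 * (D : ℝ)) with hy
  have hy0 : 0 < y := by positivity
  have hy1 : y ≤ 1 / 4 := by
    rw [hy, div_le_div_iff₀ (by positivity) (by norm_num)]
    linarith
  have hDy : D * y = 1 / 4 := by
    rw [hy]
    field_simp
  have h1 := one_add_mul_le_pow (a := -y) (by linarith) D
  have h2 : 3 / 4 ≤ (1 - y) ^ D := by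
    have : (1 : ℝ) + D * -y = 3 / 4 := by
      rw [mul_neg, hDy]
      norm_num
    rw [this] at h1
    have e : (1 : ℝ) + -y = 1 - y := by ring
    rwa [e] at h1
  have h3 : (1 + y) ^ D * (1 - y) ^ D ≤ 1 := by
    rw [← mul_pow]
    exact pow_le_one₀ (mul_nonneg (by linarith) (by linarith)) (by nlinarith)
  have h4 : 0 < (1 + y) ^ D := by positivity
  nlinarith

/-- The exponential moment of the Walsh spectrum of a formula. -/
lemma moment (T : Tr ι) {k : ℕ} (hk : 45 * T.leaves ≤ 2 * (k + 1) ^ 2) :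
    ∑ U : Finset ι, (1 + 1 / (4 * ((2 * k + 1 : ℕ) : ℝ))) ^ U.card *
      fc (fun x => bv (T.ev x)) U ^ 2 ≤ 3 := by
  classical
  set D := 2 * k + 1 with hD
  have hD0 : 0 < D := by omega
  set θ : ℝ := 1 + 1 / (4 * (D : ℝ)) with hθ
  have hθ1 : 1 ≤ θ := by
    have : (0 : ℝ) ≤ 1 / (4 * (D : ℝ)) := by positivity
    linarith
  have hθD : θ ^ D ≤ 4 / 3 := theta_pow D hD0
  set N := Fintype.card ι with hN
  set F : Finset ι → ℝ := fun U => fc (fun x => bv (T.ev x)) U ^ 2 with hF
  have hpt : ∀ U : Finset ι, θ ^ U.card ≤ 4 / 3 * (1 + ∑ q ∈ Finset.range N,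
      if (2 * q + 1) * D < U.card then (16 / 9 : ℝ) ^ (q + 1) else 0) := by
    intro U
    have hex : ∃ c, U.card ≤ (2 * c + 1) * D := ⟨U.card, by nlinarith⟩
    have hc := Nat.find_spec hex
    have hmin := fun c (h : c < Nat.find hex) => Nat.find_min hex h
    set c := Nat.find hex with hcdef
    have hle : θ ^ U.card ≤ 4 / 3 * (16 / 9 : ℝ) ^ c := by
      calc θ ^ U.card ≤ θ ^ ((2 * c + 1) * D) := pow_le_pow_right₀ hθ1 hc
        _ = (θ ^ D) ^ (2 * c + 1) := by rw [← pow_mul, mul_comm]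
        _ ≤ (4 / 3) ^ (2 * c + 1) := pow_le_pow_left₀ (by positivity) hθD _
        _ = 4 / 3 * (16 / 9 : ℝ) ^ c := by
          rw [pow_succ, pow_mul]
          norm_num [mul_comm]
    refine hle.trans (mul_le_mul_of_nonneg_left ?_ (by norm_num))
    rcases Nat.eq_zero_or_pos c with h0 | hpos
    · rw [h0, pow_zero]
      have : 0 ≤ ∑ q ∈ Finset.range N, if (2 * q + 1) * D < U.card then
          (16 / 9 : ℝ) ^ (q + 1) else 0 := by
        refine Finset.sum_nonneg fun q _ => ?_
        split_ifs <;> positivity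
      linarith
    · have h1 := hmin (c - 1) (by omega)
      push Not at h1
      have hcN : c - 1 < N := by
        have h2 : U.card ≤ N := Finset.card_le_univ U
        have h3 : c - 1 ≤ (2 * (c - 1) + 1) * D := by nlinarith
        omega
      have h4 : (16 / 9 : ℝ) ^ c ≤ ∑ q ∈ Finset.range N, if (2 * q + 1) * D < U.card then
          (16 / 9 : ℝ) ^ (q + 1) else 0 := by
        have h5 := Finset.single_le_sum (f := fun q => if (2 * q + 1) * D < U.card then
          (16 / 9 : ℝ) ^ (q + 1) else 0) (fun q _ => by split_ifs <;> positivity)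
          (Finset.mem_range.mpr hcN)
        simp only [h1, if_true] at h5
        rwa [Nat.sub_add_cancel hpos] at h5
      linarith
  have hpars : ∑ U, F U ≤ 1 := by
    rw [hF, parseval, div_le_one (by positivity)]
    calc ∑ x, bv (T.ev x) ^ 2 ≤ ∑ _x : ι → Bool, (1 : ℝ) := by
          refine Finset.sum_le_sum fun x _ => ?_
          cases T.ev x <;> simp [bv]
      _ = 2 ^ Fintype.card ι := by simp
  have hF0 : ∀ U, 0 ≤ F U := fun U => sq_nonneg _
  calc ∑ U : Finset ι, θ ^ U.card * F U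
      ≤ ∑ U : Finset ι, (4 / 3 * (1 + ∑ q ∈ Finset.range N,
        if (2 * q + 1) * D < U.card then (16 / 9 : ℝ) ^ (q + 1) else 0)) * F U :=
        Finset.sum_le_sum fun U _ => mul_le_mul_of_nonneg_right (hpt U) (hF0 U)
    _ = 4 / 3 * (∑ U, F U + ∑ q ∈ Finset.range N, (16 / 9 : ℝ) ^ (q + 1) *
        ∑ U ∈ Finset.univ.filter (fun U : Finset ι => (2 * q + 1) * D < U.card), F U) := by
        have h1 : ∀ U : Finset ι, (4 / 3 * (1 + ∑ q ∈ Finset.range N,
          if (2 * q + 1) * D < U.card then (16 / 9 : ℝ) ^ (q + 1) else 0)) * F U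
          = 4 / 3 * F U + 4 / 3 * ∑ q ∈ Finset.range N,
            if (2 * q + 1) * D < U.card then (16 / 9 : ℝ) ^ (q + 1) * F U else 0 := by
          intro U
          have h2 : ∑ q ∈ Finset.range N,
            (if (2 * q + 1) * D < U.card then (16 / 9 : ℝ) ^ (q + 1) * F U else 0)
            = (∑ q ∈ Finset.range N,
            if (2 * q + 1) * D < U.card then (16 / 9 : ℝ) ^ (q + 1) else 0) * F U := by
            rw [Finset.sum_mul]
            refine Finset.sum_congr rfl fun q _ => ?_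
            split_ifs <;> ring
          rw [h2]
          ring
        simp only [h1, Finset.sum_add_distrib, ← Finset.mul_sum]
        rw [Finset.sum_comm, mul_add]
        congr 2
        refine Finset.sum_congr rfl fun q _ => ?_
        rw [Finset.sum_filter, Finset.mul_sum]
        refine Finset.sum_congr rfl fun U _ => ?_
        split_ifs <;> ring
    _ ≤ 4 / 3 * (1 + ∑ q ∈ Finset.range N, (16 / 9 : ℝ) ^ (q + 1) * (9 / 25) ^ (2 * q + 1)) := by
        refine mul_le_mul_of_nonneg_left (add_le_add hpars ?_) (by norm_num)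
        exact Finset.sum_le_sum fun q _ => mul_le_mul_of_nonneg_left (tail T hk q) (by positivity)
    _ = 4 / 3 * (1 + 16 / 25 * ∑ q ∈ Finset.range N, (144 / 625 : ℝ) ^ q) := by
        congr 2
        rw [Finset.mul_sum]
        refine Finset.sum_congr rfl fun q _ => ?_
        have e : (144 / 625 : ℝ) = 16 / 9 * (9 / 25) ^ 2 := by norm_num
        rw [e, mul_pow, ← pow_mul, pow_succ, pow_succ]
        ring
    _ ≤ 3 := by
        have h1 := geom_sum_mul_neg (144 / 625 : ℝ) N
        have h2 : (0 : ℝ) ≤ (144 / 625) ^ N := by positivity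
        nlinarith

/-- Few restrictions leave a small formula with high degree. -/
theorem bad_restrictions {E : Type} [Fintype E] [DecidableEq E] {J : ℕ} (T : Tr (E × Fin J))
    {k : ℕ} (hk : 45 * T.leaves ≤ 2 * (k + 1) ^ 2) (hJ : 28 * (2 * k + 1) ≤ J) (k₀ : ℕ)
    [DecidablePred fun p : (E → Fin J) × (E × Fin J → Bool) =>
      ¬ LowDeg k₀ (fun y => bv (T.ev (res p.1 p.2 y)))] :
    (Finset.univ.filter fun p : (E → Fin J) × (E × Fin J → Bool) =>
      ¬ LowDeg k₀ (fun y => bv (T.ev (res p.1 p.2 y)))).card * 2 ^ (k₀ + 1)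
      ≤ 3 * (J ^ Fintype.card E * 2 ^ Fintype.card (E × Fin J)) := by
  have hJ0 : 0 < J := by omega
  have h := card_bad (fun x => bv (T.ev x)) (fun x => bv_int _) hJ0 (a := 2)
    (moment T hk) (by norm_num) (by
      have hJ' : (28 : ℝ) * ((2 * k + 1 : ℕ) : ℝ) ≤ J := by exact_mod_cast hJ
      have hk' : (0 : ℝ) < ((2 * k + 1 : ℕ) : ℝ) := by positivity
      have hJ0' : (0 : ℝ) < J := by exact_mod_cast hJ0
      have : (4 * 2 - 1 : ℝ) / J ≤ 1 / (4 * ((2 * k + 1 : ℕ) : ℝ)) := by
        rw [div_le_div_iff₀ hJ0' (by positivity)]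
        linarith
      linarith) k₀
  exact_mod_cast h

/-- A simultaneous good restriction for many small formulas. -/
theorem exists_good {E : Type} [Fintype E] [DecidableEq E] {J : ℕ}
    (Ps : List (Tr (E × Fin J))) {k : ℕ} (hk : ∀ P ∈ Ps, 45 * P.leaves ≤ 2 * (k + 1) ^ 2)
    (hJ : 28 * (2 * k + 1) ≤ J) (k₀ : ℕ) (hlen : 3 * Ps.length < 2 ^ (k₀ + 1)) :
    ∃ (σ : E → Fin J) (z : E × Fin J → Bool), ∀ P ∈ Ps,
      LowDeg k₀ (fun y => bv (P.ev (rho σ z y))) := by
  classical
  have hJ0 : 0 < J := by omega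
  set tot := J ^ Fintype.card E * 2 ^ Fintype.card (E × Fin J) with htot
  have htot0 : 0 < tot := by positivity
  have htot' : Fintype.card ((E → Fin J) × (E × Fin J → Bool)) = tot := by
    rw [Fintype.card_prod, Fintype.card_fun, Fintype.card_fun, Fintype.card_fin, Fintype.card_bool]
  by_contra hcon
  push Not at hcon
  let bad : Tr (E × Fin J) → Finset ((E → Fin J) × (E × Fin J → Bool)) := fun P =>
    Finset.univ.filter fun p => ¬ LowDeg k₀ (fun y => bv (P.ev (res p.1 p.2 y)))
  have hcover : ∀ p : (E → Fin J) × (E × Fin J → Bool), ∃ P ∈ Ps, p ∈ bad P := by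
    intro p
    obtain ⟨P, hP, hbad⟩ := hcon p.1 p.2
    refine ⟨P, hP, ?_⟩
    simp only [bad, Finset.mem_filter, Finset.mem_univ, true_and]
    intro h
    exact hbad (lowDeg_rho (fun x => bv (P.ev x)) p.1 p.2 h)
  have hsum : ∀ Qs : List (Tr (E × Fin J)), (∀ P ∈ Qs, P ∈ Ps) →
      (Finset.univ.filter fun p : (E → Fin J) × (E × Fin J → Bool) =>
        ∃ P ∈ Qs, p ∈ bad P).card * 2 ^ (k₀ + 1) ≤ Qs.length * (3 * tot) := by
    intro Qs
    induction Qs with
    | nil =>
      intro _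
      simp
    | cons P Qs ih =>
      intro hQ
      have h1 := ih fun R hR => hQ R (List.mem_cons_of_mem _ hR)
      have h2 := bad_restrictions P (hk P (hQ P List.mem_cons_self)) hJ k₀
      have h3 : (Finset.univ.filter fun p : (E → Fin J) × (E × Fin J → Bool) =>
          ∃ R ∈ P :: Qs, p ∈ bad R).card ≤ (bad P).card +
          (Finset.univ.filter fun p : (E → Fin J) × (E × Fin J → Bool) =>
          ∃ R ∈ Qs, p ∈ bad R).card := by
        refine (Finset.card_le_card ?_).trans (Finset.card_union_le _ _)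
        intro p hp
        simp only [Finset.mem_filter, Finset.mem_univ, true_and, List.mem_cons] at hp
        obtain ⟨R, hR | hR, hpR⟩ := hp
        · subst hR
          exact Finset.mem_union_left _ hpR
        · refine Finset.mem_union_right _ ?_
          simp only [Finset.mem_filter, Finset.mem_univ, true_and]
          exact ⟨R, hR, hpR⟩
      rw [List.length_cons]
      calc _ ≤ ((bad P).card +
          (Finset.univ.filter fun p : (E → Fin J) × (E × Fin J → Bool) =>
          ∃ R ∈ Qs, p ∈ bad R).card) * 2 ^ (k₀ + 1) := Nat.mul_le_mul_right _ h3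
        _ = (bad P).card * 2 ^ (k₀ + 1) +
          (Finset.univ.filter fun p : (E → Fin J) × (E × Fin J → Bool) =>
          ∃ R ∈ Qs, p ∈ bad R).card * 2 ^ (k₀ + 1) := by ring
        _ ≤ 3 * tot + Qs.length * (3 * tot) := Nat.add_le_add h2 h1
        _ = (Qs.length + 1) * (3 * tot) := by ring
  have h4 := hsum Ps fun _ h => h
  have h5 : (Finset.univ.filter fun p : (E → Fin J) × (E × Fin J → Bool) =>
        ∃ P ∈ Ps, p ∈ bad P) = Finset.univ := by
    ext p
    simp only [Finset.mem_filter, Finset.mem_univ, true_and, iff_true]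
    exact hcover p
  rw [h5, Finset.card_univ, htot'] at h4
  have h6 : Ps.length * (3 * tot) = (3 * Ps.length) * tot := by ring
  rw [h6, mul_comm tot] at h4
  have h7 := Nat.le_of_mul_le_mul_right h4 htot0
  omega

end LineSize
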