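import Pool.Agent.Work.MP_c07f0d_lc.LS.Cheb

/-!
# Two projections
-/

set_option linter.unusedSectionVars false

namespace LineSize

open Polynomial

variable {H : Type} [NormedAddCommGroup H] [InnerProductSpace ℝ H] [FiniteDimensional ℝ H]
  {P Q : H →ₗ[ℝ] H}

lemma proj_inner (hPs : P.IsSymmetric) (hP : P * P = P) (v : H) :
    inner ℝ (P v) v = inner ℝ (P v) (P v) := by
  have h : P (P v) = P v := by
    rw [← Module.End.mul_apply, hP]
  conv_rhs => rw [hPs (v) (P v), h]
  rw [real_inner_comm]

lemma proj_le (hPs : P.IsSymmetric) (hP : P * P = P) (v : H) :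
    inner ℝ (P v) (P v) ≤ inner ℝ v v := by
  have h1 := real_inner_self_nonneg (x := v - P v)
  rw [inner_sub_left, inner_sub_right, inner_sub_right, real_inner_comm (P v) v,
    proj_inner hPs hP] at h1
  linarith

lemma pqp_symm (hPs : P.IsSymmetric) (hQs : Q.IsSymmetric) : (P * Q * P).IsSymmetric := by
  intro v w
  simp only [Module.End.mul_apply]
  rw [hPs, hQs, hPs]

lemma pqp_inner (hPs : P.IsSymmetric) (hQs : Q.IsSymmetric) (hQ : Q * Q = Q) (v : H) :
    inner ℝ ((P * Q * P) v) v = inner ℝ (Q (P v)) (Q (P v)) := by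
  simp only [Module.End.mul_apply]
  rw [hPs, proj_inner hQs hQ]

lemma pqp_nonneg (hPs : P.IsSymmetric) (hQs : Q.IsSymmetric) (hQ : Q * Q = Q) (v : H) :
    0 ≤ inner ℝ ((P * Q * P) v) v := by
  rw [pqp_inner hPs hQs hQ]
  exact real_inner_self_nonneg

lemma pqp_le (hPs : P.IsSymmetric) (hP : P * P = P) (hQs : Q.IsSymmetric) (hQ : Q * Q = Q)
    (v : H) : inner ℝ ((P * Q * P) v) v ≤ inner ℝ v v := by
  rw [pqp_inner hPs hQs hQ]
  exact (proj_le hQs hQ _).trans (proj_le hPs hP _)

/-- The approximating value. -/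
noncomputable def val (P Q : H →ₗ[ℝ] H) (e : H) (k : ℕ) : ℝ :=
  inner ℝ (aeval (P * Q * P) (damp k) (P e)) (P e)

lemma val_nonneg (hPs : P.IsSymmetric) (hP : P * P = P) (hQs : Q.IsSymmetric) (hQ : Q * Q = Q)
    (e : H) (k : ℕ) : 0 ≤ val P Q e k :=
  op_nonneg (pqp_symm hPs hQs) (pqp_nonneg hPs hQs hQ) (pqp_le hPs hP hQs hQ)
    (fun _ hx => damp_nonneg k hx) _

lemma val_le_one (hPs : P.IsSymmetric) (hP : P * P = P) (hQs : Q.IsSymmetric) (hQ : Q * Q = Q)
    (e : H) (he : inner ℝ e e ≤ (1 : ℝ)) (k : ℕ) : val P Q e k ≤ 1 := by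
  have h := op_le (pqp_symm hPs hQs) (pqp_nonneg hPs hQs hQ) (pqp_le hPs hP hQs hQ)
    (fun _ hx => damp_le_one k hx) (P e)
  have h2 := proj_le hPs hP e
  unfold val
  linarith

lemma val_pos (hPs : P.IsSymmetric) (hP : P * P = P) (hQs : Q.IsSymmetric) (hQ : Q * Q = Q)
    (e u : H) (k : ℕ) (hPu : P u = u) (hQu : Q u = 0) (heu : inner ℝ e u = (1 : ℝ))
    (huu : inner ℝ u u ≤ (10 / 9 : ℝ)) : 9 / 10 ≤ val P Q e k := by
  set T := P * Q * P with hT
  have hTu : T u = 0 := by
    simp only [hT, Module.End.mul_apply, hPu, hQu, map_zero]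
  have hgu : aeval T (damp k) u = u := by
    have h1 : aeval T (damp k) u = ((damp k).eval 0) • u :=
      Module.End.aeval_apply_of_mem_apply_eq_smul (by rw [hTu, zero_smul])
    rw [h1, damp_zero, one_smul]
  have hau : inner ℝ (P e) u = (1 : ℝ) := by
    rw [hPs, hPu, heu]
  have hupos : 0 < inner ℝ u u := by
    rcases eq_or_lt_of_le (real_inner_self_nonneg (x := u)) with h | h
    · have : u = 0 := by
        rw [← inner_self_eq_zero (𝕜 := ℝ)]
        exact h.symm
      rw [this, inner_zero_right] at heu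
      norm_num at heu
    · exact h
  set κ := (inner ℝ u u)⁻¹ with hκ
  have hκu : κ * inner ℝ u u = 1 := inv_mul_cancel₀ hupos.ne'
  set z := P e - κ • u with hz
  have hzu : inner ℝ z u = 0 := by
    rw [hz, inner_sub_left, real_inner_smul_left, hau, hκu, sub_self]
  have ha : P e = z + κ • u := by
    rw [hz]
    abel
  -- the component orthogonal to `u` does not interact with `u`
  have hcross : inner ℝ (aeval T (damp k) z) u = 0 := by
    have hsymm : ∀ g : ℝ[X], ∀ v w : H, inner ℝ (aeval T g v) w = inner ℝ v (aeval T g w) := by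
      intro g
      induction g using Polynomial.induction_on' with
      | add p q hp hq =>
        intro v w
        rw [map_add, LinearMap.add_apply, LinearMap.add_apply, inner_add_left, inner_add_right,
          hp, hq]
      | monomial n a =>
        intro v w
        have hn : ∀ v w : H, inner ℝ ((T ^ n) v) w = inner ℝ v ((T ^ n) w) := by
          induction n with
          | zero =>
            intro v w
            simp
          | succ n ih =>
            intro v w
            have e1 : (T ^ (n + 1)) v = T ((T ^ n) v) := by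
              rw [pow_succ', Module.End.mul_apply]
            have e2 : (T ^ (n + 1)) w = (T ^ n) (T w) := by
              rw [pow_succ, Module.End.mul_apply]
            rw [e1, e2, ← ih]
            exact pqp_symm hPs hQs _ _
        simp only [aeval_monomial, Module.End.mul_apply, Module.algebraMap_end_apply,
          real_inner_smul_left, real_inner_smul_right, hn]
    rw [hsymm, hgu, hzu]
  have hval : val P Q e k = inner ℝ (aeval T (damp k) z) z + κ := by
    unfold val
    rw [← hT, ha, map_add, map_smul, hgu]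
    simp only [inner_add_left, inner_add_right, real_inner_smul_left, real_inner_smul_right,
      hcross]
    rw [real_inner_comm z u, hzu]
    linear_combination κ * hκu
  have h0 : 0 ≤ inner ℝ (aeval T (damp k) z) z :=
    op_nonneg (pqp_symm hPs hQs) (pqp_nonneg hPs hQs hQ) (pqp_le hPs hP hQs hQ)
      (fun _ hx => damp_nonneg k hx) _
  have hκ9 : 9 / 10 ≤ κ := by
    refine le_of_mul_le_mul_right ?_ hupos
    rw [hκu]
    linarith
  rw [hval]
  linarith

lemma val_neg (hPs : P.IsSymmetric) (hP : P * P = P) (hQs : Q.IsSymmetric) (hQ : Q * Q = Q)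
    (e w : H) (k : ℕ) {c : ℝ} (hPw : P (e + w) = 0) (hQw : Q w = w) (hww : inner ℝ w w ≤ c) :
    val P Q e k ≤ c / (4 * ((k : ℝ) + 1) ^ 2) := by
  have ha : P e = - P w := by
    rw [map_add] at hPw
    exact eq_neg_of_add_eq_zero_left hPw
  have h1 : val P Q e k = inner ℝ (aeval (Q * P * Q) (X * damp k) w) w := by
    unfold val
    rw [alternating hP hQ, ha, map_neg, inner_neg_neg]
    simp only [Module.End.mul_apply, hQw]
    rw [hQs, hPs, hQw]
  rw [h1]
  have h2 := op_le (pqp_symm hQs hPs) (pqp_nonneg hQs hPs hP) (pqp_le hQs hQ hPs hP)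
    (g := X * damp k) (c := 1 / (4 * ((k : ℝ) + 1) ^ 2)) (by
      intro x hx
      rw [eval_mul, eval_X]
      exact mul_damp_le k hx) w
  refine h2.trans ?_
  rw [div_eq_mul_one_div c, mul_comm c]
  exact mul_le_mul_of_nonneg_left hww (by positivity)

end LineSize
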