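import Pool.Agent.Work.MP_c07f0d_lc.LS.Span
import Pool.Agent.Work.MP_c07f0d_lc.LS.Oper

/-!
# Formulas with `L` leaves have approximate degree `O(√L)`
-/

set_option linter.unusedSectionVars false

namespace LineSize

open Polynomial

variable {ι Λ : Type} [Fintype ι] [DecidableEq ι] [Fintype Λ] [DecidableEq Λ]

/-- The indicator of the false leaves. -/
def qv (ℓ : Λ → Lit ι) (x : ι → Bool) : Option Λ → ℝ
  | none => 0
  | some l => 1 - bv ((ℓ l).ev x)

lemma qv_sq (ℓ : Λ → Lit ι) (x : ι → Bool) (o : Option Λ) :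
    qv ℓ x o * qv ℓ x o = qv ℓ x o := by
  rcases o with _ | l
  · simp [qv]
  · cases h : (ℓ l).ev x <;> simp [qv, bv, h]

/-- The diagonal projection onto the false leaves. -/
noncomputable def Qx (ℓ : Λ → Lit ι) (x : ι → Bool) :
    EuclideanSpace ℝ (Option Λ) →ₗ[ℝ] EuclideanSpace ℝ (Option Λ) where
  toFun v := WithLp.toLp 2 fun o => qv ℓ x o * v o
  map_add' v w := by
    ext o
    simp [mul_add]
  map_smul' r v := by
    ext o
    simp [mul_left_comm]

lemma Qx_apply (ℓ : Λ → Lit ι) (x : ι → Bool) (v : EuclideanSpace ℝ (Option Λ)) (o : Option Λ) :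
    Qx ℓ x v o = qv ℓ x o * v o := rfl

lemma inner_eq (v w : EuclideanSpace ℝ (Option Λ)) : inner ℝ v w = ∑ o, v o * w o := by
  rw [PiLp.inner_apply]
  refine Finset.sum_congr rfl fun o _ => ?_
  simp [mul_comm]

lemma Qx_symm (ℓ : Λ → Lit ι) (x : ι → Bool) : (Qx ℓ x).IsSymmetric := by
  intro v w
  rw [inner_eq, inner_eq]
  refine Finset.sum_congr rfl fun o _ => ?_
  rw [Qx_apply, Qx_apply]
  ring

lemma Qx_idem (ℓ : Λ → Lit ι) (x : ι → Bool) : Qx ℓ x * Qx ℓ x = Qx ℓ x := by
  ext v o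
  rw [Module.End.mul_apply, Qx_apply, Qx_apply, ← mul_assoc, qv_sq]

lemma lowDeg_qv (ℓ : Λ → Lit ι) (o : Option Λ) : LowDeg 1 (fun x => qv ℓ x o) := by
  rcases o with _ | l
  · exact LowDeg.const (ι := ι) 1 0
  · exact (LowDeg.const (ι := ι) 1 1).sub (lowDeg_lit (ℓ l))

lemma lowDeg_linear {d : ℕ} (P : EuclideanSpace ℝ (Option Λ) →ₗ[ℝ] EuclideanSpace ℝ (Option Λ))
    (w : (ι → Bool) → EuclideanSpace ℝ (Option Λ)) (hw : ∀ o, LowDeg d (fun x => w x o))
    (o : Option Λ) : LowDeg d (fun x => P (w x) o) := by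
  have h : (fun x => P (w x) o)
      = fun x => ∑ o', (P (EuclideanSpace.single o' (1 : ℝ)) o) * w x o' := by
    funext x
    have h1 : w x = ∑ o', (w x o') • EuclideanSpace.single o' (1 : ℝ) := by
      ext j
      rcases j with _ | j <;> simp [Finset.sum_apply, Pi.single_apply]
    conv_lhs => rw [h1]
    rw [map_sum]
    simp [mul_comm]
  rw [h]
  exact LowDeg.sum fun o' _ => (hw o').const_mul _

lemma lowDeg_pow (P : EuclideanSpace ℝ (Option Λ) →ₗ[ℝ] EuclideanSpace ℝ (Option Λ))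
    (ℓ : Λ → Lit ι) (v : EuclideanSpace ℝ (Option Λ)) (n : ℕ) :
    ∀ o, LowDeg n (fun x => ((P * Qx ℓ x * P) ^ n) v o) := by
  induction n with
  | zero =>
    intro o
    simp only [pow_zero, Module.End.one_apply]
    exact LowDeg.const 0 _
  | succ n ih =>
    intro o
    have h : (fun x => ((P * Qx ℓ x * P) ^ (n + 1)) v o)
        = fun x => P (Qx ℓ x (P (((P * Qx ℓ x * P) ^ n) v))) o := by
      funext x
      rw [pow_succ']
      simp only [Module.End.mul_apply]
    rw [h]
    refine lowDeg_linear P _ (fun o' => ?_) o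
    simp only [Qx_apply]
    rw [add_comm n 1]
    exact (lowDeg_qv ℓ o').mul (lowDeg_linear P _ ih o')

lemma lowDeg_val (P : EuclideanSpace ℝ (Option Λ) →ₗ[ℝ] EuclideanSpace ℝ (Option Λ))
    (ℓ : Λ → Lit ι) (e : EuclideanSpace ℝ (Option Λ)) (k : ℕ) :
    LowDeg (2 * k + 1) (fun x => val P (Qx ℓ x) e k) := by
  have h : (fun x => val P (Qx ℓ x) e k)
      = fun x => ∑ i ∈ Finset.range (2 * k + 1 + 1), ∑ o,
        ((damp k).coeff i * (P e) o) * ((P * Qx ℓ x * P) ^ i) (P e) o := by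
    funext x
    unfold val
    rw [aeval_eq_sum_range' (Nat.lt_succ_of_le (natDegree_damp k)), LinearMap.sum_apply, sum_inner]
    refine Finset.sum_congr rfl fun i _ => ?_
    rw [LinearMap.smul_apply, real_inner_smul_left, inner_eq, Finset.mul_sum]
    refine Finset.sum_congr rfl fun o _ => ?_
    ring
  rw [h]
  refine LowDeg.sum fun i hi => LowDeg.sum fun o _ => LowDeg.const_mul _ ?_
  exact (lowDeg_pow P ℓ (P e) i o).mono (by
    have := Finset.mem_range.mp hi
    omega)

/-- A formula with `L` leaves is approximated by a function of degree `2 k + 1` as soon as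
`45 L ≤ 2 (k + 1)²`. -/
theorem approx (T : Tr ι) (k : ℕ) (hk : 45 * T.leaves ≤ 2 * (k + 1) ^ 2) :
    ∃ g : (ι → Bool) → ℝ, LowDeg (2 * k + 1) g ∧
      (∀ x, T.ev x = true → 9 / 10 ≤ g x ∧ g x ≤ 1) ∧
      (∀ x, T.ev x = false → 0 ≤ g x ∧ g x ≤ 1 / 10) := by
  obtain ⟨Λ, _, _, ℓ, A, B, ho, hpos, hneg⟩ := span_program T (1 / 9) (by norm_num)
  let A' : Submodule ℝ (EuclideanSpace ℝ (Option Λ)) :=
    A.comap (WithLp.linearEquiv 2 ℝ (Option Λ → ℝ)).toLinearMap
  let P : EuclideanSpace ℝ (Option Λ) →ₗ[ℝ] EuclideanSpace ℝ (Option Λ) :=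
    (A'.starProjection : EuclideanSpace ℝ (Option Λ) →ₗ[ℝ] EuclideanSpace ℝ (Option Λ))
  have hPs : P.IsSymmetric := A'.starProjection_isSymmetric
  have hPmem : ∀ v ∈ A', P v = v := fun v hv => Submodule.starProjection_eq_self_iff.mpr hv
  have hP : P * P = P := by
    apply LinearMap.ext
    intro v
    rw [Module.End.mul_apply]
    exact hPmem _ (Submodule.starProjection_apply_mem A' v)
  let e : EuclideanSpace ℝ (Option Λ) := EuclideanSpace.single none 1
  have he : ∀ o, e o = if o = none then (1 : ℝ) else 0 := by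
    intro o
    simp [e]
  have hee : inner ℝ e e ≤ (1 : ℝ) := by
    rw [inner_eq]
    simp [he]
  refine ⟨fun x => val P (Qx ℓ x) e k, lowDeg_val P ℓ e k, ?_, ?_⟩
  · intro x hx
    obtain ⟨u, hu, h0, h1, h2⟩ := hpos x hx
    refine ⟨?_, val_le_one hPs hP (Qx_symm ℓ x) (Qx_idem ℓ x) e hee k⟩
    refine val_pos hPs hP (Qx_symm ℓ x) (Qx_idem ℓ x) e (WithLp.toLp 2 u) k ?_ ?_ ?_ ?_
    · exact hPmem _ hu
    · ext o
      rw [Qx_apply]
      rcases o with _ | l
      · simp [qv]
      · cases hl : (ℓ l).ev x with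
        | true => simp [qv, bv, hl]
        | false => simp [h1 l hl]
    · rw [inner_eq]
      simp [he, h0]
    · rw [inner_eq, Fintype.sum_option]
      simp only [h0]
      simp only [pow_two] at h2
      linarith
  · intro x hx
    obtain ⟨w, hw, h0, h1, h2⟩ := hneg x hx
    refine ⟨val_nonneg hPs hP (Qx_symm ℓ x) (Qx_idem ℓ x) e k, ?_⟩
    have hsum : e + Qx ℓ x (WithLp.toLp 2 w) = WithLp.toLp 2 w := by
      ext o
      have e1 : (e + Qx ℓ x (WithLp.toLp 2 w)) o = e o + qv ℓ x o * w o := rfl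
      rw [e1, he]
      rcases o with _ | l
      · simp [qv, h0]
      · cases hl : (ℓ l).ev x with
        | true => simp [h1 l hl]
        | false => simp [qv, bv, hl]
    have hPw : P (WithLp.toLp 2 w) = 0 := by
      have : WithLp.toLp 2 w ∈ A'ᗮ := by
        rw [Submodule.mem_orthogonal]
        intro v hv
        rw [inner_eq]
        exact ho _ hv _ hw
      exact (A'.starProjection_apply_eq_zero_iff).mpr this
    have h3 := val_neg hPs hP (Qx_symm ℓ x) (Qx_idem ℓ x) e (Qx ℓ x (WithLp.toLp 2 w)) k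
      (c := 9 * T.leaves) (by rw [hsum, hPw]) (by
        rw [← Module.End.mul_apply, Qx_idem]) (by
        rw [inner_eq, Fintype.sum_option]
        have e2 : ∀ l : Λ, Qx ℓ x (WithLp.toLp 2 w) (some l) * Qx ℓ x (WithLp.toLp 2 w) (some l)
            ≤ w (some l) ^ 2 := by
          intro l
          rw [Qx_apply]
          cases hl : (ℓ l).ev x
          · simp [qv, bv, hl, pow_two]
          · simp [qv, bv, hl]
            positivity
        have e3 : Qx ℓ x (WithLp.toLp 2 w) none = 0 := by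
          rw [Qx_apply]
          simp [qv]
        rw [e3]
        have e4 := Finset.sum_le_sum fun l (_ : l ∈ Finset.univ) => e2 l
        have e5 : (T.leaves : ℝ) / (1 / 9) = 9 * T.leaves := by ring
        rw [e5] at h2
        linarith)
    refine h3.trans ?_
    rw [div_le_iff₀ (by positivity)]
    have h4 : (45 : ℝ) * T.leaves ≤ 2 * ((k : ℝ) + 1) ^ 2 := by exact_mod_cast hk
    linarith

end LineSize
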