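import Mathlib

/-!
# The damping polynomial and functions of symmetric operators
-/

set_option linter.unusedSectionVars false

namespace LineSize

open Polynomial Real

/-- `(1 - X) (U_k (1 - 2X) / (k + 1))²`. -/
noncomputable def damp (k : ℕ) : ℝ[X] :=
  (1 - X) * (C (1 / ((k : ℝ) + 1)) * (Polynomial.Chebyshev.U ℝ (k : ℤ)).comp (1 - C 2 * X)) ^ 2

lemma damp_eval (k : ℕ) (x : ℝ) :
    (damp k).eval x = (1 - x) *
      (1 / ((k : ℝ) + 1) * (Polynomial.Chebyshev.U ℝ (k : ℤ)).eval (1 - 2 * x)) ^ 2 := by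
  simp [damp, Polynomial.eval_comp]

lemma damp_zero (k : ℕ) : (damp k).eval 0 = 1 := by
  have h1 : (Polynomial.Chebyshev.U ℝ (k : ℤ)).eval (1 - 2 * 0) = (k : ℝ) + 1 := by
    rw [mul_zero, sub_zero, Polynomial.Chebyshev.U_eval_one]
    simp
  rw [damp_eval, h1]
  have h : (k : ℝ) + 1 ≠ 0 := by positivity
  rw [one_div, inv_mul_cancel₀ h]
  norm_num

lemma abs_U_le (k : ℕ) {x : ℝ} (hx : |x| ≤ 1) :
    |(Polynomial.Chebyshev.U ℝ (k : ℤ)).eval x| ≤ k + 1 := by
  induction k with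
  | zero => simp
  | succ k ih =>
    have h := Polynomial.Chebyshev.U_eq_X_mul_U_add_T ℝ (k : ℤ)
    have h2 : (Polynomial.Chebyshev.U ℝ (((k + 1 : ℕ)) : ℤ)).eval x
        = x * (Polynomial.Chebyshev.U ℝ (k : ℤ)).eval x
          + (Polynomial.Chebyshev.T ℝ ((k : ℤ) + 1)).eval x := by
      push_cast
      rw [h]
      simp
    rw [h2]
    have h3 := Polynomial.Chebyshev.abs_eval_T_real_le_one ((k : ℤ) + 1) hx
    refine (abs_add_le _ _).trans ?_
    rw [abs_mul]
    push_cast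
    have h4 : |x| * |(Polynomial.Chebyshev.U ℝ (k : ℤ)).eval x| ≤ 1 * (k + 1) :=
      mul_le_mul hx ih (abs_nonneg _) zero_le_one
    linarith

lemma damp_nonneg (k : ℕ) {x : ℝ} (hx : x ∈ Set.Icc (0 : ℝ) 1) : 0 ≤ (damp k).eval x := by
  rw [damp_eval]
  exact mul_nonneg (by linarith [hx.2]) (sq_nonneg _)

lemma damp_le_one (k : ℕ) {x : ℝ} (hx : x ∈ Set.Icc (0 : ℝ) 1) : (damp k).eval x ≤ 1 := by
  rw [damp_eval]
  have hk : (0 : ℝ) < (k : ℝ) + 1 := by positivity
  have h1 : |1 - 2 * x| ≤ 1 := by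
    rw [abs_le]
    constructor <;> linarith [hx.1, hx.2]
  have h2 := abs_U_le k h1
  have h3 : (1 / ((k : ℝ) + 1) * (Polynomial.Chebyshev.U ℝ (k : ℤ)).eval (1 - 2 * x)) ^ 2 ≤ 1 := by
    rw [← sq_abs, abs_mul, abs_of_pos (by positivity : (0 : ℝ) < 1 / ((k : ℝ) + 1))]
    apply pow_le_one₀ (by positivity)
    rw [one_div, inv_mul_le_iff₀ hk]
    linarith
  have h4 := sq_nonneg (1 / ((k : ℝ) + 1) * (Polynomial.Chebyshev.U ℝ (k : ℤ)).eval (1 - 2 * x))
  nlinarith [hx.1, hx.2]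

lemma mul_damp_le (k : ℕ) {x : ℝ} (hx : x ∈ Set.Icc (0 : ℝ) 1) :
    x * (damp k).eval x ≤ 1 / (4 * ((k : ℝ) + 1) ^ 2) := by
  rw [damp_eval]
  have hk : (0 : ℝ) < (k : ℝ) + 1 := by positivity
  set θ := Real.arccos (1 - 2 * x) with hθ
  have hcos : Real.cos θ = 1 - 2 * x := Real.cos_arccos (by linarith [hx.2]) (by linarith [hx.1])
  have hU := Polynomial.Chebyshev.U_real_cos θ (k : ℤ)
  rw [hcos] at hU
  have hsin : Real.sin θ ^ 2 = 4 * x * (1 - x) := by
    have := Real.sin_sq_add_cos_sq θ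
    rw [hcos] at this
    linarith
  have h1 : 4 * x * (1 - x) * ((Polynomial.Chebyshev.U ℝ (k : ℤ)).eval (1 - 2 * x)) ^ 2 ≤ 1 := by
    rw [← hsin, ← mul_pow, mul_comm, hU]
    exact Real.sin_sq_le_one _
  have h2 : x * ((1 - x) *
      (1 / ((k : ℝ) + 1) * (Polynomial.Chebyshev.U ℝ (k : ℤ)).eval (1 - 2 * x)) ^ 2)
      = (4 * x * (1 - x) * ((Polynomial.Chebyshev.U ℝ (k : ℤ)).eval (1 - 2 * x)) ^ 2)
        / (4 * ((k : ℝ) + 1) ^ 2) := by
    field_simp
  rw [h2]
  exact div_le_div_of_nonneg_right h1 (by positivity)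

lemma natDegree_damp (k : ℕ) : (damp k).natDegree ≤ 2 * k + 1 := by
  unfold damp
  have h1 : (1 - X : ℝ[X]).natDegree ≤ 1 := by
    refine (natDegree_sub_le _ _).trans ?_
    simp
  have h2 : (1 - C 2 * X : ℝ[X]).natDegree ≤ 1 := by
    refine (natDegree_sub_le _ _).trans ?_
    simp only [natDegree_one, zero_le, sup_of_le_right]
    exact (natDegree_C_mul_le _ _).trans natDegree_X_le
  have h3 : ((Polynomial.Chebyshev.U ℝ (k : ℤ)).comp (1 - C 2 * X)).natDegree ≤ k := by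
    refine (natDegree_comp_le).trans ?_
    rw [Polynomial.Chebyshev.natDegree_U_natCast]
    calc k * (1 - C 2 * X : ℝ[X]).natDegree ≤ k * 1 := Nat.mul_le_mul_left _ h2
      _ = k := mul_one k
  have h4 : (C (1 / ((k : ℝ) + 1)) *
      (Polynomial.Chebyshev.U ℝ (k : ℤ)).comp (1 - C 2 * X)).natDegree ≤ k :=
    (natDegree_C_mul_le _ _).trans h3
  refine (natDegree_mul_le).trans ?_
  have h5 : ((C (1 / ((k : ℝ) + 1)) *
      (Polynomial.Chebyshev.U ℝ (k : ℤ)).comp (1 - C 2 * X)) ^ 2).natDegree ≤ 2 * k :=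
    (natDegree_pow_le).trans (Nat.mul_le_mul_left _ h4)
  omega

section Operator

variable {H : Type} [NormedAddCommGroup H] [InnerProductSpace ℝ H] [FiniteDimensional ℝ H]

/-- A polynomial which is nonnegative on `[0,1]`, evaluated at a symmetric operator with
spectrum in `[0,1]`. -/
lemma op_nonneg {T : H →ₗ[ℝ] H} (hT : T.IsSymmetric) (h0 : ∀ v, 0 ≤ inner ℝ (T v) v)
    (h1 : ∀ v, inner ℝ (T v) v ≤ inner ℝ v v) {g : ℝ[X]}
    (hg : ∀ x ∈ Set.Icc (0 : ℝ) 1, 0 ≤ g.eval x) (z : H) :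
    0 ≤ inner ℝ (aeval T g z) z := by
  set b := hT.eigenvectorBasis rfl with hb
  have hbi : ∀ i, inner ℝ (b i) (b i) = (1 : ℝ) := by
    intro i
    rw [real_inner_self_eq_norm_sq, b.orthonormal.1 i]
    norm_num
  have hTb : ∀ i, T (b i) = (hT.eigenvalues rfl i) • b i := fun i =>
    hT.apply_eigenvectorBasis rfl i
  have hmem : ∀ i, hT.eigenvalues rfl i ∈ Set.Icc (0 : ℝ) 1 := by
    intro i
    have e0 := h0 (b i)
    have e1 := h1 (b i)
    rw [hTb, real_inner_smul_left, hbi, mul_one] at e0 e1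
    exact ⟨e0, e1⟩
  have hgb : ∀ i, aeval T g (b i) = (g.eval (hT.eigenvalues rfl i)) • b i := fun i =>
    Module.End.aeval_apply_of_hasEigenvector (hT.hasEigenvector_eigenvectorBasis rfl i)
  have hz : z = ∑ i, (inner ℝ (b i) z) • b i := by
    conv_lhs => rw [← b.sum_repr z]
    refine Finset.sum_congr rfl fun i _ => ?_
    rw [b.repr_apply_apply]
  have hgz : aeval T g z = ∑ i, (inner ℝ (b i) z) • (g.eval (hT.eigenvalues rfl i)) • b i := by
    conv_lhs => rw [hz]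
    rw [map_sum]
    refine Finset.sum_congr rfl fun i _ => ?_
    rw [map_smul, hgb]
  rw [hgz, sum_inner]
  refine Finset.sum_nonneg fun i _ => ?_
  rw [real_inner_smul_left, real_inner_smul_left]
  have := hg _ (hmem i)
  have h2 := mul_self_nonneg (inner ℝ (b i) z)
  nlinarith [mul_nonneg this h2]

lemma op_le {T : H →ₗ[ℝ] H} (hT : T.IsSymmetric) (h0 : ∀ v, 0 ≤ inner ℝ (T v) v)
    (h1 : ∀ v, inner ℝ (T v) v ≤ inner ℝ v v) {g : ℝ[X]} {c : ℝ}
    (hg : ∀ x ∈ Set.Icc (0 : ℝ) 1, g.eval x ≤ c) (z : H) :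
    inner ℝ (aeval T g z) z ≤ c * inner ℝ z z := by
  have h := op_nonneg hT h0 h1 (g := C c - g) (by
    intro x hx
    simp only [eval_sub, eval_C]
    linarith [hg x hx]) z
  rw [map_sub, aeval_C] at h
  simp only [LinearMap.sub_apply, Module.algebraMap_end_apply, inner_sub_left,
    real_inner_smul_left] at h
  linarith

variable {P Q : H →ₗ[ℝ] H}

lemma alternating (hP : P * P = P) (hQ : Q * Q = Q) (g : ℝ[X]) :
    aeval (Q * P * Q) (X * g) = Q * P * aeval (P * Q * P) g * P * Q := by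
  induction g using Polynomial.induction_on' with
  | add p q hp hq =>
    rw [mul_add, map_add, hp, hq, map_add]
    simp only [mul_add, add_mul]
  | monomial n a =>
    have key : (Q * P * Q) ^ (n + 1) = Q * P * (P * Q * P) ^ n * P * Q := by
      induction n with
      | zero =>
        rw [pow_zero, mul_one, zero_add, pow_one, mul_assoc Q P P, hP]
      | succ n ih =>
        rw [pow_succ', ih, pow_succ' (P * Q * P) n]
        simp only [← mul_assoc]
        rw [mul_assoc (Q * P) Q Q, hQ, mul_assoc Q P P, hP]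
    rw [map_mul, aeval_X, aeval_monomial, aeval_monomial]
    have h1 : Q * P * Q * (algebraMap ℝ (Module.End ℝ H) a * (Q * P * Q) ^ n)
        = algebraMap ℝ (Module.End ℝ H) a * (Q * P * Q) ^ (n + 1) := by
      rw [← mul_assoc, ← Algebra.commutes a (Q * P * Q), mul_assoc, ← pow_succ']
    rw [h1, key]
    have h2 : ∀ A B C' D : Module.End ℝ H, A * (algebraMap ℝ (Module.End ℝ H) a * B) * C' * D
        = algebraMap ℝ (Module.End ℝ H) a * (A * B * C' * D) := by
      intro A B C' D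
      rw [← mul_assoc A, ← Algebra.commutes a A]
      simp only [mul_assoc]
    rw [h2]

end Operator

end LineSize
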