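import Pool.Agent.Work.MP_c07f0d_lc.LS.Cube
import Pool.Agent.Work.MP_c07f0d_lc.Basic

/-!
# The lower bound for the hypercube contradictions
-/

set_option linter.unusedSectionVars false

namespace LineSize

open Finset FregeEF

/-- Negation normal form (`s = false` for the negated formula). -/
def nf {α : Type} : Bool → Fm α → Tr α
  | true, .var x => .leaf (.pos x)
  | false, .var x => .leaf (.neg x)
  | s, .bot => .leaf (.cst (!s))
  | s, .neg φ => nf (!s) φ
  | true, .and φ ψ => .and (nf true φ) (nf true ψ)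
  | false, .and φ ψ => .or (nf false φ) (nf false ψ)
  | true, .or φ ψ => .or (nf true φ) (nf true ψ)
  | false, .or φ ψ => .and (nf false φ) (nf false ψ)
  | true, .imp φ ψ => .or (nf false φ) (nf true ψ)
  | false, .imp φ ψ => .and (nf true φ) (nf false ψ)

lemma nf_ev {α : Type} (x : α → Bool) (φ : Fm α) :
    ((nf true φ).ev x = true ↔ φ.eval (fun i => x i = true)) ∧
    ((nf false φ).ev x = true ↔ ¬ φ.eval (fun i => x i = true)) := by
  induction φ with
  | var i => simp [nf, Tr.ev, Lit.ev, Fm.eval]
  | bot => simp [nf, Tr.ev, Lit.ev, Fm.eval]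
  | neg φ ih =>
    simp only [nf, Bool.not_true, Bool.not_false, Fm.eval]
    exact ⟨ih.2, by rw [ih.1, not_not]⟩
  | and φ ψ ih1 ih2 =>
    simp only [nf, Tr.ev, Fm.eval, Bool.and_eq_true, Bool.or_eq_true, ih1.1, ih1.2, ih2.1, ih2.2]
    tauto
  | or φ ψ ih1 ih2 =>
    simp only [nf, Tr.ev, Fm.eval, Bool.and_eq_true, Bool.or_eq_true, ih1.1, ih1.2, ih2.1, ih2.2]
    tauto
  | imp φ ψ ih1 ih2 =>
    simp only [nf, Tr.ev, Fm.eval, Bool.and_eq_true, Bool.or_eq_true, ih1.1, ih1.2, ih2.1, ih2.2]
    tauto

lemma nf_leaves {α : Type} (φ : Fm α) : ∀ s, (nf s φ).leaves ≤ φ.size := by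
  induction φ with
  | var i => intro s; cases s <;> simp [nf, Tr.leaves, Fm.size]
  | bot => intro s; cases s <;> simp [nf, Tr.leaves, Fm.size]
  | neg φ ih =>
    intro s
    have h := ih (!s)
    cases s <;> simp only [nf, Fm.size] <;> simp only [Bool.not_true, Bool.not_false] at h ⊢ <;> omega
  | and φ ψ ih1 ih2 =>
    intro s
    have h1 := ih1 true
    have h2 := ih2 true
    have h3 := ih1 false
    have h4 := ih2 false
    cases s <;> simp only [nf, Tr.leaves, Fm.size] <;> omega
  | or φ ψ ih1 ih2 =>
    intro s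
    have h1 := ih1 true
    have h2 := ih2 true
    have h3 := ih1 false
    have h4 := ih2 false
    cases s <;> simp only [nf, Tr.leaves, Fm.size] <;> omega
  | imp φ ψ ih1 ih2 =>
    intro s
    have h1 := ih1 true
    have h2 := ih2 true
    have h3 := ih1 false
    have h4 := ih2 false
    cases s <;> simp only [nf, Tr.leaves, Fm.size] <;> omega

section Parity

open Classical in
/-- The sign of a formula. -/
noncomputable def sv {α : Type} (x : α → Bool) (φ : Fm α) : ℝ :=
  if φ.eval (fun i => x i = true) then -1 else 1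

variable {α : Type} (x : α → Bool)

lemma sv_xor2 (φ ψ : Fm α) : sv x (xor2 φ ψ) = sv x φ * sv x ψ := by
  unfold sv xor2
  simp only [Fm.eval]
  by_cases h1 : φ.eval (fun i => x i = true) <;> by_cases h2 : ψ.eval (fun i => x i = true) <;>
    simp [h1, h2]

lemma sv_var (i : α) : sv x (Fm.var i) = sg (x i) := by
  unfold sv sg
  simp [Fm.eval]

lemma sv_xorList (k : ℕ) : ∀ l : List (Fm α), l.length ≤ 2 ^ k →
    sv x (xorList k l) = (l.map (sv x)).prod := by
  induction k with
  | zero =>
    intro l hl
    match l with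
    | [] => simp [xorList, sv, Fm.eval]
    | [a] => simp [xorList]
    | a :: b :: l => simp at hl
  | succ k ih =>
    intro l hl
    rw [xorList, sv_xor2, ih _ (by simp), ih _ (by simp [List.length_drop]; omega),
      ← List.prod_append, ← List.map_append, List.take_append_drop]

lemma sv_parity (l : List (Fm α)) : sv x (parity l) = (l.map (sv x)).prod :=
  sv_xorList x _ l (Nat.le_pow_clog (by norm_num) _)

end Parity

lemma star_prod {d J : ℕ} (u : Fin d → Bool) (x : TVar d J → Bool) :
    ((star d J u).map fun p => sg (x p)).prod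
      = ∏ i : Fin d, (∏ j : Fin J, sg (x ((u, i), j))) * ∏ j : Fin J, sg (x ((flip u i, i), j)) := by
  unfold star
  have h1 : ∀ (m : ℕ) (f : Fin m → List (TVar d J)),
      (((List.finRange m).flatMap f).map fun p => sg (x p)).prod
        = ∏ i, ((f i).map fun p => sg (x p)).prod := by
    intro m f
    rw [← List.prod_ofFn, List.ofFn_eq_map]
    induction List.finRange m with
    | nil => simp
    | cons a l ih => simp [List.flatMap_cons, ih]
  rw [h1]
  refine Finset.prod_congr rfl fun i _ => ?_
  rw [h1, ← Finset.prod_mul_distrib]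
  refine Finset.prod_congr rfl fun j _ => ?_
  simp

/-- The charges. -/
def charge {d : ℕ} (u : Fin d → Bool) : Bool := decide (u = fun _ => false)

lemma vertexAx_eval {d J : ℕ} (u : Fin d → Bool)
    (σ : (Fin d → Bool) × Fin d → Fin J) (z : TVar d J → Bool)
    (y : (Fin d → Bool) × Fin d → Bool) :
    (vertexAx d J u).eval (fun p => rho σ z y p = true) ↔
      chi (bd csrc ctgt {u}) y = sg (charge u) := by
  have h1 : sv (rho σ z y) (parity ((star d J u).map Fm.var)) = chi (bd csrc ctgt {u}) y := by
    rw [sv_parity, List.map_map, chi_bd_single]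
    have h2 : (sv (rho σ z y) ∘ Fm.var) = fun p => sg (rho σ z y p) := by
      funext p
      exact sv_var _ p
    rw [h2, star_prod]
    refine Finset.prod_congr rfl fun i _ => ?_
    rw [prod_rho, prod_rho]
  rw [← h1]
  unfold vertexAx charge sv
  by_cases hu : u = fun _ => false
  · rw [if_pos hu, decide_eq_true hu]
    split_ifs with h
    · simp [h, sg]
    · simp only [h, sg, if_true, false_iff]
      norm_num
  · rw [if_neg hu, decide_eq_false hu]
    split_ifs with h
    · simp only [Fm.eval, h, sg, not_true, Bool.false_eq_true, if_false, false_iff]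
      norm_num
    · simp [Fm.eval, h, sg]

lemma lowDeg_tree {ι E : Type} [Fintype ι] [DecidableEq ι] [Fintype E] [DecidableEq E]
    (Φ : (E → Bool) → (ι → Bool)) (hΦ : ∀ l : Lit ι, LowDeg 1 (fun y => bv (l.ev (Φ y))))
    (T : Tr ι) : LowDeg T.leaves (fun y => bv (T.ev (Φ y))) := by
  induction T with
  | leaf l => exact hΦ l
  | and a b iha ihb =>
    simp only [Tr.ev, Tr.leaves, bv_and]
    exact iha.mul ihb
  | or a b iha ihb =>
    have h : (fun y => bv ((Tr.or a b).ev (Φ y)))
        = fun y => 1 - (1 - bv (a.ev (Φ y))) * (1 - bv (b.ev (Φ y))) := by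
      funext y
      simp only [Tr.ev]
      cases a.ev (Φ y) <;> cases b.ev (Φ y) <;> simp [bv]
    rw [h]
    exact (LowDeg.const _ 1).sub
      (((LowDeg.const _ 1).sub iha).mul ((LowDeg.const _ 1).sub ihb))

lemma lowDeg_rho_lit {E : Type} [Fintype E] [DecidableEq E] {J : ℕ} (σ : E → Fin J)
    (z : E × Fin J → Bool) (l : Lit (E × Fin J)) :
    LowDeg 1 (fun y => bv (l.ev (rho σ z y))) := by
  have hpos : ∀ p : E × Fin J, LowDeg 1 (fun y => bv (rho σ z y p)) := by
    intro p
    have h : (fun y => bv (rho σ z y p)) = fun y => if p.2 = σ p.1 then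
        1 / 2 + (-(sg (z p) * sg (par z p.1)) / 2) * chi {p.1} y else bv (z p) := by
      funext y
      unfold rho res
      split_ifs with h
      · rw [bv_eq, sg_xor, sg_xor]
        simp only [chi, Finset.prod_singleton]
        ring
      · rfl
    rw [h]
    by_cases hp : p.2 = σ p.1
    · simp only [hp, if_true]
      exact (LowDeg.const 1 _).add (LowDeg.const_mul _ (LowDeg.chi {p.1}))
    · simp only [hp, if_false]
      exact LowDeg.const 1 _
  cases l with
  | pos p => exact hpos p
  | neg p =>
    simp only [Lit.ev, bv_not]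
    exact (LowDeg.const 1 _).sub (hpos p)
  | cst b => exact LowDeg.const (ι := E) 1 (bv b)

open Classical in
/-- There is no semantic refutation in which all lines have low degree after a restriction. -/
theorem core₀ {F₀ d J D : ℕ} (hd : 1 ≤ d) {L : List (Fm (TVar d J))}
    (hL : SemDeriv F₀ (cubeAxioms d J) L) (hbot : Fm.bot ∈ L)
    (σ : (Fin d → Bool) × Fin d → Fin J) (z : TVar d J → Bool)
    (hlow : ∀ φ ∈ L, φ ∈ cubeAxioms d J ∨ LowDeg D (fun y => bv ((nf true φ).ev (rho σ z y)))) :
    2 ^ (d - 1) ≤ (F₀ + 3) * max D (2 * d) := by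
  by_contra hcon
  push Not at hcon
  -- the lines as Boolean functions
  let g : Fm (TVar d J) → ((Fin d → Bool) × Fin d → Bool) → Bool :=
    fun φ y => decide (φ.eval (fun p => rho σ z y p = true))
  have hgnf : ∀ φ y, g φ y = (nf true φ).ev (rho σ z y) := by
    intro φ y
    have h := (nf_ev (rho σ z y) φ).1
    rw [Bool.eq_iff_iff, decide_eq_true_iff]
    exact h.symm
  set D' := max D (2 * d) with hD
  let Ax : (((Fin d → Bool) × Fin d → Bool) → Bool) → Prop :=
    fun A => ∃ φ ∈ cubeAxioms d J, A = g φ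
  have haxiom : ∀ A, Ax A → ∃ u : Fin d → Bool,
      ∀ y, A y = true ↔ chi (bd csrc ctgt {u}) y = sg (charge u) := by
    rintro A ⟨φ, hφ, rfl⟩
    obtain ⟨u, _, rfl⟩ := List.mem_map.mp hφ
    refine ⟨u, fun y => ?_⟩
    rw [decide_eq_true_iff]
    exact vertexAx_eval u σ z y
  have hsem : ∀ L' : List (Fm (TVar d J)), SemDeriv F₀ (cubeAxioms d J) L' →
      Sem F₀ Ax (L'.map g) := by
    intro L' hL'
    induction hL' with
    | nil => exact Sem.nil
    | @hyp L' φ _ hφ ih => exact Sem.ax ih ⟨φ, hφ, rfl⟩
    | @step L' φ P _ hlen hPL himp ih =>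
      refine Sem.inf (P.map g) ih ?_ ?_ ?_
      · rw [List.length_map]
        exact hlen
      · intro f hf
        obtain ⟨p, hp, rfl⟩ := List.mem_map.mp hf
        exact List.mem_map_of_mem (hPL p hp)
      · intro y hy
        rw [decide_eq_true_iff]
        refine himp _ fun p hp => ?_
        have := hy (g p) (List.mem_map_of_mem hp)
        rwa [decide_eq_true_iff] at this
  have hlow' : ∀ f ∈ L.map g, LowDeg D' (fun y => bv (f y)) := by
    intro f hf
    obtain ⟨φ, hφ, rfl⟩ := List.mem_map.mp hf
    rcases hlow φ hφ with hax | hS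
    · obtain ⟨u, hu⟩ := haxiom (g φ) ⟨φ, hax, rfl⟩
      have h1 : (fun y => bv (g φ y)) = fun y => (1 / 2 : ℝ)
          + (sg (charge u) / 2) * chi (bd csrc ctgt {u}) y := by
        funext y
        have hv : chi (bd csrc ctgt {u}) y = 1 ∨ chi (bd csrc ctgt {u}) y = -1 :=
          mul_self_eq_one_iff.mp (chi_sq (bd csrc ctgt {u}) y)
        have hs' : sg (charge u) = 1 ∨ sg (charge u) = -1 := by
          cases charge u <;> simp [sg]
        have h2 := hu y
        cases hy : g φ y with
        | true =>
          have h3 := h2.mp hy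
          rw [h3]
          have := sg_mul_self (charge u)
          simp only [bv, if_true]
          linear_combination (-1 / 2 : ℝ) * this
        | false =>
          have h3 : ¬ (chi (bd csrc ctgt {u}) y = sg (charge u)) := by
            intro h
            rw [h2.mpr h] at hy
            exact Bool.noConfusion hy
          rcases hv with h | h <;> rcases hs' with h' | h'
          · exact absurd (h.trans h'.symm) h3
          · rw [h, h']
            norm_num [bv]
          · rw [h, h']
            norm_num [bv]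
          · exact absurd (h.trans h'.symm) h3
      rw [h1]
      refine (LowDeg.const D' _).add (LowDeg.const_mul _ ((LowDeg.chi _).mono ?_))
      exact (card_bd_single u).trans (le_max_right _ _)
    · have h1 : (fun y => bv (g φ y)) = fun y => bv ((nf true φ).ev (rho σ z y)) := by
        funext y
        rw [hgnf]
      rw [h1]
      exact hS.mono (le_max_left _ _)
  have hV : Fintype.card (Fin d → Bool) = 2 ^ d := by simp
  have h2d : 2 * 2 ^ (d - 1) = 2 ^ d := by
    rw [← pow_succ']
    congr 1
    omega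
  refine Sem.not_false (c := charge) (B := 2 ^ (d - 1)) (d := D') (k := F₀)
    (src := csrc) (tgt := ctgt) (exp_cube (by omega)) ?_ hcon ?_ conn_cube haxiom (hsem L hL)
    hlow' ?_
  · rw [hV]
    calc 2 = 2 ^ 1 := rfl
      _ ≤ 2 ^ d := Nat.pow_le_pow_right (by norm_num) hd
  · intro u
    exact (card_bd_single u).trans (le_max_right _ _)
  · refine List.mem_map.mpr ⟨Fm.bot, hbot, ?_⟩
    funext y
    simp [g, Fm.eval]

open Classical in
/-- The lower bound, in terms of integer parameters. -/
theorem core {F₀ d J k s k₀ S : ℕ} (hd : 1 ≤ d) (hJ : 28 * (2 * k + 1) ≤ J) (hs : 1 ≤ s)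
    (hks : 360 * s ≤ 2 * (k + 1) ^ 2) {L : List (Fm (TVar d J))}
    (hL : SemDeriv F₀ (cubeAxioms d J) L) (hbot : Fm.bot ∈ L)
    (hsize : ∀ φ ∈ L, φ ∈ cubeAxioms d J ∨ φ.size ≤ S)
    (hN : 3 * (L.length * (64 * (S / (3 * s) + 1))) < 2 ^ (k₀ + 1)) :
    2 ^ (d - 1) ≤ (F₀ + 3) * max ((S / (3 * s) + 1) * k₀) (2 * d) := by
  have hdec := fun T : Tr (TVar d J) => decomp hs T
  choose mT PT hmT hlenT hleafT hdegT using hdec
  set Ps : List (Tr (TVar d J)) :=
    L.flatMap fun φ => if φ.size ≤ S then PT (nf true φ) else [] with hPs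
  have hm : ∀ φ : Fm (TVar d J), φ.size ≤ S → mT (nf true φ) ≤ S / (3 * s) := by
    intro φ hφ
    rw [Nat.le_div_iff_mul_le (by omega)]
    have h1 := hmT (nf true φ)
    have h2 := nf_leaves φ true
    have e : mT (nf true φ) * (3 * s) = 3 * s * mT (nf true φ) := by ring
    omega
  have hPlen : Ps.length ≤ L.length * (64 * (S / (3 * s) + 1)) := by
    rw [hPs]
    clear hN hsize hbot hL hPs Ps
    induction L with
    | nil => simp
    | cons φ L ih =>
      rw [List.flatMap_cons, List.length_append, List.length_cons, add_mul, one_mul]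
      have h1 : (if φ.size ≤ S then PT (nf true φ) else []).length
          ≤ 64 * (S / (3 * s) + 1) := by
        split_ifs with h
        · have h2 := hlenT (nf true φ)
          have h3 := hm φ h
          omega
        · simp
      omega
  obtain ⟨σ, z, hgood⟩ := exists_good (k := k) Ps (by
    intro P hP
    rw [hPs, List.mem_flatMap] at hP
    obtain ⟨φ, _, hP⟩ := hP
    split_ifs at hP with h
    · have := hleafT (nf true φ) P hP
      omega
    · simp at hP) hJ k₀ (by omega)
  refine core₀ hd hL hbot σ z fun φ hφ => ?_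
  rcases hsize φ hφ with hax | hS
  · exact Or.inl hax
  · right
    refine (hdegT (nf true φ) _ _ _ (fun y => rho σ z y) k₀ ?_).mono
      (Nat.mul_le_mul_right _ (Nat.add_le_add_right (hm φ hS) 1))
    intro P hP
    refine hgood P ?_
    rw [hPs, List.mem_flatMap]
    refine ⟨φ, hφ, ?_⟩
    rw [if_pos hS]
    exact hP

/-- The trivial lower bound. -/
theorem core_small {F₀ d J S : ℕ} (hd : 1 ≤ d) (hJ : 1 ≤ J) {L : List (Fm (TVar d J))}
    (hL : SemDeriv F₀ (cubeAxioms d J) L) (hbot : Fm.bot ∈ L)
    (hsize : ∀ φ ∈ L, φ ∈ cubeAxioms d J ∨ φ.size ≤ S) :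
    2 ^ (d - 1) ≤ (F₀ + 3) * max S (2 * d) := by
  refine core₀ hd hL hbot (fun _ => ⟨0, hJ⟩) (fun _ => false) fun φ hφ => ?_
  rcases hsize φ hφ with hax | hS
  · exact Or.inl hax
  · exact Or.inr ((lowDeg_tree _ (lowDeg_rho_lit _ _) (nf true φ)).mono ((nf_leaves φ true).trans hS))

/-- Derivations in a Frege system are semantic derivations. -/
lemma semDeriv_of_isDeriv {α : Type} {R : List Rule} {k : ℕ} (hlen : ∀ r ∈ R, r.prem.length ≤ k)
    (hsound : ∀ r ∈ R, ∀ v : ℕ → Prop, (∀ p ∈ r.prem, p.eval v) → r.concl.eval v)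
    {Γ L : List (Fm α)} (hL : IsDeriv R Γ L) : SemDeriv k Γ L := by
  induction hL with
  | nil => exact .nil
  | hyp _ hφ ih => exact ih.hyp hφ
  | @step L φ _ hi ih =>
    obtain ⟨r, hr, ρ, h1, h2⟩ := hi
    refine SemDeriv.step (r.prem.map fun p => p.subst ρ) ih ?_ ?_ ?_
    · rw [List.length_map]
      exact hlen r hr
    · intro ψ hψ
      obtain ⟨p, hp, rfl⟩ := List.mem_map.mp hψ
      exact h1 p hp
    · intro v hv
      rw [← h2, Fm.eval_subst]
      refine hsound r hr _ fun p hp => ?_
      have := hv (p.subst ρ) (List.mem_map_of_mem (f := fun p => p.subst ρ) hp)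
      rwa [Fm.eval_subst] at this

end LineSize
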