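import Pool.Agent.Work.MP_c07f0d_lc.LS.Tree

/-!
# Parity constraints on the vertices of a graph: derivations with lines of low degree
-/

set_option linter.unusedSectionVars false

namespace LineSize

open Finset

variable {V E : Type} [Fintype V] [DecidableEq V] [Fintype E] [DecidableEq E]

/-- The edges with exactly one endpoint in `U`. -/
def bd (src tgt : E → V) (U : Finset V) : Finset E :=
  Finset.univ.filter fun e => ¬ (src e ∈ U ↔ tgt e ∈ U)

lemma bd_symmDiff (src tgt : E → V) (U W : Finset V) :
    bd src tgt (symmDiff U W) = symmDiff (bd src tgt U) (bd src tgt W) := by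
  ext e
  simp only [bd, Finset.mem_symmDiff, Finset.mem_filter, Finset.mem_univ, true_and]
  tauto

/-- The pseudo-expectation. -/
noncomputable def Et (src tgt : E → V) (c : V → Bool) (f : (E → Bool) → ℝ) : ℝ :=
  ∑ U : Finset V, if 3 * U.card < Fintype.card V then chi U c * fc f (bd src tgt U) else 0

variable {src tgt : E → V} {c : V → Bool}

lemma Et_zero : Et src tgt c (fun _ => 0) = 0 := by
  unfold Et
  refine Finset.sum_eq_zero fun U _ => ?_
  have : fc (fun _ : E → Bool => (0 : ℝ)) (bd src tgt U) = 0 := by
    rw [fc_const]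
    simp
  rw [this]
  simp

lemma Et_add (f g : (E → Bool) → ℝ) :
    Et src tgt c (fun y => f y + g y) = Et src tgt c f + Et src tgt c g := by
  unfold Et
  rw [← Finset.sum_add_distrib]
  refine Finset.sum_congr rfl fun U _ => ?_
  split_ifs
  · rw [fc_add]
    ring
  · ring

lemma Et_const_mul (a : ℝ) (f : (E → Bool) → ℝ) :
    Et src tgt c (fun y => a * f y) = a * Et src tgt c f := by
  unfold Et
  rw [Finset.mul_sum]
  refine Finset.sum_congr rfl fun U _ => ?_
  split_ifs
  · rw [fc_const_mul]
    ring
  · ring

lemma Et_sum {κ : Type*} (s : Finset κ) (f : κ → (E → Bool) → ℝ) :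
    Et src tgt c (fun y => ∑ k ∈ s, f k y) = ∑ k ∈ s, Et src tgt c (f k) := by
  unfold Et
  rw [Finset.sum_comm]
  refine Finset.sum_congr rfl fun U _ => ?_
  split_ifs
  · rw [fc_sum, Finset.mul_sum]
  · simp

lemma Et_mul_chi (b : (E → Bool) → ℝ) (T : Finset E) :
    Et src tgt c (fun y => b y * chi T y)
      = ∑ U : Finset V, if 3 * U.card < Fintype.card V then
          chi U c * fc b (symmDiff (bd src tgt U) T) else 0 := by
  unfold Et
  simp only [fc_mul_chi]

/-- `b` is annihilated by the pseudo-expectation times characters of size at most `t`. -/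
def Null (src tgt : E → V) (c : V → Bool) (t : ℕ) (b : (E → Bool) → ℝ) : Prop :=
  ∀ T : Finset E, T.card ≤ t → Et src tgt c (fun y => b y * chi T y) = 0

lemma Null.mono {s t : ℕ} (hst : s ≤ t) {b : (E → Bool) → ℝ} (h : Null src tgt c t b) :
    Null src tgt c s b := fun T hT => h T (hT.trans hst)

/-- All vertex sets of middle size have at least `B` boundary edges. -/
def Exp (src tgt : E → V) (B : ℕ) : Prop :=
  ∀ U : Finset V, Fintype.card V ≤ 3 * U.card → 3 * U.card ≤ 2 * Fintype.card V →
    B ≤ (bd src tgt U).card

lemma small_symmDiff {B : ℕ} (hB : Exp src tgt B) {U W : Finset V}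
    (hU : 3 * U.card < Fintype.card V) (hW : 3 * W.card < Fintype.card V)
    (hcut : (bd src tgt (symmDiff U W)).card < B) :
    3 * (symmDiff U W).card < Fintype.card V := by
  have h1 := card_symmDiff_le U W
  by_contra h
  push Not at h
  have := hB (symmDiff U W) h (by omega)
  omega

lemma symmDiff_cancel {α : Type*} [DecidableEq α] (A B C : Finset α) :
    symmDiff (symmDiff A B) (symmDiff C B) = symmDiff A C := by
  ext x
  simp only [Finset.mem_symmDiff]
  tauto

/-- Bootstrapping. -/
lemma Null.boot {B d t : ℕ} (hB : Exp src tgt B) {b : (E → Bool) → ℝ} (hb : LowDeg d b)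
    (hn : Null src tgt c d b) (h2 : 2 * d < B) (ht : t + d < B) : Null src tgt c t b := by
  intro T hT
  rw [Et_mul_chi]
  by_cases hex : ∃ U₀ : Finset V, 3 * U₀.card < Fintype.card V ∧
      (symmDiff (bd src tgt U₀) T).card ≤ d
  · obtain ⟨U₀, hU₀, hS₀⟩ := hex
    set S₀ := symmDiff (bd src tgt U₀) T with hS₀def
    have h0 := hn S₀ hS₀
    rw [Et_mul_chi] at h0
    -- reindex
    have hre : ∑ U : Finset V, (if 3 * U.card < Fintype.card V then
          chi U c * fc b (symmDiff (bd src tgt U) T) else 0)
        = ∑ U : Finset V, (if 3 * (symmDiff U U₀).card < Fintype.card V then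
          chi (symmDiff U U₀) c * fc b (symmDiff (bd src tgt (symmDiff U U₀)) T) else 0) := by
      refine (Finset.sum_nbij' (fun U => symmDiff U U₀) (fun U => symmDiff U U₀)
        (by simp) (by simp) ?_ ?_ ?_)
      · intro U _
        simp
      · intro U _
        simp
      · intro U _
        have hUU : symmDiff (symmDiff U U₀) U₀ = U := by simp
        rw [hUU]
    rw [hre]
    have hterm : ∀ U : Finset V, (if 3 * (symmDiff U U₀).card < Fintype.card V then
          chi (symmDiff U U₀) c * fc b (symmDiff (bd src tgt (symmDiff U U₀)) T) else 0)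
        = chi U₀ c * (if 3 * U.card < Fintype.card V then
          chi U c * fc b (symmDiff (bd src tgt U) S₀) else 0) := by
      intro U
      have harg : symmDiff (bd src tgt (symmDiff U U₀)) T = symmDiff (bd src tgt U) S₀ := by
        rw [bd_symmDiff, hS₀def, symmDiff_assoc]
      rw [harg]
      by_cases hz : fc b (symmDiff (bd src tgt U) S₀) = 0
      · rw [hz]
        simp
      · have hd : (symmDiff (bd src tgt U) S₀).card ≤ d := by
          by_contra h
          exact hz (hb _ (by omega))
        have hiff : 3 * (symmDiff U U₀).card < Fintype.card V ↔ 3 * U.card < Fintype.card V := by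
          constructor
          · intro h
            have hUU : symmDiff (symmDiff U U₀) U₀ = U := by simp
            rw [← hUU]
            refine small_symmDiff hB h hU₀ ?_
            rw [hUU]
            have h3 := card_le_symmDiff (bd src tgt U) S₀
            omega
          · intro h
            refine small_symmDiff hB h hU₀ ?_
            have h3 := card_le_symmDiff (bd src tgt (symmDiff U U₀)) T
            rw [harg] at h3
            omega
        by_cases hs : 3 * U.card < Fintype.card V
        · rw [if_pos hs, if_pos (hiff.mpr hs), ← chi_mul]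
          ring
        · rw [if_neg hs, if_neg (fun h => hs (hiff.mp h))]
          ring
    simp only [hterm]
    rw [← Finset.mul_sum, h0, mul_zero]
  · push Not at hex
    refine Finset.sum_eq_zero fun U _ => ?_
    split_ifs with h
    · rw [hb _ (hex U h), mul_zero]
    · rfl

lemma Et_mul_eq_zero {t D : ℕ} {b h : (E → Bool) → ℝ} (hn : Null src tgt c t b)
    (hh : LowDeg D h) (hD : D ≤ t) : Et src tgt c (fun y => h y * b y) = 0 := by
  have h1 : (fun y => h y * b y) = fun y => ∑ T, fc h T * (b y * chi T y) := by
    funext y
    rw [← walsh h y, Finset.sum_mul]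
    refine Finset.sum_congr rfl fun T _ => ?_
    ring
  rw [h1, Et_sum]
  refine Finset.sum_eq_zero fun T _ => ?_
  rw [Et_const_mul]
  by_cases hT : D < T.card
  · rw [hh T hT, zero_mul]
  · rw [hn T (by omega), mul_zero]

lemma Et_prod {t d : ℕ} (fs : List ((E → Bool) → Bool)) :
    ∀ {D : ℕ} {h : (E → Bool) → ℝ}, LowDeg D h →
      (∀ f ∈ fs, LowDeg d (fun y => bv (f y))) →
      (∀ f ∈ fs, Null src tgt c t (fun y => 1 - bv (f y))) →
      D + fs.length * d ≤ t →
      (∀ y, (∀ f ∈ fs, f y = true) → h y = 0) → Et src tgt c h = 0 := by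
  induction fs with
  | nil =>
    intro D h _ _ _ _ hz
    have : h = fun _ => 0 := by
      funext y
      exact hz y (by simp)
    rw [this, Et_zero]
  | cons f fs ih =>
    intro D h hh hf hn hD hz
    rw [List.length_cons, add_mul, one_mul] at hD
    have h1 : h = fun y => h y * (1 - bv (f y)) + h y * bv (f y) := by
      funext y
      ring
    rw [h1, Et_add, Et_mul_eq_zero (hn f (by simp)) hh (by omega), zero_add]
    refine ih (hh.mul (hf f (by simp))) (fun g hg => hf g (List.mem_cons_of_mem _ hg))
      (fun g hg => hn g (List.mem_cons_of_mem _ hg)) (by omega) ?_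
    intro y hy
    cases hfy : f y with
    | false => simp [bv]
    | true =>
      rw [hz y, zero_mul]
      intro g hg
      rcases List.mem_cons.mp hg with rfl | hg
      · exact hfy
      · exact hy g hg

/-- One inference step. -/
lemma Null.infer {B d k : ℕ} (hB : Exp src tgt B) (hk : (k + 3) * d < B)
    (g : (E → Bool) → Bool) (hg : LowDeg d (fun y => bv (g y)))
    (fs : List ((E → Bool) → Bool)) (hlen : fs.length ≤ k)
    (hf : ∀ f ∈ fs, LowDeg d (fun y => bv (f y)))
    (hn : ∀ f ∈ fs, Null src tgt c d (fun y => 1 - bv (f y)))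
    (himp : ∀ y, (∀ f ∈ fs, f y = true) → g y = true) :
    Null src tgt c d (fun y => 1 - bv (g y)) := by
  have hkd : (k + 3) * d = k * d + 3 * d := by ring
  have hn' : ∀ f ∈ fs, Null src tgt c ((k + 2) * d) (fun y => 1 - bv (f y)) := by
    intro f hf'
    refine (hn f hf').boot hB ((LowDeg.const d 1).sub (hf f hf')) (by omega) ?_
    have : (k + 2) * d = k * d + 2 * d := by ring
    omega
  intro T hT
  refine Et_prod fs (D := 2 * d) (d := d) (t := (k + 2) * d) ?_ hf hn' ?_ ?_
  · rw [two_mul]
    exact ((LowDeg.const d 1).sub hg).mul ((LowDeg.chi T).mono hT)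
  · have h1 : fs.length * d ≤ k * d := Nat.mul_le_mul_right _ hlen
    have : (k + 2) * d = k * d + 2 * d := by ring
    omega
  · intro y hy
    have h1 := himp y hy
    simp [bv, h1]

/-- The parity constraint at a vertex is annihilated. -/
lemma null_axiom {B Δ t : ℕ} (hB : Exp src tgt B) (hV : 2 ≤ Fintype.card V) (u : V)
    (hΔ : (bd src tgt {u}).card ≤ Δ) (ht : t + Δ < B) (A : (E → Bool) → Bool)
    (hA : ∀ y, A y = true ↔ chi (bd src tgt {u}) y = sg (c u)) :
    Null src tgt c t (fun y => 1 - bv (A y)) := by
  intro T hT
  have h1 : (fun y => (1 - bv (A y)) * chi T y)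
      = fun y => (1 / 2 : ℝ) * chi T y
        + (-(sg (c u)) / 2) * (chi (bd src tgt {u}) y * chi T y) := by
    funext y
    have hv : chi (bd src tgt {u}) y = 1 ∨ chi (bd src tgt {u}) y = -1 := by
      have := chi_sq (bd src tgt {u}) y
      rcases mul_self_eq_one_iff.mp this with h | h
      · exact Or.inl h
      · exact Or.inr h
    have hs : sg (c u) = 1 ∨ sg (c u) = -1 := by
      cases c u <;> simp [sg]
    cases hy : A y with
    | true =>
      have := (hA y).mp hy
      rw [this]
      have h2 := sg_mul_self (c u)
      simp only [bv, if_true, sub_self, zero_mul]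
      linear_combination (chi T y / 2) * h2
    | false =>
      have h3 : chi (bd src tgt {u}) y ≠ sg (c u) := by
        intro h
        rw [(hA y).mpr h] at hy
        exact Bool.noConfusion hy
      have h4 : chi (bd src tgt {u}) y = - sg (c u) := by
        rcases hv with h | h <;> rcases hs with h' | h'
        · exact absurd (h.trans h'.symm) h3
        · rw [h, h']
          norm_num
        · rw [h, h']
        · exact absurd (h.trans h'.symm) h3
      rw [h4]
      have h2 := sg_mul_self (c u)
      simp only [bv]
      simp only [Bool.false_eq_true, if_false, sub_zero, one_mul]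
      linear_combination (-(chi T y / 2)) * h2
  rw [h1, Et_add, Et_const_mul, Et_const_mul]
  have e1 : Et src tgt c (fun y => chi T y)
      = ∑ U : Finset V, if 3 * U.card < Fintype.card V ∧ bd src tgt U = T then chi U c else 0 := by
    unfold Et
    refine Finset.sum_congr rfl fun U _ => ?_
    have : fc (fun y => chi T y) (bd src tgt U) = if bd src tgt U = T then 1 else 0 :=
      fc_chi _ _
    rw [this]
    by_cases h1 : 3 * U.card < Fintype.card V <;> by_cases h2 : bd src tgt U = T <;> simp [h1, h2]
  have e2 : Et src tgt c (fun y => chi (bd src tgt {u}) y * chi T y)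
      = ∑ U : Finset V, if 3 * (symmDiff U {u}).card < Fintype.card V ∧ bd src tgt U = T then
          chi (symmDiff U {u}) c else 0 := by
    simp only [chi_mul]
    unfold Et
    refine (Finset.sum_nbij' (fun U => symmDiff U {u}) (fun U => symmDiff U {u})
        (by simp) (by simp) ?_ ?_ ?_)
    · intro U _
      simp
    · intro U _
      simp
    · intro U _
      have hfc : fc (fun y => chi (symmDiff (bd src tgt {u}) T) y) (bd src tgt U)
          = if bd src tgt U = symmDiff (bd src tgt {u}) T then 1 else 0 := fc_chi _ _
      rw [hfc]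
      have hUU : symmDiff (symmDiff U {u}) {u} = U := by simp
      rw [hUU, bd_symmDiff]
      have hiff : (symmDiff (bd src tgt U) (bd src tgt {u}) = T)
          ↔ bd src tgt U = symmDiff (bd src tgt {u}) T := by
        constructor
        · intro h
          rw [← h, symmDiff_comm (bd src tgt U), symmDiff_symmDiff_cancel_left]
        · intro h
          rw [h, symmDiff_comm (bd src tgt {u}), symmDiff_symmDiff_cancel_right]
      by_cases h1 : 3 * U.card < Fintype.card V <;>
        by_cases h2 : bd src tgt U = symmDiff (bd src tgt {u}) T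
      · simp [h1, h2]
      · have h3 : ¬ (symmDiff (bd src tgt U) (bd src tgt {u}) = T) := fun h => h2 (hiff.mp h)
        rw [if_pos h1, if_neg h2, if_neg (fun h => h3 h.2), mul_zero]
      · simp [h1]
      · simp [h1]
  have e3 : ∀ U : Finset V, (if 3 * (symmDiff U {u}).card < Fintype.card V ∧ bd src tgt U = T
        then chi (symmDiff U {u}) c else 0)
      = sg (c u) * (if 3 * U.card < Fintype.card V ∧ bd src tgt U = T then chi U c else 0) := by
    intro U
    by_cases h2 : bd src tgt U = T
    · have hcu : chi ({u} : Finset V) c = sg (c u) := by simp [chi]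
      have hiff : 3 * (symmDiff U {u}).card < Fintype.card V ↔ 3 * U.card < Fintype.card V := by
        have ha := card_symmDiff_le U {u}
        have hb := card_symmDiff_le (symmDiff U {u}) {u}
        have hUU : symmDiff (symmDiff U {u}) {u} = U := by simp
        rw [hUU] at hb
        rw [Finset.card_singleton] at ha hb
        have hcut : (bd src tgt (symmDiff U {u})).card ≤ t + Δ := by
          rw [bd_symmDiff]
          have := card_symmDiff_le (bd src tgt U) (bd src tgt {u})
          rw [h2] at this ⊢
          omega
        constructor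
        · intro h
          by_contra h'
          push Not at h'
          have := hB U h' (by omega)
          rw [h2] at this
          omega
        · intro h
          by_contra h'
          push Not at h'
          have := hB _ h' (by omega)
          omega
      by_cases h1 : 3 * U.card < Fintype.card V
      · rw [if_pos ⟨hiff.mpr h1, h2⟩, if_pos ⟨h1, h2⟩, ← chi_mul, hcu]
        ring
      · rw [if_neg (fun h => h1 (hiff.mp h.1)), if_neg (fun h => h1 h.1)]
        ring
    · rw [if_neg (fun h => h2 h.2), if_neg (fun h => h2 h.2)]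
      ring
  rw [e1, e2]
  simp only [e3, ← Finset.mul_sum]
  have h2 := sg_mul_self (c u)
  linear_combination (-(1 / 2) * ∑ U : Finset V, if 3 * U.card < Fintype.card V ∧
    bd src tgt U = T then chi U c else 0) * h2

/-- The pseudo-expectation of `1` is `1`. -/
lemma Et_one (hV : 0 < Fintype.card V)
    (hconn : ∀ U : Finset V, U.Nonempty → 3 * U.card < Fintype.card V → bd src tgt U ≠ ∅) :
    Et src tgt c (fun _ => 1) = 1 := by
  unfold Et
  rw [Finset.sum_eq_single ∅]
  · have : bd src tgt (∅ : Finset V) = ∅ := by
      simp [bd]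
    rw [this, fc_const]
    simp [hV]
  · intro U _ hU
    split_ifs with h
    · rw [fc_const, if_neg (hconn U (Finset.nonempty_iff_ne_empty.mpr hU) h), mul_zero]
    · rfl
  · intro h
    exact absurd (Finset.mem_univ _) h

/-- Semantic derivations with at most `k` premises per line; the list is read from its last entry
to its first entry. -/
inductive Sem (k : ℕ) (Ax : ((E → Bool) → Bool) → Prop) : List ((E → Bool) → Bool) → Prop
  | nil : Sem k Ax []
  | ax {L : List ((E → Bool) → Bool)} {g : (E → Bool) → Bool} : Sem k Ax L → Ax g →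
      Sem k Ax (g :: L)
  | inf {L : List ((E → Bool) → Bool)} {g : (E → Bool) → Bool}
      (fs : List ((E → Bool) → Bool)) : Sem k Ax L → fs.length ≤ k → (∀ f ∈ fs, f ∈ L) →
      (∀ y, (∀ f ∈ fs, f y = true) → g y = true) → Sem k Ax (g :: L)

theorem Sem.null {B d k : ℕ} (hB : Exp src tgt B) (hV : 2 ≤ Fintype.card V)
    (hk : (k + 3) * d < B) (hΔ : ∀ u, (bd src tgt {u}).card ≤ d)
    {Ax : ((E → Bool) → Bool) → Prop}
    (hAx : ∀ A, Ax A → ∃ u, ∀ y, A y = true ↔ chi (bd src tgt {u}) y = sg (c u))
    {L : List ((E → Bool) → Bool)} (hL : Sem k Ax L)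
    (hd : ∀ g ∈ L, LowDeg d (fun y => bv (g y))) :
    ∀ g ∈ L, Null src tgt c d (fun y => 1 - bv (g y)) := by
  have hkd : (k + 3) * d = k * d + 3 * d := by ring
  induction hL with
  | nil => simp
  | @ax L g hL hg ih =>
    intro f hf
    rcases List.mem_cons.mp hf with rfl | hf
    · obtain ⟨u, hu⟩ := hAx _ hg
      exact null_axiom hB hV u (hΔ u) (by omega) _ hu
    · exact ih (fun g hg => hd g (List.mem_cons_of_mem _ hg)) f hf
  | @inf L g fs hL hlen hfs himp ih =>
    have ih' := ih (fun g hg => hd g (List.mem_cons_of_mem _ hg))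
    intro f hf
    rcases List.mem_cons.mp hf with rfl | hf
    · exact Null.infer hB hk _ (hd _ (List.mem_cons_self)) fs hlen
        (fun q hq => hd q (List.mem_cons_of_mem _ (hfs q hq)))
        (fun q hq => ih' q (hfs q hq)) himp
    · exact ih' f hf

/-- There is no semantic refutation in which all lines have low degree. -/
theorem Sem.not_false {B d k : ℕ} (hB : Exp src tgt B) (hV : 2 ≤ Fintype.card V)
    (hk : (k + 3) * d < B) (hΔ : ∀ u, (bd src tgt {u}).card ≤ d)
    (hconn : ∀ U : Finset V, U.Nonempty → 3 * U.card < Fintype.card V → bd src tgt U ≠ ∅)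
    {Ax : ((E → Bool) → Bool) → Prop}
    (hAx : ∀ A, Ax A → ∃ u, ∀ y, A y = true ↔ chi (bd src tgt {u}) y = sg (c u))
    {L : List ((E → Bool) → Bool)} (hL : Sem k Ax L)
    (hd : ∀ g ∈ L, LowDeg d (fun y => bv (g y))) : (fun _ => false) ∉ L := by
  intro hmem
  have h := hL.null hB hV hk hΔ hAx hd _ hmem ∅ (by simp)
  have h1 : (fun y : E → Bool => (1 - bv false) * chi ∅ y) = fun _ => 1 := by
    funext y
    simp [bv]
  rw [h1, Et_one (by omega) hconn] at h
  exact one_ne_zero h

end LineSize
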