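import Pool.Agent.Work.MP_c07f0d_lc.LS.LSDefs
import Pool.Agent.Work.MP_c07f0d_lc.LS.Tse
import Pool.Agent.Work.MP_c07f0d_lc.LS.Amp

/-!
# Edge expansion of the hypercube
-/

set_option linter.unusedSectionVars false

namespace LineSize

open Finset

variable {d : ℕ}

/-- The origin of an edge. -/
def csrc (e : (Fin d → Bool) × Fin d) : Fin d → Bool := e.1

/-- The end of an edge. -/
def ctgt (e : (Fin d → Bool) × Fin d) : Fin d → Bool := flip e.1 e.2

lemma flip_eq (u : Fin d → Bool) (i : Fin d) :
    flip u i = fun j => xor (u j) (decide (j = i)) := by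
  funext j
  unfold flip
  by_cases h : j = i
  · subst h
    simp
  · simp [h]

lemma flip_flip (u : Fin d → Bool) (i : Fin d) : flip (flip u i) i = u := by
  rw [flip_eq, flip_eq]
  funext j
  show xor (xor (u j) (decide (j = i))) (decide (j = i)) = u j
  cases u j <;> cases decide (j = i) <;> rfl

lemma flip_ne (u : Fin d → Bool) (i : Fin d) : flip u i ≠ u := by
  intro h
  have := congrFun h i
  unfold flip at this
  simp at this

lemma card_bd (U : Finset (Fin d → Bool)) :
    4 * U.card * (2 ^ d - U.card) ≤ (bd csrc ctgt U).card * 2 ^ d := by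
  classical
  set f : (Fin d → Bool) → ℝ := fun x => if x ∈ U then 1 else 0 with hf
  have hcardV : Fintype.card (Fin d) = d := Fintype.card_fin d
  have hUle : U.card ≤ 2 ^ d := by
    have := Finset.card_le_univ U
    simpa using this
  -- Parseval
  have hsumf : ∑ x, f x ^ 2 = U.card := by
    have : ∀ x, f x ^ 2 = if x ∈ U then (1 : ℝ) else 0 := by
      intro x
      simp only [hf]
      split_ifs <;> norm_num
    simp [this]
  have hpars : ∑ S, fc f S ^ 2 = U.card / 2 ^ d := by
    rw [parseval, hsumf, hcardV]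
  have hzero : fc f ∅ = U.card / 2 ^ d := by
    unfold fc
    rw [hcardV]
    congr 1
    simp [hf]
  -- the boundary
  have hdir : ∀ i : Fin d, ∑ x, (f x - f (fun j => xor (x j) (decide (j = i)))) ^ 2
      = 2 ^ d * ∑ S : Finset (Fin d), (if i ∈ S then 4 * fc f S ^ 2 else 0) := by
    intro i
    have h1 := parseval (fun x => f x - f (fun j => xor (x j) (decide (j = i))))
    rw [hcardV, eq_div_iff (by positivity)] at h1
    rw [← h1, mul_comm]
    congr 1
    refine Finset.sum_congr rfl fun S _ => ?_
    rw [fc_sub, fc_translate]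
    have hchi : chi S (fun j => decide (j = i)) = if i ∈ S then (-1 : ℝ) else 1 := by
      unfold chi
      by_cases hi : i ∈ S
      · rw [if_pos hi, ← Finset.mul_prod_erase S _ hi]
        have : ∏ j ∈ S.erase i, sg (decide (j = i)) = 1 := by
          refine Finset.prod_eq_one fun j hj => ?_
          simp [Finset.ne_of_mem_erase hj, sg]
        rw [this]
        simp [sg]
      · rw [if_neg hi]
        refine Finset.prod_eq_one fun j hj => ?_
        have : j ≠ i := by
          rintro rfl
          exact hi hj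
        simp [this, sg]
    rw [hchi]
    split_ifs <;> ring
  have hbd : ((bd csrc ctgt U).card : ℝ)
      = ∑ i : Fin d, ∑ x, (f x - f (fun j => xor (x j) (decide (j = i)))) ^ 2 := by
    unfold bd
    rw [Finset.card_filter]
    push_cast
    rw [Fintype.sum_prod_type, Finset.sum_comm]
    refine Finset.sum_congr rfl fun i _ => Finset.sum_congr rfl fun x _ => ?_
    simp only [csrc, ctgt, flip_eq, hf]
    by_cases h1 : x ∈ U <;> by_cases h2 : (fun j => xor (x j) (decide (j = i))) ∈ U <;>
      simp [h1, h2]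
  have hsum : ((bd csrc ctgt U).card : ℝ)
      = 2 ^ d * ∑ S : Finset (Fin d), 4 * S.card * fc f S ^ 2 := by
    rw [hbd]
    simp only [hdir]
    rw [← Finset.mul_sum, Finset.sum_comm]
    congr 1
    refine Finset.sum_congr rfl fun S _ => ?_
    rw [← Finset.sum_filter]
    simp
    ring
  have hge : ∑ S : Finset (Fin d), 4 * (S.card : ℝ) * fc f S ^ 2
      ≥ 4 * (∑ S, fc f S ^ 2 - fc f ∅ ^ 2) := by
    have h1 : ∑ S, fc f S ^ 2 - fc f ∅ ^ 2
        = ∑ S : Finset (Fin d), if S = ∅ then 0 else fc f S ^ 2 := by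
      have h2 : ∀ S : Finset (Fin d), fc f S ^ 2
          = (if S = ∅ then 0 else fc f S ^ 2) + (if S = ∅ then fc f S ^ 2 else 0) := by
        intro S
        split_ifs <;> ring
      have h3 : ∑ S, fc f S ^ 2 = ∑ S : Finset (Fin d), (if S = ∅ then 0 else fc f S ^ 2)
          + ∑ S : Finset (Fin d), (if S = ∅ then fc f S ^ 2 else 0) := by
        rw [← Finset.sum_add_distrib]
        exact Finset.sum_congr rfl fun S _ => h2 S
      rw [h3]
      simp
    rw [h1, Finset.mul_sum, ge_iff_le]
    refine Finset.sum_le_sum fun S _ => ?_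
    split_ifs with h
    · simp [h]
    · have : (1 : ℝ) ≤ S.card := by
        exact_mod_cast Finset.card_pos.mpr (Finset.nonempty_iff_ne_empty.mpr h)
      nlinarith [sq_nonneg (fc f S)]
  rw [hpars, hzero] at hge
  have h2d : (0 : ℝ) < 2 ^ d := by positivity
  have hfin : (4 : ℝ) * U.card * (2 ^ d - U.card) ≤ (bd csrc ctgt U).card * 2 ^ d := by
    rw [hsum]
    calc (4 : ℝ) * U.card * (2 ^ d - U.card)
        = 2 ^ d * (4 * (U.card / 2 ^ d - (U.card / 2 ^ d) ^ 2)) * 2 ^ d := by
          field_simp
      _ ≤ 2 ^ d * (∑ S : Finset (Fin d), 4 * (S.card : ℝ) * fc f S ^ 2) * 2 ^ d := by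
          exact mul_le_mul_of_nonneg_right (mul_le_mul_of_nonneg_left hge h2d.le) h2d.le
  have hcast : (((2 : ℕ) ^ d - U.card : ℕ) : ℝ) = 2 ^ d - U.card := by
    rw [Nat.cast_sub hUle]
    push_cast
    rfl
  have : ((4 * U.card * (2 ^ d - U.card) : ℕ) : ℝ) ≤ (((bd csrc ctgt U).card * 2 ^ d : ℕ) : ℝ) := by
    push_cast [hcast]
    exact hfin
  exact_mod_cast this

lemma exp_cube {B : ℕ} (hB : 2 * B ≤ 2 ^ d) : Exp (csrc (d := d)) ctgt B := by
  intro U h1 h2
  have hV : Fintype.card (Fin d → Bool) = 2 ^ d := by simp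
  rw [hV] at h1 h2
  have h := card_bd U
  set a := U.card with ha
  set V := 2 ^ d with hVdef
  have haV : a ≤ V := by omega
  obtain ⟨c, hc⟩ := Nat.exists_eq_add_of_le haV
  have hVc : V - a = c := by omega
  rw [hVc] at h
  by_contra hcon
  push Not at hcon
  have hV0 : 0 < V := by positivity
  have h3 : (bd csrc ctgt U).card * V < B * V := Nat.mul_lt_mul_of_pos_right hcon hV0
  -- `4 a c ≥ V² / 2`
  have h4 : 2 * (4 * a * c) ≥ V * V := by
    have e1 : a ≤ 2 * c := by omega
    have e2 : c ≤ 2 * a := by omega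
    have e3 : V = a + c := hc
    rw [e3]
    nlinarith [Nat.mul_le_mul e1 e2, mul_le_mul e1 (le_refl a) (Nat.zero_le _) (Nat.zero_le _),
      mul_le_mul e2 (le_refl c) (Nat.zero_le _) (Nat.zero_le _)]
  nlinarith

lemma conn_cube (U : Finset (Fin d → Bool)) (hne : U.Nonempty)
    (h : 3 * U.card < Fintype.card (Fin d → Bool)) : bd csrc ctgt U ≠ ∅ := by
  intro h0
  have hV : Fintype.card (Fin d → Bool) = 2 ^ d := by simp
  rw [hV] at h
  have h1 := card_bd U
  rw [h0, Finset.card_empty, zero_mul] at h1
  have h2 : 0 < U.card := Finset.card_pos.mpr hne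
  have h3 : 0 < 2 ^ d - U.card := by omega
  have : 0 < 4 * U.card * (2 ^ d - U.card) := by positivity
  omega

lemma bd_single (u : Fin d → Bool) :
    bd csrc ctgt {u} = Finset.univ.image (fun i : Fin d => (u, i)) ∪
      Finset.univ.image (fun i : Fin d => (flip u i, i)) := by
  ext ⟨w, i⟩
  simp only [bd, csrc, ctgt, Finset.mem_filter, Finset.mem_univ, true_and, Finset.mem_singleton,
    Finset.mem_union, Finset.mem_image, Prod.mk.injEq]
  constructor
  · intro h
    by_cases hw : w = u
    · exact Or.inl ⟨i, hw.symm, rfl⟩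
    · right
      have h2 : flip w i = u := by tauto
      refine ⟨i, ?_, rfl⟩
      rw [← h2, flip_flip]
  · rintro (⟨j, rfl, rfl⟩ | ⟨j, h1, rfl⟩)
    · have := flip_ne u j
      tauto
    · have h2 : flip w j = u := by rw [← h1, flip_flip]
      have h3 : w ≠ u := by
        rw [← h1]
        exact flip_ne u j
      tauto

lemma card_bd_single (u : Fin d → Bool) : (bd csrc ctgt {u}).card ≤ 2 * d := by
  rw [bd_single]
  refine (Finset.card_union_le _ _).trans ?_
  have h1 : (Finset.univ.image (fun i : Fin d => (u, i))).card ≤ d := by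
    simpa using Finset.card_image_le (s := (Finset.univ : Finset (Fin d)))
      (f := fun i : Fin d => (u, i))
  have h2 : (Finset.univ.image (fun i : Fin d => (flip u i, i))).card ≤ d := by
    simpa using Finset.card_image_le (s := (Finset.univ : Finset (Fin d)))
      (f := fun i : Fin d => (flip u i, i))
  omega

lemma chi_bd_single (u : Fin d → Bool) (y : (Fin d → Bool) × Fin d → Bool) :
    chi (bd csrc ctgt {u}) y = ∏ i : Fin d, sg (y (u, i)) * sg (y (flip u i, i)) := by
  have hdisj : Disjoint (Finset.univ.image (fun i : Fin d => (u, i)))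
      (Finset.univ.image (fun i : Fin d => (flip u i, i))) := by
    rw [Finset.disjoint_left]
    intro e h1 h2
    obtain ⟨i, _, rfl⟩ := Finset.mem_image.mp h1
    obtain ⟨j, _, hj⟩ := Finset.mem_image.mp h2
    simp only [Prod.mk.injEq] at hj
    exact flip_ne u j hj.1
  unfold chi
  rw [bd_single, Finset.prod_union hdisj, Finset.prod_image, Finset.prod_image,
    Finset.prod_mul_distrib]
  · intro i _ j _ h
    simpa using (Prod.mk.inj h).2
  · intro i _ j _ h
    simpa using (Prod.mk.inj h).2

end LineSize
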