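import Pool.Agent.Work.MP_c07f0d_lc.LS.Upper3

/-!
# The trade-off and the threshold
-/

set_option linter.unusedSectionVars false

namespace LineSize

open FregeEF Finset

theorem tradeoff (k d J S : ℕ) (L : List (Fm (TVar d J))) (hd : 1 ≤ d) (hJ : 1 ≤ J)
    (hL : SemDeriv k (cubeAxioms d J) L) (hbot : Fm.bot ∈ L)
    (hsize : ∀ φ ∈ L, φ ∈ cubeAxioms d J ∨ φ.size ≤ S) :
    (2 : ℝ) ^ d ≤ 300000000 * ((k : ℝ) + 1) * ((S : ℝ) / (J : ℝ) ^ 2 + 1) *
      (Real.logb 2 L.length + d) := by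
  have hN1 : 1 ≤ L.length := by
    have := List.length_pos_of_mem hbot
    omega
  set N := L.length with hN
  have hNr : (1 : ℝ) ≤ (N : ℝ) := by exact_mod_cast hN1
  set ℓ := Real.logb 2 N with hℓ
  have hℓ0 : 0 ≤ ℓ := Real.logb_nonneg (by norm_num) hNr
  have hdr : (1 : ℝ) ≤ (d : ℝ) := by exact_mod_cast hd
  have hJr : (1 : ℝ) ≤ (J : ℝ) := by exact_mod_cast hJ
  have hSr : (0 : ℝ) ≤ (S : ℝ) := by positivity
  have hkr : (0 : ℝ) ≤ (k : ℝ) := by positivity
  set q : ℝ := (S : ℝ) / (J : ℝ) ^ 2 with hq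
  have hq0 : 0 ≤ q := by positivity
  have hqS : (S : ℝ) = q * (J : ℝ) ^ 2 := by
    rw [hq]
    field_simp
  set X : ℝ := (q + 1) * (ℓ + d) with hX
  have hℓd : 1 ≤ ℓ + d := by linarith
  have hX1 : 1 ≤ X := by
    rw [hX]
    nlinarith
  have h2d : (2 : ℝ) ^ d = 2 * 2 ^ (d - 1) := by
    rw [← pow_succ']
    congr 1
    omega
  have hmain : ∀ Y : ℝ, 0 ≤ Y → Y ≤ 45158400 * X → (2 : ℝ) ^ (d - 1) ≤ ((k : ℝ) + 3) * Y →
      (2 : ℝ) ^ d ≤ 300000000 * ((k : ℝ) + 1) * (q + 1) * (ℓ + d) := by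
    intro Y hY0 hY h
    have h1 : ((k : ℝ) + 3) * Y ≤ (3 * ((k : ℝ) + 1)) * (45158400 * X) :=
      mul_le_mul (by linarith) hY hY0 (by positivity)
    have h3 : 300000000 * ((k : ℝ) + 1) * (q + 1) * (ℓ + d) = 300000000 * (((k : ℝ) + 1) * X) := by
      rw [hX]
      ring
    have h4 : 0 ≤ ((k : ℝ) + 1) * X := by positivity
    rw [h3, h2d]
    nlinarith
  have h2dX : (2 * (d : ℝ)) ≤ 2 * X := by
    rw [hX]
    nlinarith
  by_cases hJs : J < 784
  · have h := core_small hd hJ hL hbot hsize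
    have h' : (2 : ℝ) ^ (d - 1) ≤ ((k : ℝ) + 3) * max (S : ℝ) (2 * d) := by
      exact_mod_cast h
    refine hmain _ (le_trans hSr (le_max_left _ _)) ?_ h'
    refine max_le ?_ (by linarith)
    have hJ2 : (J : ℝ) ^ 2 ≤ 784 ^ 2 := by
      have : (J : ℝ) ≤ 784 := by exact_mod_cast hJs.le
      exact pow_le_pow_left₀ (by positivity) this 2
    rw [hqS]
    have h1 : q * (J : ℝ) ^ 2 ≤ q * 784 ^ 2 := mul_le_mul_of_nonneg_left hJ2 hq0
    have h2 : q ≤ X := by
      rw [hX]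
      nlinarith
    nlinarith
  · push Not at hJs
    by_cases hR : (2 : ℝ) ^ d ≤ q + 1
    · have h3 : 300000000 * ((k : ℝ) + 1) * (q + 1) * (ℓ + d)
          = (300000000 * ((k : ℝ) + 1)) * ((q + 1) * (ℓ + d)) := by ring
      rw [h3]
      have h4 : (1 : ℝ) ≤ 300000000 * ((k : ℝ) + 1) := by linarith
      have h5 : (2 : ℝ) ^ d ≤ (q + 1) * (ℓ + d) := by nlinarith
      have h6 : 0 ≤ (q + 1) * (ℓ + d) := by positivity
      nlinarith
    · push Not at hR
      set a := J / 56 with ha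
      have ha14 : 14 ≤ a := by omega
      have h56 : 56 * a ≤ J := by omega
      have hJa : J ≤ 112 * a := by omega
      set s := a ^ 2 / 180 with hs
      have ha2 : 196 ≤ a ^ 2 := by nlinarith
      have hs1 : 1 ≤ s := by omega
      have hs180 : 180 * s ≤ a ^ 2 := by omega
      have hs360 : a ^ 2 ≤ 360 * s := by omega
      set m1 := S / (3 * s) + 1 with hm1
      set k0 := Nat.log 2 (192 * N * m1) with hk0
      have hm1pos : 1 ≤ m1 := Nat.le_add_left 1 _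
      have hpos : 192 * N * m1 ≠ 0 := by positivity
      have hlt : 192 * N * m1 < 2 ^ (k0 + 1) := Nat.lt_pow_succ_log_self (by norm_num) _
      have h := core (k := a - 1) (s := s) (k₀ := k0) hd (by omega) hs1 (by
        have : a - 1 + 1 = a := by omega
        rw [this]
        omega) hL hbot hsize (by
        have e : 3 * (L.length * (64 * (S / (3 * s) + 1))) = 192 * N * m1 := by
          rw [hm1, hN]
          ring
        rw [e]
        exact hlt)
      have h' : (2 : ℝ) ^ (d - 1) ≤ ((k : ℝ) + 3) * max ((m1 : ℝ) * k0) (2 * d) := by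
        exact_mod_cast h
      refine hmain _ (le_trans (by positivity) (le_max_left _ _)) ?_ h'
      refine max_le ?_ (by linarith)
      -- the bound on m1
      have hsr : (J : ℝ) ^ 2 ≤ 4515840 * s := by
        have h1 : (J : ℝ) ≤ 112 * a := by exact_mod_cast hJa
        have h2 : (a : ℝ) ^ 2 ≤ 360 * s := by exact_mod_cast hs360
        have h3 : (J : ℝ) ^ 2 ≤ (112 * a) ^ 2 := pow_le_pow_left₀ (by positivity) h1 2
        nlinarith
      have hs1r : (1 : ℝ) ≤ s := by exact_mod_cast hs1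
      have hm1r : (m1 : ℝ) ≤ 1505280 * (q + 1) := by
        have h1 : ((S / (3 * s) : ℕ) : ℝ) ≤ (S : ℝ) / ((3 * s : ℕ) : ℝ) := Nat.cast_div_le
        have h2 : (S : ℝ) / ((3 * s : ℕ) : ℝ) ≤ 1505280 * q := by
          rw [div_le_iff₀ (by positivity), hqS]
          push_cast
          have := mul_le_mul_of_nonneg_left hsr hq0
          nlinarith
        rw [hm1]
        push_cast at h1 h2 ⊢
        linarith
      have hm1r0 : (1 : ℝ) ≤ m1 := by exact_mod_cast hm1pos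
      -- the bound on k0
      have hk0r : (k0 : ℝ) ≤ 30 * (ℓ + d) := by
        have h1 : 2 ^ k0 ≤ 192 * N * m1 := Nat.pow_log_le_self 2 hpos
        have h2 : (2 : ℝ) ^ k0 ≤ 192 * N * m1 := by exact_mod_cast h1
        have h3 : (k0 : ℝ) ≤ Real.logb 2 (192 * N * m1) := by
          rw [Real.le_logb_iff_rpow_le (by norm_num) (by positivity), Real.rpow_natCast]
          exact h2
        have h4 : Real.logb 2 (192 * N * m1) ≤ 8 + ℓ + (21 + d) := by
          rw [Real.logb_mul (by positivity) (by positivity), Real.logb_mul (by norm_num)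
            (by positivity)]
          have h5 : Real.logb 2 192 ≤ 8 := by
            rw [Real.logb_le_iff_le_rpow (by norm_num) (by norm_num)]
            norm_num
          have h6 : Real.logb 2 (m1 : ℝ) ≤ 21 + d := by
            rw [Real.logb_le_iff_le_rpow (by norm_num) (by positivity),
              Real.rpow_add (by norm_num), Real.rpow_natCast]
            have h7 : (2 : ℝ) ^ (21 : ℝ) = 2097152 := by norm_num
            rw [h7]
            nlinarith
          linarith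
        linarith
      have h8 : (m1 : ℝ) * k0 ≤ (1505280 * (q + 1)) * (30 * (ℓ + d)) :=
        mul_le_mul hm1r hk0r (by positivity) (by positivity)
      rw [hX]
      nlinarith

lemma growth {r : ℝ} (hr : 0 < r) (K : ℝ) : ∃ d₀ : ℕ, 1 ≤ d₀ ∧ ∀ d : ℕ, d₀ ≤ d →
    K * (d : ℝ) ^ 3 < (2 : ℝ) ^ (r * d) := by
  have h1 : (1 : ℝ) < 2 ^ r := Real.one_lt_rpow (by norm_num) hr
  have h := tendsto_pow_const_div_const_pow_of_one_lt 3 h1
  have hK : (0 : ℝ) < 1 / (|K| + 1) := by positivity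
  obtain ⟨d₀, hd₀⟩ := Filter.eventually_atTop.mp (h.eventually (gt_mem_nhds hK))
  refine ⟨max 1 d₀, le_max_left _ _, fun d hd => ?_⟩
  have h2 := hd₀ d ((le_max_right _ _).trans hd)
  have hpow : (0 : ℝ) < ((2 : ℝ) ^ r) ^ d := by positivity
  rw [div_lt_div_iff₀ hpow (by positivity), one_mul] at h2
  rw [Real.rpow_mul (by norm_num), Real.rpow_natCast]
  have h3 : K * (d : ℝ) ^ 3 ≤ (d : ℝ) ^ 3 * (|K| + 1) := by
    have : (0 : ℝ) ≤ (d : ℝ) ^ 3 := by positivity
    nlinarith [le_abs_self K]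
  linarith

lemma SemDeriv.mono {α : Type} {k k' : ℕ} (h : k ≤ k') {Γ L : List (Fm α)}
    (hL : SemDeriv k Γ L) : SemDeriv k' Γ L := by
  induction hL with
  | nil => exact .nil
  | hyp _ hφ ih => exact ih.hyp hφ
  | step P _ hlen hP himp ih => exact ih.step P (hlen.trans h) hP himp

/-- The threshold for Frege systems. -/
theorem threshold (ε : ℝ) (h0 : 0 < ε) (h1 : ε < 1) :
    ∃ (q : ℕ) (δ : ℝ), 0 < δ ∧ ∀ (F : FregeSystem) (κ : ℕ), ∃ c d₀ : ℕ, ∀ d : ℕ, d₀ ≤ d →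
      (∀ φ ∈ cubeAxioms d (2 ^ (q * d)),
        (φ.size : ℝ) ≤ (Fintype.card (TVar d (2 ^ (q * d))) : ℝ) ^ (2 - ε)) ∧
      (∃ L, IsDeriv F.rules (cubeAxioms d (2 ^ (q * d))) L ∧ Fm.bot ∈ L ∧
        L.length ≤ c * Fintype.card (TVar d (2 ^ (q * d))) ^ 3 ∧
        ∀ φ ∈ L, φ.size ≤ c * Fintype.card (TVar d (2 ^ (q * d))) ^ 2) ∧
      (∀ L, IsDeriv F.rules (cubeAxioms d (2 ^ (q * d))) L ∨
          SemDeriv κ (cubeAxioms d (2 ^ (q * d))) L → Fm.bot ∈ L →
        (∀ φ ∈ L, (φ.size : ℝ) ≤ (Fintype.card (TVar d (2 ^ (q * d))) : ℝ) ^ (2 - ε)) →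
        (2 : ℝ) ^ ((Fintype.card (TVar d (2 ^ (q * d))) : ℝ) ^ δ) < L.length) := by
  set q := ⌊1 / ε⌋₊ with hq
  have hq1 : (q : ℝ) ≤ 1 / ε := Nat.floor_le (by positivity)
  have hq2 : 1 / ε < (q : ℝ) + 1 := Nat.lt_floor_add_one _
  have hq1' : (q : ℝ) * ε ≤ 1 := by
    rwa [le_div_iff₀ h0] at hq1
  have hq2' : 1 < ((q : ℝ) + 1) * ε := by
    rwa [div_lt_iff₀ h0] at hq2
  set γ : ℝ := 2 - ((q : ℝ) + 1) * ε with hγ
  have hγ0 : 0 < γ := by
    rw [hγ]
    nlinarith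
  have hγ1 : γ < 1 := by
    rw [hγ]
    linarith
  have hq0 : (0 : ℝ) < (q : ℝ) + 1 := by positivity
  set δ : ℝ := (1 - γ) / (4 * ((q : ℝ) + 1)) with hδ
  have hδ0 : 0 < δ := div_pos (by linarith) (by positivity)
  refine ⟨q, δ, hδ0, fun F κ => ?_⟩
  -- the maximal number of premises
  obtain ⟨k, hk, hκk⟩ : ∃ k : ℕ, (∀ r ∈ F.rules, r.prem.length ≤ k) ∧ κ ≤ k := by
    refine ⟨(F.rules.map fun r => r.prem.length).sum + κ, fun r hr => ?_, Nat.le_add_left _ _⟩
    exact (List.single_le_sum (by simp) _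
      (List.mem_map_of_mem (f := fun r => r.prem.length) hr)).trans (Nat.le_add_right _ _)
  obtain ⟨d₁, hd₁, hg₁⟩ := growth hγ0 48
  obtain ⟨d₂, hd₂, hg₂⟩ := growth (r := (1 - γ) / 2) (by linarith)
    (1200000000 * ((k : ℝ) + 1))
  refine ⟨250 * F.K, max d₁ d₂, fun d hd => ?_⟩
  have hdd₁ : d₁ ≤ d := (le_max_left _ _).trans hd
  have hdd₂ : d₂ ≤ d := (le_max_right _ _).trans hd
  have hd1 : 1 ≤ d := hd₁.trans hdd₁
  have hdr : (1 : ℝ) ≤ (d : ℝ) := by exact_mod_cast hd1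
  set J := 2 ^ (q * d) with hJdef
  have hJ1 : 1 ≤ J := Nat.one_le_two_pow
  have hcard : Fintype.card (TVar d J) = 2 ^ d * d * J := by simp
  set n := Fintype.card (TVar d J) with hn
  have hnr : (n : ℝ) = (d : ℝ) * (2 : ℝ) ^ (((q : ℝ) + 1) * d) := by
    rw [hcard, hJdef]
    push_cast
    have e1 : (2 : ℝ) ^ (((q : ℝ) + 1) * d) = 2 ^ (q * d) * 2 ^ d := by
      rw [add_mul, one_mul, Real.rpow_add (by norm_num), ← Nat.cast_mul, Real.rpow_natCast,
        Real.rpow_natCast]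
    rw [e1]
    ring
  have hJr : ((J : ℕ) : ℝ) ^ 2 = (2 : ℝ) ^ (2 * (q : ℝ) * d) := by
    rw [hJdef]
    push_cast
    rw [← pow_mul, ← Real.rpow_natCast]
    congr 1
    push_cast
    ring
  have hnpow : (n : ℝ) ^ (2 - ε) = (d : ℝ) ^ (2 - ε) * (2 : ℝ) ^ (γ * d) * ((J : ℕ) : ℝ) ^ 2 := by
    have e : (2 : ℝ) ^ (((q : ℝ) + 1) * d * (2 - ε))
        = (2 : ℝ) ^ (γ * d) * (2 : ℝ) ^ (2 * (q : ℝ) * d) := by
      rw [← Real.rpow_add (by norm_num)]
      congr 1
      rw [hγ]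
      ring
    rw [hnr, Real.mul_rpow (by positivity) (by positivity), ← Real.rpow_mul (by norm_num), hJr, e]
    ring
  have hdlo : (1 : ℝ) ≤ (d : ℝ) ^ (2 - ε) := Real.one_le_rpow hdr (by linarith)
  have hdhi : (d : ℝ) ^ (2 - ε) ≤ (d : ℝ) ^ 2 := by
    rw [← Real.rpow_two]
    exact Real.rpow_le_rpow_of_exponent_le hdr (by linarith)
  refine ⟨?_, ?_, ?_⟩
  · intro φ hφ
    obtain ⟨u, _, rfl⟩ := List.mem_map.mp hφ
    have hs := size_vertexAx hd1 hJ1 u
    have hs' : ((vertexAx d J u).size : ℝ) ≤ 48 * ((d : ℝ) * J) ^ 2 := by exact_mod_cast hs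
    refine hs'.trans ?_
    rw [hnpow]
    have h2 := hg₁ d hdd₁
    have hd23 : (d : ℝ) ^ 2 ≤ (d : ℝ) ^ 3 := pow_le_pow_right₀ hdr (by norm_num)
    have h3 : 48 * (d : ℝ) ^ 2 ≤ (d : ℝ) ^ (2 - ε) * (2 : ℝ) ^ (γ * d) := by
      have h4 : (0 : ℝ) < (2 : ℝ) ^ (γ * d) := by positivity
      nlinarith
    calc 48 * ((d : ℝ) * J) ^ 2 = (48 * (d : ℝ) ^ 2) * ((J : ℕ) : ℝ) ^ 2 := by ring
      _ ≤ _ := mul_le_mul_of_nonneg_right h3 (by positivity)
  · obtain ⟨L, a, b, c, e⟩ := upper F hd1 hJ1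
    refine ⟨L, a, b, ?_, ?_⟩
    · rw [hcard]
      exact c
    · intro φ hφ
      rw [hcard]
      exact e φ hφ
  · intro L hL hbot hsize
    by_contra hcon
    push Not at hcon
    have hsem : SemDeriv k (cubeAxioms d J) L := by
      rcases hL with hL | hL
      · exact semDeriv_of_isDeriv hk F.sound hL
      · exact SemDeriv.mono hκk hL
    set S := ⌊(n : ℝ) ^ (2 - ε)⌋₊ with hS
    have hA := tradeoff k d J S L hd1 hJ1 hsem hbot fun φ hφ => Or.inr (Nat.le_floor (hsize φ hφ))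
    have hN1 : 1 ≤ L.length := by
      have := List.length_pos_of_mem hbot
      omega
    have hNr : (1 : ℝ) ≤ (L.length : ℝ) := by exact_mod_cast hN1
    have hlog : Real.logb 2 L.length ≤ (n : ℝ) ^ δ := by
      rw [Real.logb_le_iff_le_rpow (by norm_num) (by linarith)]
      exact hcon
    have hJpos : (0 : ℝ) < ((J : ℕ) : ℝ) ^ 2 := by positivity
    have hSJ : (S : ℝ) / ((J : ℕ) : ℝ) ^ 2 ≤ (d : ℝ) ^ 2 * (2 : ℝ) ^ (γ * d) := by
      rw [div_le_iff₀ hJpos]
      refine (Nat.floor_le (by positivity)).trans ?_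
      rw [hnpow]
      exact mul_le_mul_of_nonneg_right (mul_le_mul_of_nonneg_right hdhi (by positivity))
        (by positivity)
    have hnδ : (n : ℝ) ^ δ ≤ (2 : ℝ) ^ ((1 - γ) / 2 * d) := by
      have hd2 : (d : ℝ) ≤ (2 : ℝ) ^ (((q : ℝ) + 1) * d) := by
        have h2 : (d : ℝ) ≤ (2 : ℝ) ^ (d : ℝ) := by
          rw [Real.rpow_natCast]
          exact_mod_cast Nat.lt_two_pow_self.le
        refine h2.trans (Real.rpow_le_rpow_of_exponent_le (by norm_num) ?_)
        nlinarith [Nat.cast_nonneg (α := ℝ) q]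
      have h3 : (n : ℝ) ≤ (2 : ℝ) ^ (2 * ((q : ℝ) + 1) * d) := by
        rw [hnr]
        have e : (2 : ℝ) ^ (2 * ((q : ℝ) + 1) * d)
            = (2 : ℝ) ^ (((q : ℝ) + 1) * d) * (2 : ℝ) ^ (((q : ℝ) + 1) * d) := by
          rw [← Real.rpow_add (by norm_num)]
          congr 1
          ring
        rw [e]
        exact mul_le_mul_of_nonneg_right hd2 (by positivity)
      calc (n : ℝ) ^ δ ≤ ((2 : ℝ) ^ (2 * ((q : ℝ) + 1) * d)) ^ δ :=
            Real.rpow_le_rpow (by positivity) h3 hδ0.le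
        _ = (2 : ℝ) ^ ((1 - γ) / 2 * d) := by
            rw [← Real.rpow_mul (by norm_num)]
            congr 1
            rw [hδ]
            field_simp
            ring
    -- put everything together
    set A : ℝ := (2 : ℝ) ^ (γ * d) with hAdef
    set B : ℝ := (2 : ℝ) ^ ((1 - γ) / 2 * d) with hBdef
    have hA1 : 1 ≤ A := Real.one_le_rpow (by norm_num) (by positivity)
    have hB1 : 1 ≤ B := Real.one_le_rpow (by norm_num) (by
      have : 0 ≤ (1 - γ) / 2 := by linarith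
      positivity)
    have hAB : A * B * B = (2 : ℝ) ^ d := by
      rw [hAdef, hBdef, ← Real.rpow_add (by norm_num), ← Real.rpow_add (by norm_num),
        ← Real.rpow_natCast]
      congr 1
      ring
    have hk1 : (0 : ℝ) < (k : ℝ) + 1 := by positivity
    have hd21 : (1 : ℝ) ≤ (d : ℝ) ^ 2 := one_le_pow₀ hdr
    have hf1 : (S : ℝ) / ((J : ℕ) : ℝ) ^ 2 + 1 ≤ 2 * (d : ℝ) ^ 2 * A := by nlinarith
    have hf2 : Real.logb 2 L.length + d ≤ 2 * d * B := by nlinarith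
    have hf20 : 0 ≤ Real.logb 2 L.length + d := by
      have := Real.logb_nonneg (b := 2) (by norm_num) hNr
      linarith
    have hf3 : (2 : ℝ) ^ d ≤ 300000000 * ((k : ℝ) + 1) * (2 * (d : ℝ) ^ 2 * A) * (2 * d * B) := by
      refine hA.trans ?_
      refine mul_le_mul ?_ hf2 hf20 (by positivity)
      exact mul_le_mul_of_nonneg_left hf1 (by positivity)
    have hf4 := hg₂ d hdd₂
    have hf5 : 300000000 * ((k : ℝ) + 1) * (2 * (d : ℝ) ^ 2 * A) * (2 * d * B)
        = (1200000000 * ((k : ℝ) + 1) * (d : ℝ) ^ 3) * (A * B) := by ring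
    rw [hf5, ← hAB] at hf3
    have hf6 : (1200000000 * ((k : ℝ) + 1) * (d : ℝ) ^ 3) * (A * B) < B * (A * B) :=
      mul_lt_mul_of_pos_right hf4 (by positivity)
    have hf7 : A * B * B = B * (A * B) := by ring
    linarith

end LineSize
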