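import Pool.Agent.Work.MP_c07f0d_lc.Defs
import Mathlib.Data.Fintype.Pi
import Mathlib.Data.Fintype.Prod
import Mathlib.Data.List.FinRange
import Mathlib.Data.Nat.Log

/-!
# The parity contradictions on the hypercube with `J` parallel edges

The vertices are the points `u` of the hypercube `{0,1}^d`.  The edges are the pairs `(u, i)`;
the edge `(u, i)` joins `u` to the vertex `flip u i` obtained by changing the `i`-th coordinate of
`u` (hence there are two edges between neighbouring vertices).  Every edge `e` carries `J`
propositional variables `(e, j)`, so that there are `2 ^ d * d * J` variables.  The constraint of a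
vertex `u` says that the sum modulo 2 of all `2 d J` variables on the edges at `u` is `1` if `u` is
the zero vertex, and `0` otherwise.  As every variable occurs in exactly two constraints, the
constraints are contradictory.
-/

namespace LineSize

open FregeEF

/-- The variables. -/
abbrev TVar (d J : ℕ) : Type := ((Fin d → Bool) × Fin d) × Fin J

/-- The neighbour of `u` in direction `i`. -/
def flip {d : ℕ} (u : Fin d → Bool) (i : Fin d) : Fin d → Bool := Function.update u i (!(u i))

/-- The list of the `2 d J` variables on the edges at the vertex `u`. -/
def star (d J : ℕ) (u : Fin d → Bool) : List (TVar d J) :=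
  (List.finRange d).flatMap fun i => (List.finRange J).flatMap fun j =>
    [((u, i), j), ((flip u i, i), j)]

/-- The exclusive or of two formulas. -/
def xor2 {α : Type} (φ ψ : Fm α) : Fm α := .or (.and φ (.neg ψ)) (.and (.neg φ) ψ)

/-- The exclusive or of a list of at most `2 ^ k` formulas, by repeated halving. -/
def xorList {α : Type} : ℕ → List (Fm α) → Fm α
  | 0, l => l.headD .bot
  | k + 1, l => xor2 (xorList k (l.take (2 ^ k))) (xorList k (l.drop (2 ^ k)))

/-- The balanced formula for the parity of a list of formulas. -/
def parity {α : Type} (l : List (Fm α)) : Fm α := xorList (Nat.clog 2 l.length) l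

/-- The constraint of the vertex `u`. -/
def vertexAx (d J : ℕ) (u : Fin d → Bool) : Fm (TVar d J) :=
  if u = fun _ => false then parity ((star d J u).map Fm.var)
  else .neg (parity ((star d J u).map Fm.var))

/-- The contradictory list of all constraints. -/
noncomputable def cubeAxioms (d J : ℕ) : List (Fm (TVar d J)) :=
  (Finset.univ : Finset (Fin d → Bool)).toList.map (vertexAx d J)

/-- `SemDeriv k Γ L`: the list of lines `L`, read from its last entry to its first entry, is a
semantic derivation of fan-in at most `k` from `Γ`: every line is a member of `Γ`, or is logically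
implied by at most `k` earlier lines. -/
inductive SemDeriv {α : Type} (k : ℕ) (Γ : List (Fm α)) : List (Fm α) → Prop
  | nil : SemDeriv k Γ []
  | hyp {L : List (Fm α)} {φ : Fm α} : SemDeriv k Γ L → φ ∈ Γ → SemDeriv k Γ (φ :: L)
  | step {L : List (Fm α)} {φ : Fm α} (P : List (Fm α)) : SemDeriv k Γ L → P.length ≤ k →
      (∀ ψ ∈ P, ψ ∈ L) → (∀ v : α → Prop, (∀ ψ ∈ P, ψ.eval v) → φ.eval v) →
      SemDeriv k Γ (φ :: L)

end LineSize
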