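import Pool.Agent.Work.MP_c07f0d_lc.LS.Tree

/-!
# Real span programs of formulas
-/

set_option linter.unusedSectionVars false

namespace LineSize

open Finset

/-- A witness in `A` for the input `x`: it vanishes on the leaves with value `b`. -/
def Wit {ι Λ : Type} [Fintype Λ] (ℓ : Λ → Lit ι) (A : Submodule ℝ (Option Λ → ℝ))
    (x : ι → Bool) (b : Bool) (c : ℝ) : Prop :=
  ∃ u ∈ A, u none = 1 ∧ (∀ l, (ℓ l).ev x = b → u (some l) = 0) ∧ ∑ l, u (some l) ^ 2 ≤ c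

section

variable {ι Λ₁ Λ₂ : Type} [Fintype Λ₁] [Fintype Λ₂]

/-- Joining two vectors, adding the distinguished coordinates. -/
def join (a : Option Λ₁ → ℝ) (b : Option Λ₂ → ℝ) : Option (Λ₁ ⊕ Λ₂) → ℝ
  | none => a none + b none
  | some (.inl l) => a (some l)
  | some (.inr l) => b (some l)

/-- The sum space. -/
def sumSp (A₁ : Submodule ℝ (Option Λ₁ → ℝ)) (A₂ : Submodule ℝ (Option Λ₂ → ℝ)) :
    Submodule ℝ (Option (Λ₁ ⊕ Λ₂) → ℝ) where
  carrier := {u | ∃ a ∈ A₁, ∃ b ∈ A₂, u = join a b}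
  zero_mem' := ⟨0, A₁.zero_mem, 0, A₂.zero_mem, by
    funext o
    rcases o with _ | (l | l) <;> simp [join]⟩
  add_mem' := by
    rintro _ _ ⟨a, ha, b, hb, rfl⟩ ⟨a', ha', b', hb', rfl⟩
    refine ⟨a + a', A₁.add_mem ha ha', b + b', A₂.add_mem hb hb', ?_⟩
    funext o
    rcases o with _ | (l | l)
    · simp only [join, Pi.add_apply]
      ring
    · simp [join]
    · simp [join]
  smul_mem' := by
    rintro r _ ⟨a, ha, b, hb, rfl⟩
    refine ⟨r • a, A₁.smul_mem r ha, r • b, A₂.smul_mem r hb, ?_⟩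
    funext o
    rcases o with _ | (l | l)
    · simp only [join, Pi.smul_apply, smul_eq_mul]
      ring
    · simp [join]
    · simp [join]

/-- The glued space. -/
def glueSp (A₁ : Submodule ℝ (Option Λ₁ → ℝ)) (A₂ : Submodule ℝ (Option Λ₂ → ℝ)) :
    Submodule ℝ (Option (Λ₁ ⊕ Λ₂) → ℝ) :=
  A₁.comap (LinearMap.funLeft ℝ ℝ (Option.map Sum.inl)) ⊓
    A₂.comap (LinearMap.funLeft ℝ ℝ (Option.map Sum.inr))

lemma mem_glueSp {A₁ : Submodule ℝ (Option Λ₁ → ℝ)} {A₂ : Submodule ℝ (Option Λ₂ → ℝ)}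
    {w : Option (Λ₁ ⊕ Λ₂) → ℝ} :
    w ∈ glueSp A₁ A₂ ↔ (fun o => w (Option.map Sum.inl o)) ∈ A₁ ∧
      (fun o => w (Option.map Sum.inr o)) ∈ A₂ := Iff.rfl

lemma sum_join (a : Option Λ₁ → ℝ) (b : Option Λ₂ → ℝ) (w : Option (Λ₁ ⊕ Λ₂) → ℝ) :
    ∑ o, join a b o * w o = ∑ o, a o * w (Option.map Sum.inl o)
      + ∑ o, b o * w (Option.map Sum.inr o) := by
  simp only [Fintype.sum_option, Fintype.sum_sum_type, join, Option.map_none, Option.map_some]
  ring

lemma orth_sum_glue {A₁ B₁ : Submodule ℝ (Option Λ₁ → ℝ)} {A₂ B₂ : Submodule ℝ (Option Λ₂ → ℝ)}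
    (h₁ : ∀ a ∈ A₁, ∀ b ∈ B₁, ∑ o, a o * b o = 0) (h₂ : ∀ a ∈ A₂, ∀ b ∈ B₂, ∑ o, a o * b o = 0) :
    ∀ a ∈ sumSp A₁ A₂, ∀ b ∈ glueSp B₁ B₂, ∑ o, a o * b o = 0 := by
  rintro _ ⟨a, ha, a', ha', rfl⟩ w hw
  rw [mem_glueSp] at hw
  rw [sum_join, h₁ a ha _ hw.1, h₂ a' ha' _ hw.2, add_zero]

variable {ℓ₁ : Λ₁ → Lit ι} {ℓ₂ : Λ₂ → Lit ι} {A₁ : Submodule ℝ (Option Λ₁ → ℝ)}
  {A₂ : Submodule ℝ (Option Λ₂ → ℝ)} {x : ι → Bool} {b : Bool} {c c₁ c₂ : ℝ}

lemma Wit.left (h : Wit ℓ₁ A₁ x b c) : Wit (Sum.elim ℓ₁ ℓ₂) (sumSp A₁ A₂) x b c := by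
  obtain ⟨u, hu, h0, h1, h2⟩ := h
  refine ⟨join u 0, ⟨u, hu, 0, A₂.zero_mem, rfl⟩, by simp [join, h0], ?_, ?_⟩
  · rintro (l | l) hl
    · exact h1 l hl
    · rfl
  · rw [Fintype.sum_sum_type]
    simpa [join] using h2

lemma Wit.right (h : Wit ℓ₂ A₂ x b c) : Wit (Sum.elim ℓ₁ ℓ₂) (sumSp A₁ A₂) x b c := by
  obtain ⟨u, hu, h0, h1, h2⟩ := h
  refine ⟨join 0 u, ⟨0, A₁.zero_mem, u, hu, rfl⟩, by simp [join, h0], ?_, ?_⟩
  · rintro (l | l) hl
    · rfl
    · exact h1 l hl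
  · rw [Fintype.sum_sum_type]
    simpa [join] using h2

lemma Wit.glue (h₁ : Wit ℓ₁ A₁ x b c₁) (h₂ : Wit ℓ₂ A₂ x b c₂) :
    Wit (Sum.elim ℓ₁ ℓ₂) (glueSp A₁ A₂) x b (c₁ + c₂) := by
  obtain ⟨u, hu, h0, h1, h2⟩ := h₁
  obtain ⟨v, hv, k0, k1, k2⟩ := h₂
  let w : Option (Λ₁ ⊕ Λ₂) → ℝ := fun o => match o with
    | none => 1
    | some (.inl l) => u (some l)
    | some (.inr l) => v (some l)
  have hwl : (fun o => w (Option.map Sum.inl o)) = u := by
    funext o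
    cases o with
    | none => exact h0.symm
    | some l => rfl
  have hwr : (fun o => w (Option.map Sum.inr o)) = v := by
    funext o
    cases o with
    | none => exact k0.symm
    | some l => rfl
  refine ⟨w, ?_, rfl, ?_, ?_⟩
  · rw [mem_glueSp, hwl, hwr]
    exact ⟨hu, hv⟩
  · rintro (l | l) hl
    · exact h1 l hl
    · exact k1 l hl
  · rw [Fintype.sum_sum_type]
    exact add_le_add h2 k2

end

/-- The span program of a formula. -/
theorem span_program {ι : Type} (T : Tr ι) : ∀ t : ℝ, 0 < t →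
    ∃ (Λ : Type) (_ : Fintype Λ) (_ : DecidableEq Λ) (ℓ : Λ → Lit ι)
      (A B : Submodule ℝ (Option Λ → ℝ)),
      (∀ a ∈ A, ∀ b ∈ B, ∑ o, a o * b o = 0) ∧
      (∀ x, T.ev x = true → Wit ℓ A x false t) ∧
      (∀ x, T.ev x = false → Wit ℓ B x true (T.leaves / t)) := by
  induction T with
  | leaf l =>
    intro t ht
    have hs : 0 < Real.sqrt t := Real.sqrt_pos.mpr ht
    have hss : Real.sqrt t * Real.sqrt t = t := Real.mul_self_sqrt ht.le
    let a : Option Unit → ℝ := fun o => o.elim 1 fun _ => Real.sqrt t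
    let b : Option Unit → ℝ := fun o => o.elim 1 fun _ => - (Real.sqrt t)⁻¹
    refine ⟨Unit, inferInstance, inferInstance, fun _ => l, Submodule.span ℝ {a},
      Submodule.span ℝ {b}, ?_, ?_, ?_⟩
    · intro u hu v hv
      obtain ⟨r, rfl⟩ := Submodule.mem_span_singleton.mp hu
      obtain ⟨q, rfl⟩ := Submodule.mem_span_singleton.mp hv
      simp only [Fintype.sum_option, Finset.univ_unique, Finset.sum_singleton, Pi.smul_apply,
        smul_eq_mul, a, b, Option.elim_none, Option.elim_some]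
      field_simp
      ring
    · intro x hx
      refine ⟨a, Submodule.mem_span_singleton_self a, rfl, ?_, ?_⟩
      · intro _ h
        simp only [Tr.ev] at hx
        rw [hx] at h
        exact Bool.noConfusion h
      · simp only [Finset.univ_unique, Finset.sum_singleton, a, Option.elim_some]
        rw [pow_two, hss]
    · intro x hx
      refine ⟨b, Submodule.mem_span_singleton_self b, rfl, ?_, ?_⟩
      · intro _ h
        simp only [Tr.ev] at hx
        rw [hx] at h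
        exact Bool.noConfusion h
      · simp only [Finset.univ_unique, Finset.sum_singleton, b, Option.elim_some, Tr.leaves]
        rw [neg_sq, inv_pow, pow_two, hss]
        simp
  | and T₁ T₂ ih₁ ih₂ =>
    intro t ht
    have hL₁ : (0 : ℝ) < T₁.leaves := by exact_mod_cast T₁.one_le_leaves
    have hL₂ : (0 : ℝ) < T₂.leaves := by exact_mod_cast T₂.one_le_leaves
    have hL : (0 : ℝ) < T₁.leaves + T₂.leaves := by linarith
    obtain ⟨Λ₁, _, _, ℓ₁, A₁, B₁, o₁, p₁, n₁⟩ := ih₁ (t * T₁.leaves / (T₁.leaves + T₂.leaves))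
      (by positivity)
    obtain ⟨Λ₂, _, _, ℓ₂, A₂, B₂, o₂, p₂, n₂⟩ := ih₂ (t * T₂.leaves / (T₁.leaves + T₂.leaves))
      (by positivity)
    refine ⟨Λ₁ ⊕ Λ₂, inferInstance, inferInstance, Sum.elim ℓ₁ ℓ₂, glueSp A₁ A₂, sumSp B₁ B₂,
      ?_, ?_, ?_⟩
    · intro a ha b hb
      rw [← orth_sum_glue (A₁ := B₁) (A₂ := B₂) (fun b hb a ha => ?_) (fun b hb a ha => ?_) b hb a
        ha]
      · exact Finset.sum_congr rfl fun _ _ => mul_comm _ _
      · rw [← o₁ a ha b hb]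
        exact Finset.sum_congr rfl fun _ _ => mul_comm _ _
      · rw [← o₂ a ha b hb]
        exact Finset.sum_congr rfl fun _ _ => mul_comm _ _
    · intro x hx
      simp only [Tr.ev, Bool.and_eq_true] at hx
      have h := (p₁ x hx.1).glue (p₂ x hx.2)
      have e : t * T₁.leaves / (T₁.leaves + T₂.leaves) + t * T₂.leaves / (T₁.leaves + T₂.leaves)
          = t := by
        field_simp
      rwa [e] at h
    · intro x hx
      simp only [Tr.ev, Bool.and_eq_false_iff] at hx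
      have hc : ((Tr.and T₁ T₂).leaves : ℝ) = T₁.leaves + T₂.leaves := by
        simp [Tr.leaves]
      rw [hc]
      rcases hx with hx | hx
      · have h := (n₁ x hx).left (ℓ₂ := ℓ₂) (A₂ := B₂)
        have e : (T₁.leaves : ℝ) / (t * T₁.leaves / (T₁.leaves + T₂.leaves))
            = (T₁.leaves + T₂.leaves) / t := by
          field_simp
        rwa [e] at h
      · have h := (n₂ x hx).right (ℓ₁ := ℓ₁) (A₁ := B₁)
        have e : (T₂.leaves : ℝ) / (t * T₂.leaves / (T₁.leaves + T₂.leaves))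
            = (T₁.leaves + T₂.leaves) / t := by
          field_simp
        rwa [e] at h
  | or T₁ T₂ ih₁ ih₂ =>
    intro t ht
    obtain ⟨Λ₁, _, _, ℓ₁, A₁, B₁, o₁, p₁, n₁⟩ := ih₁ t ht
    obtain ⟨Λ₂, _, _, ℓ₂, A₂, B₂, o₂, p₂, n₂⟩ := ih₂ t ht
    refine ⟨Λ₁ ⊕ Λ₂, inferInstance, inferInstance, Sum.elim ℓ₁ ℓ₂, sumSp A₁ A₂, glueSp B₁ B₂,
      orth_sum_glue o₁ o₂, ?_, ?_⟩
    · intro x hx
      simp only [Tr.ev, Bool.or_eq_true] at hx
      rcases hx with hx | hx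
      · exact (p₁ x hx).left
      · exact (p₂ x hx).right
    · intro x hx
      simp only [Tr.ev, Bool.or_eq_false_iff] at hx
      have h := (n₁ x hx.1).glue (n₂ x hx.2)
      have e : (T₁.leaves : ℝ) / t + T₂.leaves / t = ((Tr.or T₁ T₂).leaves : ℝ) / t := by
        simp only [Tr.leaves]
        push_cast
        ring
      rwa [e] at h

end LineSize
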