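import Pool.Agent.Work.MP_c07f0d_lc.LS.Walsh

/-!
# Formulas in negation normal form and their decomposition into small pieces
-/

set_option linter.unusedSectionVars false

namespace LineSize

open Finset

/-- Literals and constants. -/
inductive Lit (ι : Type) : Type
  | pos : ι → Lit ι
  | neg : ι → Lit ι
  | cst : Bool → Lit ι

/-- The value of a literal. -/
def Lit.ev {ι : Type} (x : ι → Bool) : Lit ι → Bool
  | .pos i => x i
  | .neg i => !(x i)
  | .cst b => b

/-- Formulas in negation normal form. -/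
inductive Tr (ι : Type) : Type
  | leaf : Lit ι → Tr ι
  | and : Tr ι → Tr ι → Tr ι
  | or : Tr ι → Tr ι → Tr ι

namespace Tr

variable {ι : Type}

/-- The number of leaves. -/
def leaves : Tr ι → ℕ
  | leaf _ => 1
  | and a b => a.leaves + b.leaves
  | or a b => a.leaves + b.leaves

/-- The value of a formula. -/
def ev (x : ι → Bool) : Tr ι → Bool
  | leaf l => l.ev x
  | and a b => a.ev x && b.ev x
  | or a b => a.ev x || b.ev x

lemma one_le_leaves (T : Tr ι) : 1 ≤ T.leaves := by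
  induction T with
  | leaf l => exact le_rfl
  | and a b iha ihb => simp only [leaves]; omega
  | or a b iha ihb => simp only [leaves]; omega

end Tr

/-- The real value of a bit. -/
def bv (b : Bool) : ℝ := if b then 1 else 0

lemma bv_int (b : Bool) : ∃ z : ℤ, bv b = z := by
  cases b
  · exact ⟨0, by simp [bv]⟩
  · exact ⟨1, by simp [bv]⟩

lemma bv_eq (b : Bool) : bv b = (1 - sg b) / 2 := by
  cases b <;> simp [bv, sg]

lemma bv_not (b : Bool) : bv (!b) = 1 - bv b := by
  cases b <;> simp [bv]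

lemma bv_and (a b : Bool) : bv (a && b) = bv a * bv b := by
  cases a <;> cases b <;> simp [bv]

section

variable {ι : Type} [Fintype ι] [DecidableEq ι]

lemma lowDeg_coord (i : ι) : LowDeg 1 (fun x : ι → Bool => bv (x i)) := by
  have h : (fun x : ι → Bool => bv (x i)) = fun x => (1 / 2 : ℝ) - (1 / 2 : ℝ) * chi {i} x := by
    funext x
    rw [bv_eq]
    simp [chi]
    ring
  rw [h]
  exact (LowDeg.const 1 _).sub (LowDeg.const_mul _ (LowDeg.chi {i}))

lemma lowDeg_lit (l : Lit ι) : LowDeg 1 (fun x : ι → Bool => bv (l.ev x)) := by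
  cases l with
  | pos i => exact lowDeg_coord i
  | neg i =>
    simp only [Lit.ev, bv_not]
    exact (LowDeg.const 1 _).sub (lowDeg_coord i)
  | cst b => exact LowDeg.const (ι := ι) 1 (bv b)

end

/-- Expansion of a composition. -/
lemma lowDeg_comp {E : Type} [Fintype E] [DecidableEq E] {κ : Type} [Fintype κ] [DecidableEq κ]
    (R : (κ → Bool) → (E → Bool) → Bool) (g : κ → (E → Bool) → Bool) {k : ℕ} {d : κ → ℕ}
    (hR : ∀ a, LowDeg k (fun y => bv (R a y))) (hg : ∀ i, LowDeg (d i) (fun y => bv (g i y))) :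
    LowDeg (k + ∑ i, d i) (fun y => bv (R (fun i => g i y) y)) := by
  have h : (fun y => bv (R (fun i => g i y) y))
      = fun y => ∑ a : κ → Bool, bv (R a y) *
        ∏ i, (if a i then bv (g i y) else 1 - bv (g i y)) := by
    funext y
    rw [Finset.sum_eq_single (fun i => g i y)]
    · have : ∏ i : κ, (if g i y then bv (g i y) else 1 - bv (g i y)) = 1 := by
        refine Finset.prod_eq_one fun i _ => ?_
        cases h : g i y <;> simp [bv]
      rw [this, mul_one]
    · intro a _ ha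
      obtain ⟨i, hi⟩ := Function.ne_iff.mp ha
      have : ∏ i, (if a i then bv (g i y) else 1 - bv (g i y)) = 0 := by
        apply Finset.prod_eq_zero (Finset.mem_univ i)
        cases h1 : a i <;> cases h2 : g i y <;> simp_all [bv]
      rw [this, mul_zero]
    · intro h
      exact absurd (Finset.mem_univ _) h
  rw [h]
  refine LowDeg.sum fun a _ => (hR a).mul ?_
  refine LowDeg.prod (f := fun i y => if a i then bv (g i y) else 1 - bv (g i y))
    (s := Finset.univ) fun i _ => ?_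
  cases a i
  · simpa using (LowDeg.const (d i) 1).sub (hg i)
  · simpa using hg i

/-- The decomposition invariant. -/
def St {ι : Type} (s : ℕ) (T : Tr ι) (κ : Type) (_ : Fintype κ) (m w : ℕ)
    (R : (κ → Bool) → Tr ι) (g : κ → (ι → Bool) → Bool) (Ps : List (Tr ι)) : Prop :=
  4 * s * m + w + s * Fintype.card κ ≤ T.leaves + s * m ∧
  (∀ a, (R a).leaves ≤ w + Fintype.card κ) ∧
  (∀ x, T.ev x = (R fun i => g i x).ev x) ∧
  Ps.length ≤ 64 * m ∧ (∀ P ∈ Ps, P.leaves ≤ 8 * s) ∧
  ∀ (E : Type) (_ : Fintype E) (_ : DecidableEq E) (Φ : (E → Bool) → (ι → Bool)) (k₀ : ℕ),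
    (∀ P ∈ Ps, LowDeg k₀ (fun y => bv (P.ev (Φ y)))) →
    ∃ d : κ → ℕ, ∑ i, d i ≤ m * k₀ ∧ ∀ i, LowDeg (d i) (fun y => bv (g i (Φ y)))

lemma gate {ι : Type} {s : ℕ} (hs : 1 ≤ s) (T T₁ T₂ : Tr ι) (op : Tr ι → Tr ι → Tr ι)
    (f : Bool → Bool → Bool)
    (hop : ∀ a b, (op a b).leaves = a.leaves + b.leaves)
    (hf : ∀ a b x, (op a b).ev x = f (a.ev x) (b.ev x)) (hT : T = op T₁ T₂)
    (h₁ : ∃ (κ : Type) (_ : Fintype κ) (_ : DecidableEq κ) (m w : ℕ) (R : (κ → Bool) → Tr ι)
      (g : κ → (ι → Bool) → Bool) (Ps : List (Tr ι)),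
      w + s * Fintype.card κ < 4 * s ∧ St s T₁ κ inferInstance m w R g Ps)
    (h₂ : ∃ (κ : Type) (_ : Fintype κ) (_ : DecidableEq κ) (m w : ℕ) (R : (κ → Bool) → Tr ι)
      (g : κ → (ι → Bool) → Bool) (Ps : List (Tr ι)),
      w + s * Fintype.card κ < 4 * s ∧ St s T₂ κ inferInstance m w R g Ps) :
    ∃ (κ : Type) (_ : Fintype κ) (_ : DecidableEq κ) (m w : ℕ) (R : (κ → Bool) → Tr ι)
      (g : κ → (ι → Bool) → Bool) (Ps : List (Tr ι)),
      w + s * Fintype.card κ < 4 * s ∧ St s T κ inferInstance m w R g Ps := by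
  classical
  obtain ⟨κ₁, _, _, m₁, w₁, R₁, g₁, P₁, hw₁, a₁, b₁, c₁, d₁, e₁, f₁⟩ := h₁
  obtain ⟨κ₂, _, _, m₂, w₂, R₂, g₂, P₂, hw₂, a₂, b₂, c₂, d₂, e₂, f₂⟩ := h₂
  -- the combined open state
  let R : (κ₁ ⊕ κ₂ → Bool) → Tr ι := fun a => op (R₁ (a ∘ Sum.inl)) (R₂ (a ∘ Sum.inr))
  let g : κ₁ ⊕ κ₂ → (ι → Bool) → Bool := Sum.elim g₁ g₂
  have hcard : Fintype.card (κ₁ ⊕ κ₂) = Fintype.card κ₁ + Fintype.card κ₂ := Fintype.card_sum
  have hopen : St s T (κ₁ ⊕ κ₂) inferInstance (m₁ + m₂) (w₁ + w₂) R g (P₁ ++ P₂) := by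
    refine ⟨?_, ?_, ?_, ?_, ?_, ?_⟩
    · rw [hcard, hT, hop]
      nlinarith
    · intro a
      rw [hop, hcard]
      have := b₁ (a ∘ Sum.inl)
      have := b₂ (a ∘ Sum.inr)
      omega
    · intro x
      rw [hT, hf, hf, c₁, c₂]
      rfl
    · rw [List.length_append]
      omega
    · intro P hP
      rcases List.mem_append.mp hP with hP | hP
      · exact e₁ P hP
      · exact e₂ P hP
    · intro E _ _ Φ k₀ hP
      obtain ⟨q₁, hq₁, hg₁⟩ := f₁ E _ _ Φ k₀ fun P h => hP P (List.mem_append_left _ h)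
      obtain ⟨q₂, hq₂, hg₂⟩ := f₂ E _ _ Φ k₀ fun P h => hP P (List.mem_append_right _ h)
      refine ⟨Sum.elim q₁ q₂, ?_, ?_⟩
      · rw [Fintype.sum_sum_type]
        simp only [Sum.elim_inl, Sum.elim_inr]
        rw [add_mul]
        omega
      · rintro (i | i)
        · exact hg₁ i
        · exact hg₂ i
  by_cases hlt : (w₁ + w₂) + s * Fintype.card (κ₁ ⊕ κ₂) < 4 * s
  · exact ⟨κ₁ ⊕ κ₂, inferInstance, inferInstance, m₁ + m₂, w₁ + w₂, R, g, P₁ ++ P₂, hlt, hopen⟩
  · push Not at hlt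
    obtain ⟨a, b, c, d, e, f'⟩ := hopen
    have hc₁ : Fintype.card κ₁ ≤ 3 := by
      by_contra h
      push Not at h
      have : s * 4 ≤ s * Fintype.card κ₁ := Nat.mul_le_mul_left _ h
      omega
    have hc₂ : Fintype.card κ₂ ≤ 3 := by
      by_contra h
      push Not at h
      have : s * 4 ≤ s * Fintype.card κ₂ := Nat.mul_le_mul_left _ h
      omega
    have hsc : Fintype.card (κ₁ ⊕ κ₂) ≤ s * Fintype.card (κ₁ ⊕ κ₂) :=
      Nat.le_mul_of_pos_left _ hs
    refine ⟨Unit, inferInstance, inferInstance, m₁ + m₂ + 1, 0,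
      fun a => .leaf (.cst (a ())), fun _ x => T.ev x,
      (P₁ ++ P₂) ++ (Finset.univ : Finset (κ₁ ⊕ κ₂ → Bool)).toList.map R, ?_, ?_, ?_, ?_, ?_, ?_, ?_⟩
    · simp
      omega
    · simp only [Fintype.card_unit]
      have := a
      nlinarith
    · intro a
      simp [Tr.leaves]
    · intro x
      simp [Tr.ev, Lit.ev]
    · rw [List.length_append, List.length_map, Finset.length_toList, Finset.card_univ,
        Fintype.card_fun, Fintype.card_bool, hcard]
      have h2 : 2 ^ (Fintype.card κ₁ + Fintype.card κ₂) ≤ 2 ^ 6 :=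
        Nat.pow_le_pow_right (by norm_num) (by omega)
      omega
    · intro P hP
      rcases List.mem_append.mp hP with hP | hP
      · exact e P hP
      · obtain ⟨q, _, rfl⟩ := List.mem_map.mp hP
        have h1 := b q
        rw [hcard] at *
        rw [mul_add] at hsc
        omega
    · intro E _ _ Φ k₀ hP
      obtain ⟨q, hq, hg⟩ := f' E _ _ Φ k₀ fun P h => hP P (List.mem_append_left _ h)
      refine ⟨fun _ => k₀ + ∑ i, q i, ?_, ?_⟩
      · rw [Finset.univ_unique, Finset.sum_singleton, add_mul (m₁ + m₂) 1 k₀]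
        omega
      · intro _
        have h1 : (fun y => bv (T.ev (Φ y)))
            = fun y => bv ((fun (a : κ₁ ⊕ κ₂ → Bool) y => (R a).ev (Φ y))
              (fun i => g i (Φ y)) y) := by
          funext y
          rw [c]
        rw [h1]
        refine lowDeg_comp (fun (a : κ₁ ⊕ κ₂ → Bool) y => (R a).ev (Φ y))
          (fun i y => g i (Φ y)) ?_ hg
        intro a
        refine hP _ (List.mem_append_right _ ?_)
        exact List.mem_map.mpr ⟨a, Finset.mem_toList.mpr (Finset.mem_univ a), rfl⟩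

lemma exists_state {ι : Type} {s : ℕ} (hs : 1 ≤ s) (T : Tr ι) :
    ∃ (κ : Type) (_ : Fintype κ) (_ : DecidableEq κ) (m w : ℕ) (R : (κ → Bool) → Tr ι)
      (g : κ → (ι → Bool) → Bool) (Ps : List (Tr ι)),
      w + s * Fintype.card κ < 4 * s ∧ St s T κ inferInstance m w R g Ps := by
  induction T with
  | leaf l =>
    refine ⟨Empty, inferInstance, inferInstance, 0, 1, fun _ => .leaf l, fun i => i.elim, [],
      ?_, ?_, ?_, ?_, ?_, ?_, ?_⟩
    · simp
      omega
    · simp [Tr.leaves]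
    · intro a
      simp [Tr.leaves]
    · intro x
      rfl
    · simp
    · simp
    · intro E _ _ Φ k₀ _
      exact ⟨fun i => i.elim, by simp, fun i => i.elim⟩
  | and a b iha ihb =>
    exact gate hs _ a b Tr.and (fun x y => x && y) (fun _ _ => rfl) (fun _ _ _ => rfl) rfl iha ihb
  | or a b iha ihb =>
    exact gate hs _ a b Tr.or (fun x y => x || y) (fun _ _ => rfl) (fun _ _ _ => rfl) rfl iha ihb

/-- Decomposition of a formula into few small pieces. -/
theorem decomp {ι : Type} {s : ℕ} (hs : 1 ≤ s) (T : Tr ι) :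
    ∃ (m : ℕ) (Ps : List (Tr ι)), 3 * s * m ≤ T.leaves ∧ Ps.length ≤ 64 * (m + 1) ∧
      (∀ P ∈ Ps, P.leaves ≤ 8 * s) ∧
      ∀ (E : Type) (_ : Fintype E) (_ : DecidableEq E) (Φ : (E → Bool) → (ι → Bool)) (k₀ : ℕ),
        (∀ P ∈ Ps, LowDeg k₀ (fun y => bv (P.ev (Φ y)))) →
        LowDeg ((m + 1) * k₀) (fun y => bv (T.ev (Φ y))) := by
  obtain ⟨κ, _, _, m, w, R, g, Ps, hw, a, b, c, d, e, f⟩ := exists_state hs T
  have hc : Fintype.card κ ≤ 3 := by
    by_contra h
    push Not at h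
    have : s * 4 ≤ s * Fintype.card κ := Nat.mul_le_mul_left _ h
    omega
  have hsc : Fintype.card κ ≤ s * Fintype.card κ := Nat.le_mul_of_pos_left _ hs
  refine ⟨m, Ps ++ (Finset.univ : Finset (κ → Bool)).toList.map R, ?_, ?_, ?_, ?_⟩
  · nlinarith
  · rw [List.length_append, List.length_map, Finset.length_toList, Finset.card_univ,
      Fintype.card_fun, Fintype.card_bool]
    have h2 : 2 ^ (Fintype.card κ) ≤ 2 ^ 3 := Nat.pow_le_pow_right (by norm_num) (by omega)
    omega
  · intro P hP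
    rcases List.mem_append.mp hP with hP | hP
    · exact e P hP
    · obtain ⟨q, _, rfl⟩ := List.mem_map.mp hP
      have h1 := b q
      omega
  · intro E _ _ Φ k₀ hP
    obtain ⟨q, hq, hg⟩ := f E _ _ Φ k₀ fun P h => hP P (List.mem_append_left _ h)
    have h1 : (fun y => bv (T.ev (Φ y)))
        = fun y => bv ((fun (a : κ → Bool) y => (R a).ev (Φ y)) (fun i => g i (Φ y)) y) := by
      funext y
      rw [c]
    rw [h1]
    refine (lowDeg_comp (fun (a : κ → Bool) y => (R a).ev (Φ y))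
      (fun i y => g i (Φ y)) (k := k₀) ?_ hg).mono ?_
    · intro a
      refine hP _ (List.mem_append_right _ ?_)
      exact List.mem_map.mpr ⟨a, Finset.mem_toList.mpr (Finset.mem_univ a), rfl⟩
    · rw [add_mul]
      omega

end LineSize
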