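import Pool.Agent.Work.MP_c07f0d_lc.LS.Core

/-!
# Short Frege refutations with lines of quadratic size
-/

set_option linter.unusedSectionVars false

namespace LineSize

open FregeEF

/-- Trees of exclusive ors. -/
inductive XT (α : Type) : Type
  | leaf : Option α → XT α
  | node : XT α → XT α → XT α

namespace XT

variable {α : Type} [DecidableEq α]

/-- The formula of a tree. -/
def fm : XT α → Fm α
  | leaf none => .bot
  | leaf (some x) => .var x
  | node a b => xor2 a.fm b.fm

/-- The tree of a list of at most `2 ^ k` trees. -/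
def ofList : ℕ → List (XT α) → XT α
  | 0, l => l.headD (leaf none)
  | k + 1, l => node (ofList k (l.take (2 ^ k))) (ofList k (l.drop (2 ^ k)))

omit [DecidableEq α] in
lemma fm_ofList (k : ℕ) : ∀ l : List (XT α), (ofList k l).fm = xorList k (l.map fm) := by
  induction k with
  | zero =>
    intro l
    cases l <;> simp [ofList, xorList, fm]
  | succ k ih =>
    intro l
    simp only [ofList, xorList, fm, ih, List.map_take, List.map_drop]

/-- The number of nodes. -/
def nodes : XT α → ℕ
  | leaf _ => 1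
  | node a b => a.nodes + b.nodes + 1

/-- Replacing the variable `x` by `⊥`. -/
def kill (x : α) : XT α → XT α
  | leaf none => leaf none
  | leaf (some y) => if y = x then leaf none else leaf (some y)
  | node a b => node (a.kill x) (b.kill x)

/-- The parity of the number of occurrences of `x`. -/
def par (x : α) : XT α → Bool
  | leaf none => false
  | leaf (some y) => decide (y = x)
  | node a b => xor (a.par x) (b.par x)

/-- `x` occurs in the tree. -/
def Occ (x : α) : XT α → Prop
  | leaf none => False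
  | leaf (some y) => y = x
  | node a b => a.Occ x ∨ b.Occ x

lemma par_kill (x y : α) (t : XT α) : (t.kill x).par y = if y = x then false else t.par y := by
  induction t with
  | leaf o =>
    cases o with
    | none => simp [kill, par]
    | some z =>
      by_cases h1 : z = x
      · by_cases h2 : y = x
        · simp [kill, par, h1, h2]
        · have : ¬ x = y := fun h => h2 h.symm
          simp [kill, par, h1, h2, this]
      · by_cases h2 : y = x
        · simp [kill, par, h1, h2]
        · simp [kill, par, h1, h2]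
  | node a b iha ihb =>
    simp only [kill, par, iha, ihb]
    split_ifs <;> rfl

lemma occ_kill (x y : α) (t : XT α) (h : (t.kill x).Occ y) : y ≠ x ∧ t.Occ y := by
  induction t with
  | leaf o =>
    cases o with
    | none => exact absurd h (by simp [kill, Occ])
    | some z =>
      unfold kill at h
      split_ifs at h with h1
      · exact absurd h (by simp [Occ])
      · have h2 : z = y := h
        subst h2
        exact ⟨h1, rfl⟩
  | node a b iha ihb =>
    rcases h with h | h
    · exact ⟨(iha h).1, Or.inl (iha h).2⟩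
    · exact ⟨(ihb h).1, Or.inr (ihb h).2⟩

lemma size_kill (x : α) (t : XT α) : (t.kill x).fm.size = t.fm.size := by
  induction t with
  | leaf o =>
    cases o with
    | none => rfl
    | some z =>
      unfold kill
      split_ifs <;> rfl
  | node a b iha ihb =>
    simp only [kill, fm, xor2, Fm.size, iha, ihb]

omit [DecidableEq α] in
lemma nodes_le (t : XT α) : t.nodes ≤ t.fm.size := by
  induction t with
  | leaf o => cases o <;> simp [nodes, fm, Fm.size]
  | node a b iha ihb =>
    simp only [nodes, fm, xor2, Fm.size]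
    omega

omit [DecidableEq α] in
lemma size_left (a b : XT α) : a.fm.size ≤ (node a b).fm.size := by
  simp only [fm, xor2, Fm.size]
  omega

omit [DecidableEq α] in
lemma size_right (a b : XT α) : b.fm.size ≤ (node a b).fm.size := by
  simp only [fm, xor2, Fm.size]
  omega

omit [DecidableEq α] in
lemma one_le_size (t : XT α) : 1 ≤ t.fm.size := Fm.size_pos _

/-- Flipping `x` changes the value of the tree if and only if `x` occurs an odd number of times. -/
lemma sv_flip (v : α → Bool) (x : α) (t : XT α) :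
    sv (Function.update v x (!(v x))) t.fm = (if t.par x then -1 else 1) * sv v t.fm := by
  induction t with
  | leaf o =>
    cases o with
    | none => simp [fm, par, sv, Fm.eval]
    | some y =>
      simp only [fm, sv_var, par]
      by_cases h : y = x
      · subst h
        cases v y <;> simp [sg, *]
      · simp [h]
  | node a b iha ihb =>
    simp only [fm, sv_xor2, iha, ihb, par]
    rcases Bool.eq_false_or_eq_true (a.par x) with h1 | h1 <;>
      rcases Bool.eq_false_or_eq_true (b.par x) with h2 | h2 <;> simp [h1, h2]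

end XT

section Size

variable {α : Type}

lemma size_xorList (B : ℕ) (hB : 1 ≤ B) (k : ℕ) : ∀ l : List (Fm α), (∀ φ ∈ l, φ.size ≤ B) →
    (xorList k l).size + 2 ≤ 4 ^ k * (B + 2) := by
  induction k with
  | zero =>
    intro l hl
    cases l with
    | nil => simp [xorList, Fm.size]; omega
    | cons a l =>
      have := hl a List.mem_cons_self
      simp [xorList]
      omega
  | succ k ih =>
    intro l hl
    have h1 := ih (l.take (2 ^ k)) fun φ hφ => hl φ (List.mem_of_mem_take hφ)
    have h2 := ih (l.drop (2 ^ k)) fun φ hφ => hl φ (List.mem_of_mem_drop hφ)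
    simp only [xorList, xor2, Fm.size]
    rw [pow_succ]
    nlinarith

end Size

/-- One application of a small valid schematic entailment, inside a derivation. -/
lemma derive_step (F : FregeSystem) {α : Type} {Γ L : List (Fm α)} {M : ℕ}
    (hL : IsDeriv F.rules Γ L) (hM : ∀ ψ ∈ L, ψ.size ≤ F.K * M) (hM1 : 1 ≤ M)
    (prem : List (Fm ℕ)) (concl : Fm ℕ) (θ : List (Fm α)) (ht : smallTest prem concl = true)
    (hv : ∀ v : ℕ → Prop, (∀ p ∈ prem, p.eval v) → concl.eval v)
    (hθ : ∀ x ∈ θ, x.size ≤ M) (hp : ∀ p ∈ prem, p.subst (sub θ) ∈ L) :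
    ∃ L', IsDeriv F.rules Γ L' ∧ (∀ ψ ∈ L', ψ.size ≤ F.K * M) ∧ (∀ ψ ∈ L, ψ ∈ L') ∧
      concl.subst (sub θ) ∈ L' ∧ L'.length ≤ L.length + F.K := by
  obtain ⟨L₀, h1, h2, h3⟩ := F.K_spec prem concl ht hv
  have hb : ∀ x, (sub θ x).size ≤ M := by
    intro x
    unfold sub
    by_cases hx : x < θ.length
    · rw [List.getD_eq_getElem?_getD, List.getElem?_eq_getElem hx]
      exact hθ _ (List.getElem_mem hx)
    · rw [List.getD_eq_getElem?_getD, List.getElem?_eq_none (by omega)]
      simpa [Fm.size] using hM1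
  have key : ∀ Q : List (Fm ℕ), IsDeriv F.rules prem Q → (∀ ψ ∈ Q, ψ.size ≤ F.K) →
      ∃ L', IsDeriv F.rules Γ L' ∧ (∀ ψ ∈ L', ψ.size ≤ F.K * M) ∧ (∀ ψ ∈ L, ψ ∈ L') ∧
        (∀ ψ ∈ Q, ψ.subst (sub θ) ∈ L') ∧ L'.length ≤ L.length + Q.length := by
    intro Q hQ
    induction hQ with
    | nil => exact fun _ => ⟨L, hL, hM, fun _ h => h, by simp, by simp⟩
    | @hyp Q φ _ hφ ih =>
      intro hs
      obtain ⟨L', a, b, c, e, f⟩ := ih fun ψ hψ => hs ψ (List.mem_cons_of_mem _ hψ)
      refine ⟨L', a, b, c, ?_, by rw [List.length_cons]; omega⟩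
      intro ψ hψ
      rcases List.mem_cons.mp hψ with rfl | hψ
      · exact c _ (hp _ hφ)
      · exact e ψ hψ
    | @step Q φ _ hi ih =>
      intro hs
      obtain ⟨L', a, b, c, e, f⟩ := ih fun ψ hψ => hs ψ (List.mem_cons_of_mem _ hψ)
      refine ⟨φ.subst (sub θ) :: L', a.step ?_, ?_, fun ψ hψ => List.mem_cons_of_mem _ (c ψ hψ),
        ?_, by rw [List.length_cons, List.length_cons]; omega⟩
      · exact (hi.subst (sub θ)).mono (by
          intro x hx
          obtain ⟨p, hp', rfl⟩ := List.mem_map.1 hx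
          exact e p hp')
      · intro ψ hψ
        rcases List.mem_cons.mp hψ with rfl | hψ
        · exact (Fm.size_subst_le (sub θ) M hM1 φ fun x _ => hb x).trans
            (Nat.mul_le_mul_right _ (hs φ List.mem_cons_self))
        · exact b ψ hψ
      · intro ψ hψ
        rcases List.mem_cons.mp hψ with rfl | hψ
        · exact List.mem_cons_self
        · exact List.mem_cons_of_mem _ (e ψ hψ)
  obtain ⟨L', a, b, c, e, f⟩ := key L₀ h1 fun ψ hψ => (size_le_lsize hψ).trans h3
  exact ⟨L', a, b, c, e _ h2, f.trans (Nat.add_le_add_left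
    ((length_le_lsize L₀).trans h3) _)⟩

/-- Extending derivations: from derivations containing `Φ` to derivations containing `Ψ`, with at
most `N` new lines. -/
def Ext (F : FregeSystem) {α : Type} (Γ : List (Fm α)) (M : ℕ) (Φ Ψ : List (Fm α)) (N : ℕ) :
    Prop :=
  ∀ L, IsDeriv F.rules Γ L → (∀ ψ ∈ L, ψ.size ≤ F.K * M) → (∀ ψ ∈ Φ, ψ ∈ L) →
    ∃ L', IsDeriv F.rules Γ L' ∧ (∀ ψ ∈ L', ψ.size ≤ F.K * M) ∧ (∀ ψ ∈ L, ψ ∈ L') ∧
      (∀ ψ ∈ Ψ, ψ ∈ L') ∧ L'.length ≤ L.length + N

namespace Ext

variable {F : FregeSystem} {α : Type} {Γ : List (Fm α)} {M : ℕ} {Φ Ψ X : List (Fm α)} {N N' : ℕ}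

lemma trans (h1 : Ext F Γ M Φ Ψ N) (h2 : Ext F Γ M Ψ X N') : Ext F Γ M Φ X (N + N') := by
  intro L hL hs hΦ
  obtain ⟨L1, a1, b1, c1, e1, f1⟩ := h1 L hL hs hΦ
  obtain ⟨L2, a2, b2, c2, e2, f2⟩ := h2 L1 a1 b1 e1
  exact ⟨L2, a2, b2, fun ψ h => c2 ψ (c1 ψ h), e2, by omega⟩

lemma both (h1 : Ext F Γ M Φ Ψ N) (h2 : Ext F Γ M Φ X N') : Ext F Γ M Φ (Ψ ++ X) (N + N') := by
  intro L hL hs hΦ
  obtain ⟨L1, a1, b1, c1, e1, f1⟩ := h1 L hL hs hΦ
  obtain ⟨L2, a2, b2, c2, e2, f2⟩ := h2 L1 a1 b1 fun ψ h => c1 ψ (hΦ ψ h)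
  refine ⟨L2, a2, b2, fun ψ h => c2 ψ (c1 ψ h), ?_, by omega⟩
  intro ψ hψ
  rcases List.mem_append.mp hψ with h | h
  · exact c2 ψ (e1 ψ h)
  · exact e2 ψ h

lemma mono (h : Ext F Γ M Φ Ψ N) (hΦ : ∀ ψ ∈ Φ, ψ ∈ X) (hN : N ≤ N') : Ext F Γ M X Ψ N' := by
  intro L hL hs hX
  obtain ⟨L1, a1, b1, c1, e1, f1⟩ := h L hL hs fun ψ hψ => hX ψ (hΦ ψ hψ)
  exact ⟨L1, a1, b1, c1, e1, by omega⟩

lemma rule (hM1 : 1 ≤ M) (prem : List (Fm ℕ)) (concl : Fm ℕ) (θ : List (Fm α))
    (ht : smallTest prem concl = true)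
    (hv : ∀ v : ℕ → Prop, (∀ p ∈ prem, p.eval v) → concl.eval v)
    (hθ : ∀ x ∈ θ, x.size ≤ M) :
    Ext F Γ M (prem.map fun p => p.subst (sub θ)) [concl.subst (sub θ)] F.K := by
  intro L hL hs hΦ
  obtain ⟨L', a, b, c, e, f⟩ := derive_step F hL hs hM1 prem concl θ ht hv hθ
    fun p hp => hΦ _ (List.mem_map_of_mem (f := fun p => p.subst (sub θ)) hp)
  exact ⟨L', a, b, c, by simpa using e, f⟩

end Ext

end LineSize
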