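import Pool.Agent.Work.MP_c07f0d_lc.LS.Upper

/-!
# Short Frege refutations with lines of quadratic size, II
-/

set_option linter.unusedSectionVars false

namespace LineSize

open FregeEF

section Rules

variable {F : FregeSystem} {α : Type} [DecidableEq α] {Γ : List (Fm α)} {M : ℕ}

lemma sub_zero' (θ : List (Fm α)) : sub θ 0 = θ.getD 0 .bot := rfl

/-- Schematic right-hand side. -/
def rhsS (p : Bool) (i : ℕ) : Fm ℕ := if p then xor2 (.var i) (.var 4) else .var i

/-- Schematic premises of the node rule. -/
def premS (p q : Bool) : List (Fm ℕ) :=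
  [.imp (.var 0) (rhsS p 1), .imp (rhsS p 1) (.var 0), .imp (.var 2) (rhsS q 3),
    .imp (rhsS q 3) (.var 2)]

/-- Schematic conclusion of the node rule. -/
def conclS (r : Bool) : Fm ℕ :=
  if r then xor2 (xor2 (.var 1) (.var 3)) (.var 4) else xor2 (.var 1) (.var 3)

lemma testS (p q : Bool) : smallTest (premS p q) (.imp (xor2 (.var 0) (.var 2)) (conclS (xor p q)))
    = true ∧ smallTest (premS p q) (.imp (conclS (xor p q)) (xor2 (.var 0) (.var 2))) = true := by
  cases p <;> cases q <;> decide

lemma validS (p q : Bool) (v : ℕ → Prop) (h : ∀ f ∈ premS p q, f.eval v) :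
    ((Fm.imp (xor2 (.var 0) (.var 2)) (conclS (xor p q))).eval v) ∧
      ((Fm.imp (conclS (xor p q)) (xor2 (.var 0) (.var 2))).eval v) := by
  simp only [premS, List.mem_cons, List.not_mem_nil, or_false, forall_eq_or_imp, forall_eq] at h
  obtain ⟨h1, h2, h3, h4⟩ := h
  cases p <;> cases q <;>
    simp only [rhsS, conclS, xor2, Fm.eval, Bool.false_eq_true, if_false, if_true, Bool.xor_false,
      Bool.xor_true, Bool.not_false, Bool.not_true] at h1 h2 h3 h4 ⊢ <;>
    (by_cases a0 : v 0 <;> by_cases a1 : v 1 <;> by_cases a2 : v 2 <;> by_cases a3 : v 3 <;>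
      by_cases a4 : v 4 <;> simp_all)

/-- The right-hand side of the equivalence for a tree. -/
def rhs (x : α) (t : XT α) : Fm α :=
  if t.par x then xor2 (t.kill x).fm (.var x) else (t.kill x).fm

/-- A tree is equivalent to the tree without `x`, up to the parity of `x`. -/
lemma ext_equiv (hM1 : 1 ≤ M) (x : α) (t : XT α) (ht : t.fm.size ≤ M) :
    Ext F Γ M [] [.imp t.fm (rhs x t), .imp (rhs x t) t.fm] (2 * F.K * t.nodes) := by
  induction t with
  | leaf o =>
    have hrefl : ∀ φ : Fm α, φ.size ≤ M → Ext F Γ M [] [.imp φ φ, .imp φ φ] (2 * F.K * 1) := by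
      intro φ hφ
      have h := Ext.rule (F := F) (Γ := Γ) hM1 [] (.imp (.var 0) (.var 0)) [φ] (by decide)
        (by intro v _; exact fun h => h) (by simpa using hφ)
      have h2 := (h.both h).mono (X := []) (N' := 2 * F.K * 1) (by simp) (by omega)
      exact h2
    cases o with
    | none => exact hrefl _ ht
    | some y =>
      by_cases hyx : y = x
      · subst hyx
        have e : rhs y (XT.leaf (some y)) = xor2 .bot (.var y) := by
          simp [rhs, XT.par, XT.kill, XT.fm]
        rw [e]
        have h1 := Ext.rule (F := F) (Γ := Γ) hM1 [] (.imp (.var 0) (xor2 .bot (.var 0)))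
          [.var y] (by decide) (by
            intro v _
            simp only [xor2, Fm.eval]
            tauto) (by simpa [Fm.size] using hM1)
        have h2 := Ext.rule (F := F) (Γ := Γ) hM1 [] (.imp (xor2 .bot (.var 0)) (.var 0))
          [.var y] (by decide) (by
            intro v _
            simp only [xor2, Fm.eval]
            tauto) (by simpa [Fm.size] using hM1)
        exact (h1.both h2).mono (X := []) (by simp) (by simp [XT.nodes]; omega)
      · have e : rhs x (XT.leaf (some y)) = .var y := by
          simp [rhs, XT.par, XT.kill, XT.fm, hyx]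
        rw [e]
        exact hrefl _ ht
  | node a b iha ihb =>
    have ha := (XT.size_left a b).trans ht
    have hb := (XT.size_right a b).trans ht
    have hab := (iha ha).both (ihb hb)
    have hθ : ∀ y ∈ [a.fm, (a.kill x).fm, b.fm, (b.kill x).fm, Fm.var x], y.size ≤ M := by
      intro y hy
      simp only [List.mem_cons, List.not_mem_nil, or_false] at hy
      rcases hy with rfl | rfl | rfl | rfl | rfl
      · exact ha
      · rw [XT.size_kill]; exact ha
      · exact hb
      · rw [XT.size_kill]; exact hb
      · simpa [Fm.size] using hM1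
    have hprem : (premS (a.par x) (b.par x)).map (fun p => p.subst
        (sub [a.fm, (a.kill x).fm, b.fm, (b.kill x).fm, Fm.var x]))
        = [.imp a.fm (rhs x a), .imp (rhs x a) a.fm] ++ [.imp b.fm (rhs x b), .imp (rhs x b) b.fm] := by
      unfold premS rhsS rhs
      rcases Bool.eq_false_or_eq_true (a.par x) with h1 | h1 <;>
        rcases Bool.eq_false_or_eq_true (b.par x) with h2 | h2 <;>
        simp [h1, h2, Fm.subst, sub, xor2]
    have hconcl : (conclS (xor (a.par x) (b.par x))).subst
        (sub [a.fm, (a.kill x).fm, b.fm, (b.kill x).fm, Fm.var x]) = rhs x (XT.node a b) := by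
      unfold conclS rhs
      simp only [XT.par]
      rcases Bool.eq_false_or_eq_true (xor (a.par x) (b.par x)) with h1 | h1 <;>
        simp [h1, Fm.subst, sub, xor2, XT.kill, XT.fm]
    have hleft : (xor2 (.var 0) (.var 2) : Fm ℕ).subst
        (sub [a.fm, (a.kill x).fm, b.fm, (b.kill x).fm, Fm.var x]) = (XT.node a b).fm := by
      simp [Fm.subst, sub, xor2, XT.fm]
    have r1 := Ext.rule (F := F) (Γ := Γ) hM1 (premS (a.par x) (b.par x)) _ _
      (testS (a.par x) (b.par x)).1 (fun v h => (validS _ _ v h).1) hθ
    have r2 := Ext.rule (F := F) (Γ := Γ) hM1 (premS (a.par x) (b.par x)) _ _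
      (testS (a.par x) (b.par x)).2 (fun v h => (validS _ _ v h).2) hθ
    simp only [Fm.subst, hprem, hconcl, hleft] at r1 r2
    have h := hab.trans (r1.both r2)
    refine h.mono (fun _ h => h) ?_
    simp only [XT.nodes]
    nlinarith

/-- Modus ponens. -/
lemma ext_mp (hM1 : 1 ≤ M) (φ ψ : Fm α) (hφ : φ.size ≤ M) (hψ : ψ.size ≤ M) :
    Ext F Γ M [φ, .imp φ ψ] [ψ] F.K := by
  have h := Ext.rule (F := F) (Γ := Γ) hM1 [.var 0, .imp (.var 0) (.var 1)] (.var 1) [φ, ψ]
    (by decide) (by
      intro v h
      simp only [List.mem_cons, List.not_mem_nil, or_false, forall_eq_or_imp, forall_eq,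
        Fm.eval] at h
      exact h.2 h.1) (by
      intro y hy
      simp only [List.mem_cons, List.not_mem_nil, or_false] at hy
      rcases hy with rfl | rfl
      · exact hφ
      · exact hψ)
  exact h

/-- Removing one variable with an even number of occurrences. -/
lemma ext_kill (hM1 : 1 ≤ M) (x : α) (t : XT α) (ht : t.fm.size ≤ M) (hp : t.par x = false) :
    Ext F Γ M [t.fm] [(t.kill x).fm] (2 * F.K * M + F.K) := by
  have h1 := ext_equiv (F := F) (Γ := Γ) hM1 x t ht
  have e : rhs x t = (t.kill x).fm := by simp [rhs, hp]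
  rw [e] at h1
  have h2 := ext_mp (F := F) (Γ := Γ) hM1 t.fm (t.kill x).fm ht (by rw [XT.size_kill]; exact ht)
  have hnodes := (XT.nodes_le t).trans ht
  intro L hL hs hΦ
  obtain ⟨L1, a1, b1, c1, e1, f1⟩ := h1 L hL hs (by simp)
  obtain ⟨L2, a2, b2, c2, e2, f2⟩ := h2 L1 a1 b1 (by
    intro ψ hψ
    simp only [List.mem_cons, List.not_mem_nil, or_false] at hψ
    rcases hψ with rfl | rfl
    · exact c1 _ (hΦ _ (by simp))
    · exact e1 _ (by simp))
  refine ⟨L2, a2, b2, fun ψ h => c2 ψ (c1 ψ h), e2, ?_⟩
  have : 2 * F.K * t.nodes ≤ 2 * F.K * M := Nat.mul_le_mul_left _ hnodes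
  omega

/-- Removing all the variables of a list. -/
def killAll (xs : List α) (t : XT α) : XT α := xs.foldl (fun t x => t.kill x) t

lemma ext_killAll (hM1 : 1 ≤ M) (xs : List α) : ∀ t : XT α, t.fm.size ≤ M →
    (∀ y, t.par y = false) →
    Ext F Γ M [t.fm] [(killAll xs t).fm] (xs.length * (2 * F.K * M + F.K)) := by
  induction xs with
  | nil =>
    intro t ht hp L hL hs hΦ
    exact ⟨L, hL, hs, fun _ h => h, hΦ, by simp⟩
  | cons x xs ih =>
    intro t ht hp
    have h1 := ext_kill (F := F) (Γ := Γ) hM1 x t ht (hp x)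
    have h2 := ih (t.kill x) (by rw [XT.size_kill]; exact ht) (by
      intro y
      rw [XT.par_kill, hp y]
      split_ifs <;> rfl)
    have h3 := h1.trans h2
    refine h3.mono (fun _ h => h) ?_
    rw [List.length_cons]
    nlinarith

lemma occ_killAll (xs : List α) : ∀ t : XT α, ∀ y, (killAll xs t).Occ y → y ∉ xs := by
  have key : ∀ (xs : List α) (t : XT α) (y : α), (killAll xs t).Occ y → t.Occ y := by
    intro xs
    induction xs with
    | nil => exact fun t y h => h
    | cons x xs ih =>
      intro t y h
      exact (XT.occ_kill x y t (ih (t.kill x) y h)).2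
  induction xs with
  | nil => simp
  | cons x xs ih =>
    intro t y h hy
    rcases List.mem_cons.mp hy with rfl | hy
    · exact (XT.occ_kill _ _ t (key xs (t.kill _) _ h)).1 rfl
    · exact ih (t.kill x) y h hy

lemma ext_neg (hM1 : 1 ≤ M) (t : XT α) (ht : t.fm.size ≤ M) (h : ∀ x, ¬ t.Occ x) :
    Ext F Γ M [] [.neg t.fm] (F.K * t.nodes) := by
  induction t with
  | leaf o =>
    cases o with
    | none =>
      have h := Ext.rule (F := F) (Γ := Γ) hM1 [] (.neg .bot) [] (by decide)
        (by intro v _; exact fun h => h) (by simp)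
      exact h.mono (X := []) (by simp) (by simp [XT.nodes])
    | some y => exact absurd rfl (h y)
  | node a b iha ihb =>
    have ha := (XT.size_left a b).trans ht
    have hb := (XT.size_right a b).trans ht
    have hab := (iha ha fun x hx => h x (Or.inl hx)).both (ihb hb fun x hx => h x (Or.inr hx))
    have r := Ext.rule (F := F) (Γ := Γ) hM1 [.neg (.var 0), .neg (.var 1)]
      (.neg (xor2 (.var 0) (.var 1))) [a.fm, b.fm] (by decide) (by
        intro v h
        simp only [List.mem_cons, List.not_mem_nil, or_false, forall_eq_or_imp, forall_eq,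
          Fm.eval, xor2] at h ⊢
        tauto) (by
        intro y hy
        simp only [List.mem_cons, List.not_mem_nil, or_false] at hy
        rcases hy with rfl | rfl
        · exact ha
        · exact hb)
    refine (hab.trans r).mono (fun _ h => h) ?_
    simp only [XT.nodes]
    nlinarith

/-- A formula or its negation. -/
def litF (b : Bool) (φ : Fm α) : Fm α := if b then φ else .neg φ

/-- The exclusive or of values. -/
def valB {V : Type} (b : V → Bool) (us : List V) : Bool := us.foldr (fun u acc => xor (b u) acc) false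

lemma valB_append {V : Type} (b : V → Bool) (us vs : List V) :
    valB b (us ++ vs) = xor (valB b us) (valB b vs) := by
  induction us with
  | nil => simp [valB]
  | cons u us ih =>
    simp only [valB, List.cons_append, List.foldr_cons] at ih ⊢
    rw [ih, Bool.xor_assoc]

lemma ext_xor2 (hM1 : 1 ≤ M) (p q : Bool) (φ ψ : Fm α) (hφ : φ.size ≤ M) (hψ : ψ.size ≤ M) :
    Ext F Γ M [litF p φ, litF q ψ] [litF (xor p q) (xor2 φ ψ)] F.K := by
  have r := Ext.rule (F := F) (Γ := Γ) hM1 [litF p (.var 0), litF q (.var 1)]
      (litF (xor p q) (xor2 (.var 0) (.var 1))) [φ, ψ] (by cases p <;> cases q <;> decide) (by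
        intro v h
        cases p <;> cases q <;>
        simp only [litF, List.mem_cons, List.not_mem_nil, or_false, forall_eq_or_imp, forall_eq,
          Fm.eval, xor2, Bool.false_eq_true, if_false, if_true, Bool.xor_false, Bool.xor_true,
          Bool.not_false, Bool.not_true] at h ⊢ <;> tauto) (by
        intro y hy
        simp only [List.mem_cons, List.not_mem_nil, or_false] at hy
        rcases hy with rfl | rfl
        · exact hφ
        · exact hψ)
  cases p <;> cases q <;> exact r

lemma ext_ofList {V : Type} (hM1 : 1 ≤ M) (T : V → XT α) (b : V → Bool) (k : ℕ) :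
    ∀ us : List V, us.length ≤ 2 ^ k → (XT.ofList k (us.map T)).fm.size ≤ M →
      Ext F Γ M (us.map fun u => litF (b u) (T u).fm)
        [litF (valB b us) (XT.ofList k (us.map T)).fm] (F.K * (2 ^ (k + 1) - 1)) := by
  induction k with
  | zero =>
    intro us hus hsize
    match us with
    | [] =>
      have h := Ext.rule (F := F) (Γ := Γ) hM1 [] (.neg .bot) [] (by decide)
        (by intro v _; exact fun h => h) (by simp)
      exact h.mono (X := []) (by simp) (by omega)
    | [u] =>
      intro L hL hs hΦ
      refine ⟨L, hL, hs, fun _ h => h, ?_, by omega⟩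
      intro ψ hψ
      apply hΦ
      simpa [valB, XT.ofList] using hψ
    | u :: v :: us => simp at hus
  | succ k ih =>
    intro us hus hsize
    have ha : (XT.ofList k ((us.take (2 ^ k)).map T)).fm.size ≤ M := by
      rw [List.map_take]
      exact (XT.size_left _ _).trans hsize
    have hb : (XT.ofList k ((us.drop (2 ^ k)).map T)).fm.size ≤ M := by
      rw [List.map_drop]
      exact (XT.size_right _ _).trans hsize
    have h1 := ih (us.take (2 ^ k)) (by simp) ha
    have h2 := ih (us.drop (2 ^ k)) (by rw [List.length_drop, pow_succ] at *; omega) hb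
    have h1' := h1.mono (X := us.map fun u => litF (b u) (T u).fm)
      (N' := F.K * (2 ^ (k + 1) - 1)) (by
      intro ψ hψ
      obtain ⟨u, hu, rfl⟩ := List.mem_map.mp hψ
      exact List.mem_map.mpr ⟨u, List.mem_of_mem_take hu, rfl⟩) le_rfl
    have h2' := h2.mono (X := us.map fun u => litF (b u) (T u).fm)
      (N' := F.K * (2 ^ (k + 1) - 1)) (by
      intro ψ hψ
      obtain ⟨u, hu, rfl⟩ := List.mem_map.mp hψ
      exact List.mem_map.mpr ⟨u, List.mem_of_mem_drop hu, rfl⟩) le_rfl
    have r := ext_xor2 (F := F) (Γ := Γ) hM1 (valB b (us.take (2 ^ k))) (valB b (us.drop (2 ^ k)))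
      _ _ ha hb
    have h3 := (h1'.both h2').trans r
    have hval : xor (valB b (us.take (2 ^ k))) (valB b (us.drop (2 ^ k))) = valB b us := by
      rw [← valB_append, List.take_append_drop]
    rw [hval] at h3
    have hfm : xor2 (XT.ofList k ((us.take (2 ^ k)).map T)).fm
        (XT.ofList k ((us.drop (2 ^ k)).map T)).fm = (XT.ofList (k + 1) (us.map T)).fm := by
      simp only [XT.ofList, XT.fm, List.map_take, List.map_drop]
    rw [hfm] at h3
    refine h3.mono (fun _ h => h) ?_
    have h2k : 1 ≤ 2 ^ (k + 1) := Nat.one_le_two_pow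
    have e : 2 ^ (k + 1 + 1) - 1 = (2 ^ (k + 1) - 1) + (2 ^ (k + 1) - 1) + 1 := by
      rw [pow_succ 2 (k + 1)]
      omega
    rw [e]
    exact le_of_eq (by ring)

end Rules

end LineSize
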